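import Mathlib
import Pool.Graph.R_seed8.H378R2.M1
import Pool.Graph.R_seed8.H378R2.LSBV5

/-! Characters of conductor up to `exp u`, at heights `X` with `log X` about `u ^ 20`. -/

set_option autoImplicit false

open MeasureTheory Filter Topology Set

namespace Pool.Agent.H537.MM

open Pool.Agent.H378R2 Pool.Agent.H378R2.M1 DirichletCharacter

theorem psi_small (Z : ℕ) : ∃ u0 : ℝ, 2 ≤ u0 ∧ ∀ u : ℝ, u0 ≤ u → ∃ fs : ℕ, (fs = 0 ∨ Z < fs) ∧
    ∀ f : ℕ, 1 < f → Real.log f ≤ u → f ≠ fs → ∀ χ : DirichletCharacter ℂ f, χ.IsPrimitive →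
      ∀ X : ℝ, 0 < X → u ^ 20 ≤ Real.log X → Real.log X ≤ 2 * u ^ 20 →
        ‖psiPhi χ X‖ ≤ X * Real.exp (-(3 * u)) := by
  obtain ⟨d, hd0, hd2, hnzr⟩ := nzr_exc
  obtain ⟨l0, hl0⟩ := hnzr Z
  obtain ⟨C, hC1, hC⟩ := vM_sum_bound
  obtain ⟨a, ha⟩ := exp_dominates (48 * 5 ^ 18 / d + 192 * C) 40
  refine ⟨max (max a l0) (max 2 (4 * 5 ^ 18 / d)), (le_max_left _ _).trans (le_max_right _ _), fun u hu => ?_⟩
  have hua : a ≤ u := ((le_max_left _ _).trans (le_max_left _ _)).trans hu
  have hul : l0 ≤ u := ((le_max_right _ _).trans (le_max_left _ _)).trans hu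
  have hu2 : 2 ≤ u := ((le_max_left _ _).trans (le_max_right _ _)).trans hu
  have hud : 4 * 5 ^ 18 / d ≤ u := ((le_max_right _ _).trans (le_max_right _ _)).trans hu
  have hu0 : 0 < u := by linarith
  have hu1 : 1 ≤ u := by linarith
  have hdom := ha u hua
  set l : ℝ := 5 * u with hl
  obtain ⟨fs, hfs, hmain⟩ := hl0 l (by linarith)
  refine ⟨fs, hfs, ?_⟩
  intro f hf1 hfle hffs χ hχ X hX0 hX1 hX2
  have : NeZero f := ⟨by omega⟩
  have hχ1 : χ ≠ 1 := primitive_ne_one hf1 hχ
  have hlogf : Real.log f ≤ l := by linarith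
  have hlpow : l ^ 18 = 5 ^ 18 * u ^ 18 := by rw [hl]; ring
  have hlpos : 0 < l := by positivity
  set δ : ℝ := d / l ^ 18 with hδ
  set M : ℝ := l ^ 18 / d with hM
  set T : ℝ := Real.exp (4 * u) with hT
  have hδ0 : 0 < δ := by positivity
  have hM0 : 0 ≤ M := by positivity
  have hu18 : u ^ 18 ≤ u ^ 40 := pow_le_pow_right₀ hu1 (by norm_num)
  have hu40 : (1 : ℝ) ≤ u ^ 40 := one_le_pow₀ hu1
  have hu20 : (1 : ℝ) ≤ u ^ 20 := one_le_pow₀ hu1
  have hlogX : 0 < Real.log X := by linarith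
  -- `48 M ≤ e^u`
  have hM48 : 48 * M ≤ Real.exp u := by
    refine le_trans ?_ hdom
    rw [hM, hlpow]
    calc 48 * (5 ^ 18 * u ^ 18 / d) = (48 * 5 ^ 18 / d) * u ^ 18 := by ring
      _ ≤ (48 * 5 ^ 18 / d) * u ^ 40 := mul_le_mul_of_nonneg_left hu18 (by positivity)
      _ ≤ (48 * 5 ^ 18 / d + 192 * C) * u ^ 40 :=
          mul_le_mul_of_nonneg_right (by linarith) (by positivity)
  have hC48 : 192 * C * u ^ 40 ≤ Real.exp u := by
    refine le_trans ?_ hdom
    exact mul_le_mul_of_nonneg_right (by have : 0 < 48 * 5 ^ 18 / d := by positivity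
                                         linarith) (by positivity)
  -- `4 u ≤ δ log X`
  have hδX : 4 * u ≤ δ * Real.log X := by
    have h1 : δ * u ^ 20 ≤ δ * Real.log X := mul_le_mul_of_nonneg_left hX1 hδ0.le
    refine le_trans ?_ h1
    have h2 : δ * u ^ 20 = d * u / 5 ^ 18 * u := by
      rw [hδ, hlpow]
      field_simp
    rw [h2]
    apply mul_le_mul_of_nonneg_right _ hu0.le
    rw [div_le_iff₀ hd0] at hud
    rw [le_div_iff₀ (by positivity)]
    linarith
  have hδ4 : δ ≤ 1 / 4 := by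
    rw [hδ, div_le_iff₀ (by positivity)]
    have h2 : (2 : ℝ) ≤ l := by linarith
    have h3 : (2 : ℝ) ^ 18 ≤ l ^ 18 := by gcongr
    norm_num at h3
    linarith
  set c : ℝ := 1 + 1 / Real.log X with hc
  have hc1 : 1 < c := by
    rw [hc]
    have : 0 < 1 / Real.log X := by positivity
    linarith
  have hcδ : c ≤ 1 + δ := by
    rw [hc]
    have h2 : 1 / Real.log X ≤ δ := by
      rw [div_le_iff₀ hlogX]
      linarith
    linarith
  have hX1' : 1 ≤ X := by
    by_contra h
    have := Real.log_nonpos hX0.le (not_le.mp h).le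
    linarith
  have hXc : X ^ c ≤ 3 * X := by
    rw [hc, Real.rpow_add hX0, Real.rpow_one]
    have h1 : X ^ (1 / Real.log X) = Real.exp 1 := by
      rw [Real.rpow_def_of_pos hX0, mul_one_div_cancel hlogX.ne']
    rw [h1]
    have := Real.exp_one_lt_d9
    nlinarith
  have hA : ∑' n : ℕ, ArithmeticFunction.vonMangoldt n * (n : ℝ) ^ (-c) ≤
      C * (4 * u ^ 40) := by
    have hc2 : c ≤ 2 := by
      linarith
    refine (hC c hc1 hc2).trans ?_
    have h1 : c - 1 = 1 / Real.log X := by rw [hc]; ring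
    rw [h1]
    have h2 : C / (1 / Real.log X) ^ 2 = C * Real.log X ^ 2 := by
      field_simp
    rw [h2]
    apply mul_le_mul_of_nonneg_left _ (by linarith)
    calc Real.log X ^ 2 ≤ (2 * u ^ 20) ^ 2 := pow_le_pow_left₀ hlogX.le hX2 2
      _ = _ := by ring
  have hT1' : (1 : ℝ) ≤ T := Real.one_le_exp (by positivity)
  have hcont := contour χ hχ1 hX1' hc1 hδ0 hδ4 hcδ hXc hT1' hM0 hA (by
    intro s h1 h2
    refine hmain f hf1 hlogf hffs χ hχ s h1 ?_
    have h3 : 2 * |s.im| + 3 ≤ Real.exp l := by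
      have h4 : Real.exp l = T * Real.exp u := by
        rw [hT, hl, ← Real.exp_add]; congr 1; ring
      have h5 : 1 + u + u ^ 2 / 2 ≤ Real.exp u := Real.quadratic_le_exp_of_nonneg hu0.le
      have h6 : 5 ≤ Real.exp u := by nlinarith
      have h7 : T * 5 ≤ T * Real.exp u := mul_le_mul_of_nonneg_left h6 (by linarith)
      rw [h4]
      linarith
    rw [Real.log_le_iff_le_exp (by positivity)]
    exact h3)
  refine hcont.trans ?_
  -- the three terms
  have hXδ : X ^ (1 - δ) = X * Real.exp (-(δ * Real.log X)) := by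
    rw [sub_eq_add_neg, Real.rpow_add hX0, Real.rpow_one, Real.rpow_def_of_pos hX0]
    congr 2; ring
  have t1 : 48 * (X ^ (1 - δ) * M) ≤ X * Real.exp (-(3 * u)) := by
    rw [hXδ]
    calc 48 * (X * Real.exp (-(δ * Real.log X)) * M)
        = X * ((48 * M) * Real.exp (-(δ * Real.log X))) := by ring
      _ ≤ X * (Real.exp u * Real.exp (-(4 * u))) := by
          apply mul_le_mul_of_nonneg_left _ hX0.le
          apply mul_le_mul hM48 _ (Real.exp_pos _).le (Real.exp_pos _).le
          apply Real.exp_le_exp.mpr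
          linarith
      _ = _ := by rw [← Real.exp_add]; congr 2; ring
  have hTT : 1 / T ^ 2 = Real.exp (-(8 * u)) := by
    rw [hT, ← Real.exp_nat_mul, Real.exp_neg, one_div]
    congr 2
    ring
  have t2 : 48 * (X * M / T ^ 2) ≤ X * Real.exp (-(3 * u)) := by
    calc 48 * (X * M / T ^ 2) = X * ((48 * M) * (1 / T ^ 2)) := by ring
      _ = X * ((48 * M) * Real.exp (-(8 * u))) := by rw [hTT]
      _ ≤ X * (Real.exp u * Real.exp (-(4 * u))) := by
          apply mul_le_mul_of_nonneg_left _ hX0.le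
          apply mul_le_mul hM48 _ (Real.exp_pos _).le (Real.exp_pos _).le
          apply Real.exp_le_exp.mpr
          linarith
      _ = _ := by rw [← Real.exp_add]; congr 2; ring
  have hT1 : 1 / T = Real.exp (-(4 * u)) := by
    rw [hT, Real.exp_neg, one_div]
  have t3 : 48 * (X * (C * (4 * u ^ 40)) / T) ≤ X * Real.exp (-(3 * u)) := by
    calc 48 * (X * (C * (4 * u ^ 40)) / T) = X * ((192 * C * u ^ 40) * (1 / T)) := by
          ring
      _ = X * ((192 * C * u ^ 40) * Real.exp (-(4 * u))) := by rw [hT1]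
      _ ≤ X * (Real.exp u * Real.exp (-(4 * u))) := by
          apply mul_le_mul_of_nonneg_left _ hX0.le
          exact mul_le_mul_of_nonneg_right hC48 (Real.exp_pos _).le
      _ = _ := by rw [← Real.exp_add]; congr 2; ring
  linarith

open LSBV in
/-- the discrepancy for moduli up to `exp u` without the exceptional prime -/
theorem EPhi_small (Z : ℕ) : ∃ u0 : ℝ, 2 ≤ u0 ∧ ∀ u : ℝ, u0 ≤ u → ∃ ps : ℕ, GoodP Z ps ∧
    ∀ m : ℕ, Squarefree m → m.Coprime ps → Real.log m ≤ u → ∀ b : ℕ, b.Coprime m →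
      ∀ X : ℝ, 0 < X → u ^ 20 ≤ Real.log X → Real.log X ≤ 2 * u ^ 20 →
        |EPhi X m b| ≤ 2 * (X * Real.exp (-u)) := by
  obtain ⟨u1, hu12, h1⟩ := psi_small (primorial Z)
  obtain ⟨a, ha⟩ := exp_dominates 20 21
  refine ⟨max u1 a, hu12.trans (le_max_left _ _), fun u hu => ?_⟩
  have hu1 : u1 ≤ u := (le_max_left _ _).trans hu
  have hua := ha u ((le_max_right _ _).trans hu)
  have hu2 : 2 ≤ u := hu12.trans hu1
  obtain ⟨fs, hfs, hpsi⟩ := h1 u hu1
  obtain ⟨ps, hps, hps2⟩ := exists_ps Z fs hfs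
  refine ⟨ps, hps, fun m hsq hco hlm b hb X hX0 hX1 hX2 => ?_⟩
  have hm1 : 1 ≤ m := Nat.one_le_iff_ne_zero.mpr hsq.ne_zero
  have hmr : (1 : ℝ) ≤ m := by exact_mod_cast hm1
  have hu20 : (1 : ℝ) ≤ u ^ 20 := one_le_pow₀ (by linarith)
  have hX1' : 1 ≤ X := by
    by_contra h
    have := Real.log_nonpos hX0.le (not_le.mp h).le
    linarith
  have hmexp : (m : ℝ) ≤ Real.exp u := by
    rw [← Real.log_le_iff_le_exp (by linarith)]
    exact hlm
  refine (EPhi_le X hX1' m b hm1 hb).trans ?_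
  have hφ : (1 : ℝ) ≤ m.totient := by exact_mod_cast Nat.totient_pos.mpr (by omega)
  have h2 : ∀ f ∈ m.divisors.filter (fun f => f ≠ 1), TT X f ≤ m * (X * Real.exp (-(3 * u))) := by
    intro f hf
    rw [Finset.mem_filter, Nat.mem_divisors] at hf
    obtain ⟨⟨hfm, hm0⟩, hf1⟩ := hf
    have hfp : 0 < f := Nat.pos_of_dvd_of_pos hfm (by omega)
    have hfle : f ≤ m := Nat.le_of_dvd (by omega) hfm
    have hfr : (f : ℝ) ≤ m := by exact_mod_cast hfle
    have hlf : Real.log f ≤ u :=
      (Real.log_le_log (by exact_mod_cast hfp) hfr).trans hlm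
    have h3 := TT_le X f hfp (X * Real.exp (-(3 * u))) (by positivity)
      (fun χ hχ => hpsi f (by omega) hlf
        (hps2 f (by omega) (hsq.squarefree_of_dvd hfm) (Nat.Coprime.coprime_dvd_left hfm hco)) χ hχ X hX0 hX1 hX2)
    refine h3.trans ?_
    exact mul_le_mul_of_nonneg_right hfr (by positivity)
  have h4 : ∑ f ∈ m.divisors.filter (fun f => f ≠ 1), TT X f ≤ m * (m * (X * Real.exp (-(3 * u)))) := by
    refine (Finset.sum_le_card_nsmul _ _ _ h2).trans ?_
    rw [nsmul_eq_mul]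
    apply mul_le_mul_of_nonneg_right _ (by positivity)
    have h5 : (m.divisors.filter (fun f => f ≠ 1)).card ≤ m :=
      (Finset.card_filter_le _ _).trans (Nat.card_divisors_le_self m)
    exact_mod_cast h5
  have h6 : (1 / (Nat.totient m : ℝ)) * (∑ f ∈ m.divisors.filter (fun f => f ≠ 1), TT X f) ≤
      X * Real.exp (-u) := by
    have h7 : 0 ≤ ∑ f ∈ m.divisors.filter (fun f => f ≠ 1), TT X f :=
      Finset.sum_nonneg fun f _ => TT_nonneg X f
    calc (1 / (Nat.totient m : ℝ)) * (∑ f ∈ m.divisors.filter (fun f => f ≠ 1), TT X f) ≤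
        1 * (∑ f ∈ m.divisors.filter (fun f => f ≠ 1), TT X f) := by
          apply mul_le_mul_of_nonneg_right _ h7
          rw [div_le_one (by linarith)]
          exact hφ
      _ ≤ m * (m * (X * Real.exp (-(3 * u)))) := by rw [one_mul]; exact h4
      _ ≤ Real.exp u * (Real.exp u * (X * Real.exp (-(3 * u)))) := by
          apply mul_le_mul hmexp _ (by positivity) (Real.exp_pos _).le
          exact mul_le_mul_of_nonneg_right hmexp (by positivity)
      _ = X * (Real.exp u * Real.exp u * Real.exp (-(3 * u))) := by ring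
      _ = _ := by rw [← Real.exp_add, ← Real.exp_add]; congr 2; ring
  have h8 : (m.primeFactors.card : ℝ) ≤ 2 * u := by
    have e2 : 2 ^ m.primeFactors.card ≤ m := by
      calc 2 ^ m.primeFactors.card = ∏ _p ∈ m.primeFactors, 2 := by rw [Finset.prod_const]
        _ ≤ ∏ p ∈ m.primeFactors, p :=
          Finset.prod_le_prod' fun p hp => (Nat.prime_of_mem_primeFactors hp).two_le
        _ ≤ m := Nat.le_of_dvd (by omega) (Nat.prod_primeFactors_dvd m)
    have e3 : (2 : ℝ) ^ m.primeFactors.card ≤ m := by exact_mod_cast e2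
    have e4 := Real.log_le_log (by positivity) e3
    rw [Real.log_pow] at e4
    have e5 : (1 : ℝ) / 2 ≤ Real.log 2 := by
      have := Real.log_two_gt_d9
      linarith
    have e6 : (m.primeFactors.card : ℝ) * (1 / 2) ≤ m.primeFactors.card * Real.log 2 :=
      mul_le_mul_of_nonneg_left e5 (Nat.cast_nonneg _)
    linarith
  have h9 : Real.log (3 * X) ≤ 2 + 2 * u ^ 20 := by
    rw [Real.log_mul (by norm_num) hX0.ne']
    have e1 : Real.log 3 ≤ 2 := by
      rw [Real.log_le_iff_le_exp (by norm_num)]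
      have := Real.add_one_le_exp (2 : ℝ)
      linarith
    linarith
  have h10 : 0 ≤ Real.log (3 * X) := Real.log_nonneg (by linarith)
  have h11 : 2 * ((m.primeFactors.card : ℝ) * Real.log (3 * X)) ≤ Real.exp u := by
    have e1 : (m.primeFactors.card : ℝ) * Real.log (3 * X) ≤ (2 * u) * (2 + 2 * u ^ 20) :=
      mul_le_mul h8 h9 h10 (by linarith)
    have e2 : 2 * ((2 * u) * (2 + 2 * u ^ 20)) ≤ 20 * u ^ 21 := by
      have e3 : u * 1 ≤ u * u ^ 20 := mul_le_mul_of_nonneg_left hu20 (by linarith)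
      have e4 : u ^ 21 = u * u ^ 20 := by ring
      rw [e4]
      nlinarith
    linarith
  have h12 : Real.exp u ≤ X * Real.exp (-u) := by
    have e1 : Real.exp (2 * u) ≤ X := by
      rw [← Real.le_log_iff_exp_le hX0]
      have e2 : u * 2 ≤ u * u ^ 19 := by
        apply mul_le_mul_of_nonneg_left _ (by linarith)
        calc (2 : ℝ) ≤ u := hu2
          _ ≤ u ^ 19 := le_self_pow₀ (by linarith) (by norm_num)
      have e3 : u * u ^ 19 = u ^ 20 := by ring
      linarith
    calc Real.exp u = Real.exp (2 * u) * Real.exp (-u) := by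
          rw [← Real.exp_add]; congr 1; ring
      _ ≤ _ := mul_le_mul_of_nonneg_right e1 (Real.exp_pos _).le
  linarith

end Pool.Agent.H537.MM
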