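import Mathlib
import Pool.Graph.R_seed8.H510R2.Maier.MA2
import Pool.Agent.H537.MM.Chi

/-! The columns of the matrix: the primes `a n + 1` for a fixed `n` and `a ≡ b (mod W)`. -/

set_option autoImplicit false
set_option maxHeartbeats 4000000

open Finset Filter Topology

namespace Pool.Agent.H537.MM

open Pool.Agent.H378R2 Pool.Agent.H510R2.Maier

/-- the sum of the `log (a n + 1)` over the primes `a n + 1`, `a ≡ b (mod W)`, with the tent weight -/
noncomputable def colM (T : ℝ) (W b n : ℕ) : ℝ := ∑ a ∈ Icc 1 ⌊3 * T⌋₊, nu T W b a * th (a * n + 1)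

theorem modEq_iff_col {W n a b : ℕ} (hn : 1 ≤ n) : a * n + 1 ≡ b * n + 1 [MOD W * n] ↔ a ≡ b [MOD W] := by
  constructor
  · intro h
    have h1 : a * n ≡ b * n [MOD W * n] := Nat.ModEq.add_right_cancel' 1 h
    exact Nat.ModEq.mul_right_cancel' (by omega) h1
  · intro h
    exact Nat.ModEq.add_right 1 (Nat.ModEq.mul_right' n h)

/-- the primes in the class `b n + 1` modulo `W n` -/
theorem colM_eq {T : ℝ} (hT : 4 ≤ T) {W b n : ℕ} (hW : 1 ≤ W) (hn : 1 ≤ n) :
    |colM T W b n - ∑ l ∈ (Icc 1 ⌊3 * (n * T)⌋₊).filter (fun l => l ≡ b * n + 1 [MOD W * n]),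
      Phi (l / (n * T)) * ArithmeticFunction.vonMangoldt l| ≤
      8 * Real.sqrt (n * T) * Real.log (4 * (n * T)) := by
  classical
  have hn1 : (1 : ℝ) ≤ n := by exact_mod_cast hn
  have hn0 : (0 : ℝ) < n := by linarith
  have hT0 : 0 < T := by linarith
  set X : ℝ := n * T with hX
  have hTX : T ≤ X := by
    rw [hX]
    nlinarith
  have hX4 : 4 ≤ X := by linarith
  have hX0 : 0 < X := by linarith
  set N := ⌊3 * T⌋₊ with hN
  have hNle : (N : ℝ) ≤ 3 * T := Nat.floor_le (by linarith)
  -- the sum over the class as a sum over `a`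
  have e1 : ∑ l ∈ (Icc 1 ⌊3 * X⌋₊).filter (fun l => l ≡ b * n + 1 [MOD W * n]),
      Phi (l / X) * ArithmeticFunction.vonMangoldt l =
      ∑ a ∈ (Icc 1 N).filter (fun a => a ≡ b [MOD W]),
        Phi (((a * n + 1 : ℕ) : ℝ) / X) * ArithmeticFunction.vonMangoldt (a * n + 1) := by
    symm
    rw [← sum_image (s := (Icc 1 N).filter (fun a => a ≡ b [MOD W])) (g := fun a : ℕ => a * n + 1)
      (f := fun l : ℕ => Phi (l / X) * ArithmeticFunction.vonMangoldt l)]
    · symm
      -- both are equal to the sum over the union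
      have hz : ∀ l : ℕ, ⌊3 * X⌋₊ < l → Phi (l / X) = 0 := by
        intro l hl
        apply Phi_eq_zero_of_ge
        have h1 : 3 * X < l := Nat.lt_of_floor_lt hl
        have h2 := exp_one_lt_three'
        rw [le_div_iff₀ hX0]
        nlinarith
      set I := (Icc 1 ⌊3 * X⌋₊).filter (fun l => l ≡ b * n + 1 [MOD W * n]) with hI
      set J := ((Icc 1 N).filter (fun a => a ≡ b [MOD W])).image (fun a : ℕ => a * n + 1) with hJ
      have hIJ : ∀ l ∈ I, l ∉ J → Phi (l / X) * ArithmeticFunction.vonMangoldt l = 0 := by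
        intro l hl hlJ
        rw [hI, mem_filter, mem_Icc] at hl
        obtain ⟨⟨hl1, hl2⟩, hl3⟩ := hl
        have h1 : l ≡ 1 [MOD n] := by
          have h2 : l ≡ b * n + 1 [MOD n] := hl3.of_mul_left W
          refine h2.trans ?_
          unfold Nat.ModEq
          rw [mul_comm, Nat.mul_add_mod]
        obtain ⟨a, ha⟩ : ∃ a, l = a * n + 1 := by
          have h3 : n ∣ l - 1 := (Nat.modEq_iff_dvd' hl1).mp h1.symm
          obtain ⟨a, ha⟩ := h3
          refine ⟨a, ?_⟩
          rw [mul_comm] at ha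
          omega
        rcases Nat.eq_zero_or_pos a with h0 | h0
        · rw [ha, h0]
          simp
        · exfalso
          apply hlJ
          rw [hJ, mem_image]
          refine ⟨a, ?_, ha.symm⟩
          rw [mem_filter, mem_Icc]
          refine ⟨⟨h0, ?_⟩, ?_⟩
          · apply Nat.le_floor
            have h4 : (l : ℝ) ≤ 3 * X := by
              have := Nat.floor_le (show 0 ≤ 3 * X by linarith)
              have h5 : (l : ℝ) ≤ ⌊3 * X⌋₊ := by exact_mod_cast hl2
              linarith
            rw [ha] at h4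
            push_cast at h4
            have h6 : (n : ℝ) * a ≤ n * (3 * T) := by
              rw [hX] at h4
              nlinarith
            exact le_of_mul_le_mul_left h6 hn0
          · rw [ha] at hl3
            exact (modEq_iff_col hn).mp hl3
      have hJI : ∀ l ∈ J, l ∉ I → Phi (l / X) * ArithmeticFunction.vonMangoldt l = 0 := by
        intro l hl hlI
        rw [hJ, mem_image] at hl
        obtain ⟨a, ha, hal⟩ := hl
        rw [mem_filter, mem_Icc] at ha
        have h1 : ⌊3 * X⌋₊ < l := by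
          by_contra hc
          apply hlI
          rw [hI, mem_filter, mem_Icc]
          refine ⟨⟨by omega, by omega⟩, ?_⟩
          rw [← hal]
          exact (modEq_iff_col hn).mpr ha.2
        rw [hz l h1, zero_mul]
      have h2 : ∑ l ∈ I, Phi (l / X) * ArithmeticFunction.vonMangoldt l =
          ∑ l ∈ I ∪ J, Phi (l / X) * ArithmeticFunction.vonMangoldt l := by
        apply sum_subset subset_union_left
        intro l hl hlI
        rcases mem_union.mp hl with h | h
        · exact absurd h hlI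
        · exact hJI l h hlI
      have h3 : ∑ l ∈ J, Phi (l / X) * ArithmeticFunction.vonMangoldt l =
          ∑ l ∈ I ∪ J, Phi (l / X) * ArithmeticFunction.vonMangoldt l := by
        apply sum_subset subset_union_right
        intro l hl hlJ
        rcases mem_union.mp hl with h | h
        · exact hIJ l h hlJ
        · exact absurd h hlJ
      rw [h2, h3]
    · intro a _ a' _ h
      have h1 : a * n = a' * n := by
        simpa using h
      exact Nat.eq_of_mul_eq_mul_right (by omega) h1
  rw [e1]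
  unfold colM nu
  rw [sum_filter, ← sum_sub_distrib]
  refine (abs_sum_le_sum_abs _ _).trans ?_
  have hlog : 0 ≤ Real.log (4 * X) := Real.log_nonneg (by linarith)
  have key : ∀ a ∈ Icc 1 N, |(if a ≡ b [MOD W] then Phi (a / T) else 0) * th (a * n + 1) -
      (if a ≡ b [MOD W] then Phi (((a * n + 1 : ℕ) : ℝ) / X) * ArithmeticFunction.vonMangoldt (a * n + 1) else 0)| ≤
      1 / X * Real.log (4 * X) +
        (if ¬ (a * n + 1).Prime then ArithmeticFunction.vonMangoldt (a * n + 1) else 0) := by
    intro a ha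
    rw [mem_Icc] at ha
    have haN : (a : ℝ) ≤ 3 * T := le_trans (by exact_mod_cast ha.2) hNle
    have hnn : 0 ≤ (if ¬ (a * n + 1).Prime then ArithmeticFunction.vonMangoldt (a * n + 1) else 0) := by
      split_ifs <;> first | exact le_rfl | exact ArithmeticFunction.vonMangoldt_nonneg
    by_cases hcl : a ≡ b [MOD W]
    · rw [if_pos hcl, if_pos hcl]
      by_cases hp : (a * n + 1).Prime
      · have e3 : th (a * n + 1) = Real.log ((a * n + 1 : ℕ) : ℝ) := by unfold th; rw [if_pos hp]
        rw [e3, ArithmeticFunction.vonMangoldt_apply_prime hp, ← sub_mul, abs_mul, if_neg (not_not.2 hp), add_zero]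
        have h5 : |Phi ((a : ℝ) / T) - Phi (((a * n + 1 : ℕ) : ℝ) / X)| ≤ 1 / X := by
          refine (Phi_lip (by positivity) (by positivity)).trans ?_
          have e4 : (a : ℝ) / T - ((a * n + 1 : ℕ) : ℝ) / X = -(1 / X) := by
            rw [hX]
            push_cast
            field_simp
            ring
          rw [e4, abs_neg, abs_of_pos (by positivity)]
        have h6 : |Real.log ((a * n + 1 : ℕ) : ℝ)| ≤ Real.log (4 * X) := by
          rw [abs_of_nonneg (Real.log_natCast_nonneg _)]
          apply Real.log_le_log (by exact_mod_cast hp.pos)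
          push_cast
          have : (a : ℝ) * n ≤ 3 * T * n := mul_le_mul_of_nonneg_right haN hn0.le
          rw [hX]
          rw [hX] at hX4
          linarith
        exact mul_le_mul h5 h6 (abs_nonneg _) (by positivity)
      · have e3 : th (a * n + 1) = 0 := by unfold th; rw [if_neg hp]
        rw [e3, mul_zero, zero_sub, abs_neg, if_pos hp, abs_mul,
          abs_of_nonneg ArithmeticFunction.vonMangoldt_nonneg]
        have h5 := abs_Phi_le (((a * n + 1 : ℕ) : ℝ) / X)
        have h6 : 0 ≤ ArithmeticFunction.vonMangoldt (a * n + 1) := ArithmeticFunction.vonMangoldt_nonneg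
        have h7 : 0 ≤ 1 / X * Real.log (4 * X) := by positivity
        nlinarith
    · rw [if_neg hcl, if_neg hcl, zero_mul, sub_zero, abs_zero]
      have h7 : 0 ≤ 1 / X * Real.log (4 * X) := by positivity
      linarith
  refine (sum_le_sum key).trans ?_
  rw [sum_add_distrib]
  have hsqX : 1 ≤ Real.sqrt X := Real.one_le_sqrt.mpr (by linarith)
  have p1 : ∑ a ∈ Icc 1 N, 1 / X * Real.log (4 * X) ≤ 4 * Real.log (4 * X) := by
    rw [sum_const, Nat.card_Icc, Nat.add_sub_cancel, nsmul_eq_mul]
    calc (N : ℝ) * (1 / X * Real.log (4 * X)) ≤ (3 * X) * (1 / X * Real.log (4 * X)) := by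
          apply mul_le_mul_of_nonneg_right (by linarith) (by positivity)
      _ = 3 * Real.log (4 * X) := by field_simp
      _ ≤ _ := by linarith
  have p2 : ∑ a ∈ Icc 1 N, (if ¬ (a * n + 1).Prime then ArithmeticFunction.vonMangoldt (a * n + 1) else 0) ≤
      4 * Real.sqrt X * Real.log (4 * X) := by
    rw [← sum_filter]
    have h8 := sum_nonprime_le (4 * X) (by linarith)
    have h9 : Real.sqrt (4 * X) = 2 * Real.sqrt X := by
      rw [Real.sqrt_mul (by norm_num), show (4 : ℝ) = 2 ^ 2 by norm_num, Real.sqrt_sq (by norm_num)]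
    rw [h9] at h8
    refine le_trans ?_ (h8.trans (le_of_eq (by ring)))
    rw [← sum_image (s := (Icc 1 N).filter (fun a => ¬ (a * n + 1).Prime)) (g := fun a : ℕ => a * n + 1)
      (f := fun l : ℕ => ArithmeticFunction.vonMangoldt l)]
    · apply sum_le_sum_of_subset_of_nonneg
      · intro l hl
        rw [mem_image] at hl
        obtain ⟨a, ha, rfl⟩ := hl
        rw [mem_filter, mem_Icc] at ha
        rw [mem_filter, mem_Icc]
        refine ⟨⟨by omega, Nat.le_floor ?_⟩, ha.2⟩
        have haN : (a : ℝ) ≤ 3 * T := le_trans (by exact_mod_cast ha.1.2) hNle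
        have : (a : ℝ) * n ≤ 3 * T * n := mul_le_mul_of_nonneg_right haN hn0.le
        push_cast
        rw [hX]
        rw [hX] at hX4
        linarith
      · intro l _ _
        exact ArithmeticFunction.vonMangoldt_nonneg
    · intro a _ a' _ h
      have h1 : a * n = a' * n := by
        simpa using h
      exact Nat.eq_of_mul_eq_mul_right (by omega) h1
  have p3 : 4 * Real.log (4 * X) ≤ 4 * Real.sqrt X * Real.log (4 * X) := by
    apply mul_le_mul_of_nonneg_right _ hlog
    linarith
  linarith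

theorem mphi_scale {T : ℝ} (hT : 4 ≤ T) {n : ℕ} (hn : 1 ≤ n) : |MPhi T - MPhi (n * T) * (1 / n)| ≤ 5 := by
  have hn1 : (1 : ℝ) ≤ n := by exact_mod_cast hn
  have hn0 : (0 : ℝ) < n := by linarith
  have hT0 : 0 < T := by linarith
  have hTX : T ≤ n * T := by nlinarith
  have h1 := phi_sum_class (n * T) (by linarith) n 0 hn (by nlinarith)
  have h2 : ∑ m ∈ (Icc 1 ⌊3 * (n * T)⌋₊).filter (fun m => m ≡ 0 [MOD n]), Phi (m / (n * T)) = MPhi T := by
    unfold MPhi
    symm
    apply sum_bij (fun a _ => a * n)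
    · intro a ha
      rw [mem_Icc] at ha
      rw [mem_filter, mem_Icc]
      refine ⟨⟨Nat.mul_pos (by omega) (by omega), ?_⟩, ?_⟩
      · apply Nat.le_floor
        push_cast
        have := Nat.floor_le (show 0 ≤ 3 * T by linarith)
        have h3 : (a : ℝ) ≤ ⌊3 * T⌋₊ := by exact_mod_cast ha.2
        nlinarith
      · exact (Nat.modEq_zero_iff_dvd).mpr (dvd_mul_left n a)
    · intro a _ a' _ h
      exact Nat.eq_of_mul_eq_mul_right (by omega) h
    · intro m hm
      rw [mem_filter, mem_Icc] at hm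
      obtain ⟨⟨h3, h4⟩, h5⟩ := hm
      obtain ⟨a, ha⟩ := (Nat.modEq_zero_iff_dvd).mp h5
      refine ⟨a, ?_, by rw [ha, mul_comm]⟩
      rw [mem_Icc]
      constructor
      · rcases Nat.eq_zero_or_pos a with h | h
        · rw [ha, h] at h3
          omega
        · exact h
      · apply Nat.le_floor
        have := Nat.floor_le (show 0 ≤ 3 * (n * T) by nlinarith)
        have h6 : (m : ℝ) ≤ ⌊3 * (n * T)⌋₊ := by exact_mod_cast h4
        rw [ha] at h6
        push_cast at h6
        have h7 : (n : ℝ) * a ≤ n * (3 * T) := by nlinarith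
        exact le_of_mul_le_mul_left h7 hn0
    · intro a _
      congr 1
      push_cast
      field_simp
  rw [h2] at h1
  exact h1

theorem colM_zero {T : ℝ} (hT : 4 ≤ T) {W b n : ℕ} (hW : ∀ p : ℕ, p.Prime → p ∣ W → (p : ℝ) ≤ T)
    (hn : 1 ≤ n) (hco : ¬ (b * n + 1).Coprime W) : colM T W b n = 0 := by
  unfold colM
  apply sum_eq_zero
  intro a ha
  unfold nu
  split_ifs with hmod
  · rcases le_or_gt (a : ℝ) T with haT | haT
    · rw [Phi_eq_zero_of_le (by positivity) (by rw [div_le_one (by linarith)]; exact haT), zero_mul]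
    · unfold th
      split_ifs with hp
      · exfalso
        obtain ⟨p, hpp, hp1, hp2⟩ := Nat.Prime.not_coprime_iff_dvd.1 hco
        have h1 : a * n + 1 ≡ b * n + 1 [MOD p] :=
          Nat.ModEq.add_right 1 (Nat.ModEq.mul_right n (hmod.of_dvd hp2))
        have h2 : p ∣ a * n + 1 := (Nat.ModEq.dvd_iff h1 dvd_rfl).2 hp1
        have heq : p = a * n + 1 := (Nat.prime_dvd_prime_iff_eq hpp hp).1 h2
        have h3 := hW p hpp hp2
        rw [heq] at h3
        push_cast at h3
        have hn1 : (1 : ℝ) ≤ n := by exact_mod_cast hn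
        nlinarith
      · rw [mul_zero]
  · rw [zero_mul]

/-- the columns -/
theorem colM_est (Z : ℕ) (ε : ℝ) (hε : 0 < ε) : ∃ u0 : ℝ, 2 ≤ u0 ∧ ∀ u : ℝ, u0 ≤ u → ∃ ps : ℕ, GoodP Z ps ∧
    ∀ T : ℝ, 0 < T → u ^ 20 ≤ Real.log T → Real.log T ≤ 3 / 2 * u ^ 20 →
    ∀ W : ℕ, Squarefree W → W.Coprime ps → Real.log W ≤ u / 4 →
      ∀ n : ℕ, n.Prime → ¬ n ∣ W → n ≠ ps → Real.log n ≤ u / 4 → 8 / ε ≤ n →
      ∀ b : ℕ, (b * n + 1).Coprime W →
        |colM T W b n - MPhi T / W.totient| ≤ ε * (T / W.totient) := by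
  obtain ⟨u1, hu12, h1⟩ := EPhi_small Z
  obtain ⟨X1, hX1⟩ := eventually_atTop.1 (lphi_mphi (ε / 16) (by positivity))
  obtain ⟨a, ha⟩ := M1.exp_dominates (800 / ε + 64) 20
  refine ⟨max (max u1 a) (max (max X1 40) (160 / ε)), hu12.trans ((le_max_left _ _).trans (le_max_left _ _)), fun u hu => ?_⟩
  have hu1 : u1 ≤ u := ((le_max_left _ _).trans (le_max_left _ _)).trans hu
  have hua := ha u (((le_max_right _ _).trans (le_max_left _ _)).trans hu)
  have huX : X1 ≤ u := (((le_max_left _ _).trans (le_max_left _ _)).trans (le_max_right _ _)).trans hu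
  have hu40 : 40 ≤ u := (((le_max_right _ _).trans (le_max_left _ _)).trans (le_max_right _ _)).trans hu
  have huε : 160 / ε ≤ u := ((le_max_right _ _).trans (le_max_right _ _)).trans hu
  obtain ⟨ps, hps, hE⟩ := h1 u hu1
  refine ⟨ps, hps, ?_⟩
  intro T hT0 hT1 hT2 W hWsq hWps hWl n hn hnW hnps hnl hnε b hb
  have hu0 : 0 < u := by linarith
  have hu20 : (1 : ℝ) ≤ u ^ 20 := one_le_pow₀ (by linarith)
  have hu20' : u ≤ u ^ 20 := le_self_pow₀ (by linarith) (by norm_num)
  have hn1 : 1 ≤ n := hn.one_lt.le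
  have hn2r : (2 : ℝ) ≤ n := by exact_mod_cast hn.two_le
  have hn0 : (0 : ℝ) < n := by linarith
  have hW0 : 0 < W := Nat.pos_of_ne_zero hWsq.ne_zero
  have hW0r : (0 : ℝ) < W := by exact_mod_cast hW0
  have hφ1 : (1 : ℝ) ≤ W.totient := by exact_mod_cast Nat.totient_pos.mpr hW0
  have hφ0 : (0 : ℝ) < W.totient := by linarith
  have hTu : u ≤ T := by
    have h2 : Real.exp (u ^ 20) ≤ T := by rwa [← Real.le_log_iff_exp_le hT0]
    have h3 := Real.add_one_le_exp (u ^ 20)
    linarith
  have hcop : W.Coprime n := ((Nat.Prime.coprime_iff_not_dvd hn).mpr hnW).symm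
  set X : ℝ := n * T with hX
  have hX0 : 0 < X := by positivity
  have hTX : T ≤ X := by
    rw [hX]
    nlinarith
  have hlogn : 0 ≤ Real.log n := Real.log_natCast_nonneg n
  have hlX : Real.log X = Real.log n + Real.log T := by
    rw [hX, Real.log_mul hn0.ne' hT0.ne']
  have hm : Squarefree (W * n) := (Nat.squarefree_mul hcop).mpr ⟨hWsq, hn.squarefree⟩
  have hmps : (W * n).Coprime ps := by
    apply Nat.Coprime.mul_left hWps
    rcases hps with h | h
    · rw [h]
      exact Nat.coprime_one_right n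
    · exact (Nat.coprime_primes hn h.1).mpr hnps
  have hml : Real.log ((W * n : ℕ) : ℝ) ≤ u := by
    push_cast
    rw [Real.log_mul hW0r.ne' hn0.ne']
    linarith
  have hbm : (b * n + 1).Coprime (W * n) := by
    apply Nat.Coprime.mul_right hb
    exact Nat.Coprime.symm (by
      rw [Nat.coprime_comm]
      have : Nat.gcd (b * n + 1) n = Nat.gcd 1 n := by
        rw [add_comm, Nat.gcd_add_mul_right_left]
      unfold Nat.Coprime
      rw [this]
      simp)
  have hEX := hE (W * n) hm hmps hml (b * n + 1) hbm X hX0 (by linarith) (by linarith)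
  have hcm := colM_eq (T := T) (by linarith) (W := W) (b := b) hW0 hn1
  rw [← hX] at hcm
  rw [EPhi_eq] at hEX
  have hLM := hX1 X (by linarith)
  have hsc := mphi_scale (T := T) (by linarith) hn1
  rw [← hX] at hsc
  have htot : ((W * n).totient : ℝ) = W.totient * (n - 1) := by
    rw [Nat.totient_mul hcop, Nat.totient_prime hn]
    push_cast [Nat.cast_sub hn1]
    ring
  rw [htot] at hEX
  have hn10 : (0 : ℝ) < (n : ℝ) - 1 := by linarith
  have hM1 := MPhi_le T (by linarith)
  have hM0 : 0 ≤ MPhi T := le_trans (by positivity) (MPhi_ge T (by linarith))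
  -- the main term
  set φ : ℝ := (W.totient : ℝ) with hφ
  have hmain : |LPhi X * (1 / (φ * (n - 1))) - MPhi T / φ| ≤ (ε / 2 + ε / 16 * 2 + 10 / T) * (T / φ) := by
    have e1 : LPhi X * (1 / (φ * (n - 1))) - MPhi T / φ =
        ((LPhi X - MPhi X) / (n - 1) + (MPhi X * (1 / n) - MPhi T) * (n / (n - 1)) + MPhi T / (n - 1)) / φ := by
      field_simp
      ring
    rw [e1, abs_div, abs_of_pos hφ0]
    have e2 : (ε / 2 + ε / 16 * 2 + 10 / T) * (T / φ) = ((ε / 2 + ε / 16 * 2) * T + 10) / φ := by
      field_simp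
    rw [e2]
    apply div_le_div_of_nonneg_right _ hφ0.le
    have f1 : |(LPhi X - MPhi X) / (n - 1)| ≤ ε / 16 * 2 * T := by
      rw [abs_div, abs_of_pos hn10, div_le_iff₀ hn10]
      refine hLM.trans ?_
      rw [hX]
      have : (n : ℝ) ≤ 2 * (n - 1) := by linarith
      calc ε / 16 * (n * T) ≤ ε / 16 * ((2 * (n - 1)) * T) := by gcongr
        _ = _ := by ring
    have f2 : |(MPhi X * (1 / n) - MPhi T) * (n / (n - 1))| ≤ 10 := by
      rw [abs_mul, abs_sub_comm, abs_of_pos (div_pos hn0 hn10)]
      have h4 : (n : ℝ) / (n - 1) ≤ 2 := by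
        rw [div_le_iff₀ hn10]
        linarith
      calc |MPhi T - MPhi X * (1 / n)| * (n / (n - 1)) ≤ 5 * 2 :=
            mul_le_mul hsc h4 (by positivity) (by norm_num)
        _ = 10 := by norm_num
    have f3 : |MPhi T / (n - 1)| ≤ ε / 2 * T := by
      rw [abs_div, abs_of_pos hn10, abs_of_nonneg hM0, div_le_iff₀ hn10]
      refine hM1.trans ?_
      have h5 : 8 ≤ n * ε := by rwa [div_le_iff₀ hε] at hnε
      have h6 : (n : ℝ) ≤ 2 * (n - 1) := by linarith
      have h7 : n * ε ≤ 2 * (n - 1) * ε := mul_le_mul_of_nonneg_right h6 hε.le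
      have h8 : 4 * T ≤ (ε * (n - 1)) * T := mul_le_mul_of_nonneg_right (by linarith) hT0.le
      linarith
    have f4 := abs_add_le ((LPhi X - MPhi X) / (n - 1) + (MPhi X * (1 / n) - MPhi T) * (n / (n - 1))) (MPhi T / (n - 1))
    have f5 := abs_add_le ((LPhi X - MPhi X) / (n - 1)) ((MPhi X * (1 / n) - MPhi T) * (n / (n - 1)))
    linarith
  have hT10 : 10 / T ≤ ε / 16 := by
    rw [div_le_iff₀ hT0]
    have h5 : 160 ≤ u * ε := by rwa [div_le_iff₀ hε] at huε
    have h6 : u * ε ≤ T * ε := mul_le_mul_of_nonneg_right hTu hε.le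
    linarith
  have hφW : φ ≤ Real.exp (u / 4) := by
    have h5 : φ ≤ W := by
      rw [hφ]
      exact_mod_cast Nat.totient_le W
    refine h5.trans ?_
    rw [← Real.log_le_iff_le_exp hW0r]
    exact hWl
  have hnexp : (n : ℝ) ≤ Real.exp (u / 4) := by
    rw [← Real.log_le_iff_le_exp hn0]
    exact hnl
  have hXle : X ≤ Real.exp (u / 4) * T := mul_le_mul_of_nonneg_right hnexp hT0.le
  -- the two error terms, times `φ`
  have g1 : 2 * (X * Real.exp (-u)) * φ ≤ ε / 8 * T := by
    have h5 : 16 / ε ≤ Real.exp (u / 2) := by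
      have h6 := Real.add_one_le_exp (u / 2)
      have h7 : 16 / ε ≤ 160 / ε / 2 := by
        rw [div_div, div_le_div_iff₀ hε (by positivity)]
        nlinarith
      linarith
    have h6 : 16 ≤ Real.exp (u / 2) * ε := by rwa [div_le_iff₀ hε] at h5
    have h7 : 2 * (X * Real.exp (-u)) * φ ≤ 2 * ((Real.exp (u / 4) * T) * Real.exp (-u)) * Real.exp (u / 4) := by
      gcongr
    have h8 : 2 * ((Real.exp (u / 4) * T) * Real.exp (-u)) * Real.exp (u / 4) = 2 * T * Real.exp (-(u / 2)) := by
      have : Real.exp (-(u / 2)) = Real.exp (u / 4) * Real.exp (-u) * Real.exp (u / 4) := by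
        rw [← Real.exp_add, ← Real.exp_add]
        congr 1
        ring
      rw [this]
      ring
    have h9 : Real.exp (-(u / 2)) * Real.exp (u / 2) = 1 := by
      rw [← Real.exp_add]
      simp
    have h10 : 16 * Real.exp (-(u / 2)) ≤ ε := by
      calc 16 * Real.exp (-(u / 2)) ≤ (Real.exp (u / 2) * ε) * Real.exp (-(u / 2)) :=
            mul_le_mul_of_nonneg_right h6 (Real.exp_pos _).le
        _ = ε * (Real.exp (-(u / 2)) * Real.exp (u / 2)) := by ring
        _ = ε := by rw [h9, mul_one]
    have h11 : 2 * T * Real.exp (-(u / 2)) ≤ ε / 8 * T := by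
      have := mul_le_mul_of_nonneg_right h10 hT0.le
      linarith
    linarith
  have g2 : 8 * Real.sqrt X * Real.log (4 * X) * φ ≤ ε / 8 * T := by
    have h5 : Real.log (4 * X) ≤ 4 * u ^ 20 := by
      rw [Real.log_mul (by norm_num) hX0.ne']
      have e1 : Real.log 4 ≤ 2 := by
        rw [Real.log_le_iff_le_exp (by norm_num)]
        have := Real.quadratic_le_exp_of_nonneg (show (0 : ℝ) ≤ 2 by norm_num)
        linarith
      linarith
    have h5' : 0 ≤ Real.log (4 * X) := Real.log_nonneg (by linarith)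
    have h6 : Real.sqrt X ≤ Real.exp (u / 4) * Real.sqrt T := by
      rw [Real.sqrt_le_left (by positivity), mul_pow, Real.sq_sqrt hT0.le]
      refine hXle.trans ?_
      apply mul_le_mul_of_nonneg_right _ hT0.le
      rw [← Real.exp_nat_mul]
      apply Real.exp_le_exp.mpr
      push_cast
      linarith
    have h7 : Real.exp (2 * u) ≤ Real.sqrt T := by
      apply Real.le_sqrt_of_sq_le
      rw [← Real.exp_nat_mul, ← Real.le_log_iff_exp_le hT0]
      push_cast
      have h8 : 4 * u ≤ u ^ 20 := by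
        have h9 : u * 4 ≤ u * u ^ 19 := by
          apply mul_le_mul_of_nonneg_left _ hu0.le
          calc (4 : ℝ) ≤ u := by linarith
            _ ≤ u ^ 19 := le_self_pow₀ (by linarith) (by norm_num)
        have h10 : u * u ^ 19 = u ^ 20 := by ring
        linarith
      linarith
    have h8 : 256 / ε * u ^ 20 ≤ Real.exp u := by
      refine le_trans ?_ hua
      apply mul_le_mul_of_nonneg_right _ (by positivity)
      have : 256 / ε ≤ 800 / ε := by
        gcongr
        norm_num
      linarith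
    have h9 : 256 * u ^ 20 ≤ Real.exp u * ε := by
      have := mul_le_mul_of_nonneg_right h8 hε.le
      have e2 : 256 / ε * u ^ 20 * ε = 256 * u ^ 20 := by field_simp
      linarith
    have hsT : 0 ≤ Real.sqrt T := Real.sqrt_nonneg T
    calc 8 * Real.sqrt X * Real.log (4 * X) * φ ≤
        8 * (Real.exp (u / 4) * Real.sqrt T) * (4 * u ^ 20) * Real.exp (u / 4) := by
          gcongr
      _ = (256 * u ^ 20) * (1 / 8) * Real.sqrt T * (Real.exp (u / 4) * Real.exp (u / 4)) := by ring
      _ ≤ (Real.exp u * ε) * (1 / 8) * Real.sqrt T * (Real.exp (u / 4) * Real.exp (u / 4)) := by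
          gcongr
      _ = ε / 8 * Real.sqrt T * (Real.exp u * Real.exp (u / 4) * Real.exp (u / 4)) := by ring
      _ ≤ ε / 8 * Real.sqrt T * Real.sqrt T := by
          apply mul_le_mul_of_nonneg_left _ (by positivity)
          refine le_trans ?_ h7
          rw [← Real.exp_add, ← Real.exp_add]
          apply Real.exp_le_exp.mpr
          linarith
      _ = ε / 8 * T := by rw [mul_assoc, Real.mul_self_sqrt hT0.le]
  have g3 : 2 * (X * Real.exp (-u)) + 8 * Real.sqrt X * Real.log (4 * X) ≤ ε / 4 * (T / φ) := by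
    rw [← mul_div_assoc, le_div_iff₀ hφ0]
    linarith
  have hTφ : 0 ≤ T / φ := by positivity
  have g4 : (ε / 2 + ε / 16 * 2 + 10 / T) * (T / φ) ≤ (ε * 3 / 4) * (T / φ) := by
    apply mul_le_mul_of_nonneg_right _ hTφ
    linarith
  have g5 := abs_le.mp hcm
  have g6 := abs_le.mp hEX
  have g7 := abs_le.mp (hmain.trans g4)
  rw [abs_le]
  constructor
  · linarith [g5.1, g6.1, g7.1]
  · linarith [g5.2, g6.2, g7.2]

end Pool.Agent.H537.MM
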