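import Mathlib
import Pool.Agent.H537.FG.Harm

/-! The number of integers of an interval without prime factors in `A`, truncated expansion, and the
choice of a shift. -/

set_option autoImplicit false
set_option maxHeartbeats 4000000

open Finset

namespace Pool.Agent.H537.MM

open Pool.Agent.N914.MR Pool.Agent.H537.FG

/-- the truncated expansion -/
noncomputable def VK (K : ℕ) (A : Finset ℕ) : ℝ := bp rc A + (-1) ^ K * rho rc K A

theorem VK_zero (A : Finset ℕ) : VK 0 A = 1 := by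
  unfold VK
  rw [rho_zero]
  ring

theorem VK_insert (K : ℕ) {A : Finset ℕ} {q : ℕ} (hq : q ∉ A) :
    VK (K + 1) (insert q A) = VK (K + 1) A - rc q * VK K A := by
  unfold VK
  rw [bp_insert rc hq, rho_succ_insert rc K hq]
  ring

theorem VK_empty (K : ℕ) : VK K ∅ = 1 := by
  unfold VK
  rw [rho_empty]
  simp [bp]

theorem VK_abs (K : ℕ) (A : Finset ℕ) (hs : ∑ p ∈ A, rc p ≤ 1) : |VK K A| ≤ 2 := by
  unfold VK
  have h1 := bp_nonneg rc rc_le_one A
  have h2 := bp_le_one rc rc_nonneg rc_le_one A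
  have h3 := rho_nonneg rc rc_nonneg rc_le_one A K
  have h4 := rho_le rc rc_nonneg rc_le_one A K
  have h5 : (∑ p ∈ A, rc p) ^ (K + 1) ≤ 1 := pow_le_one₀ (sum_nonneg fun p _ => rc_nonneg p) hs
  have h6 : |(-1 : ℝ) ^ K * rho rc K A| = rho rc K A := by
    rw [abs_mul, abs_pow, abs_neg, abs_one, one_pow, one_mul, abs_of_nonneg h3]
  calc |bp rc A + (-1) ^ K * rho rc K A| ≤ |bp rc A| + |(-1 : ℝ) ^ K * rho rc K A| := abs_add_le _ _
    _ = bp rc A + rho rc K A := by rw [h6, abs_of_nonneg h1]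
    _ ≤ 2 := by linarith

theorem count_abs (w : ℕ) (A : Finset ℕ) : (∀ p ∈ A, p.Prime ∧ w < p) → ∑ p ∈ A, rc p ≤ 1 →
    ∀ K Y : ℕ, Y < (w + 1) ^ (K + 1) →
      |(NA A Y : ℝ) - Y * VK K A| ≤ 2 * (((A.card : ℝ) + 1) ^ K - 1) := by
  induction A using Finset.induction_on with
  | empty =>
    intro _ _ K Y _
    rw [NA_empty, VK_empty, mul_one, sub_self, abs_zero]
    simp
  | insert q A hq ih =>
    intro hA hs K Y hY
    have hqA : q.Prime ∧ w < q := hA q (mem_insert_self q A)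
    have hA' : ∀ p ∈ A, p.Prime ∧ w < p := fun p hp => hA p (mem_insert_of_mem hp)
    have hs' : ∑ p ∈ A, rc p ≤ 1 := by
      rw [sum_insert hq] at hs
      linarith [rc_nonneg q]
    have hq0 : (0 : ℝ) < q := by exact_mod_cast hqA.1.pos
    have hins := NA_insert hq (fun p hp => (hA' p hp).1) hqA.1 Y
    have hinsr : (NA (insert q A) Y : ℝ) = NA A Y - NA A (Y / q) := by
      have : ((NA (insert q A) Y + NA A (Y / q) : ℕ) : ℝ) = (NA A Y : ℝ) := by rw [hins]
      push_cast at this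
      linarith
    rw [card_insert_of_notMem hq]
    rcases K with _ | K
    · -- no multiples at all
      have h1 : Y / q = 0 := by
        apply Nat.div_eq_of_lt
        have : Y < w + 1 := by simpa using hY
        omega
      rw [hinsr, h1, NA_zero, VK_zero]
      have h2 := ih hA' hs' 0 Y hY
      rw [VK_zero] at h2
      simpa using h2
    · have h1 := ih hA' hs' (K + 1) Y hY
      have h2 : Y / q < (w + 1) ^ (K + 1) := by
        rw [Nat.div_lt_iff_lt_mul hqA.1.pos]
        calc Y < (w + 1) ^ (K + 1 + 1) := hY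
          _ = (w + 1) ^ (K + 1) * (w + 1) := by ring
          _ ≤ (w + 1) ^ (K + 1) * q := Nat.mul_le_mul_left _ (by omega)
      have h3 := ih hA' hs' K (Y / q) h2
      rw [hinsr, VK_insert K hq, rc_eq hqA.1.pos]
      have h4 : |((Y / q : ℕ) : ℝ) - Y / q| ≤ 1 := by
        rw [abs_le]
        constructor
        · have := Nat.lt_mul_div_succ Y hqA.1.pos
          have h5 : (Y : ℝ) < ((q * (Y / q + 1) : ℕ) : ℝ) := by exact_mod_cast this
          push_cast at h5
          have h6 : (Y : ℝ) / q < ((Y / q : ℕ) : ℝ) + 1 := by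
            rw [div_lt_iff₀ hq0]
            linarith
          linarith
        · have := Nat.cast_div_le (α := ℝ) (m := Y) (n := q)
          linarith
      have h5 := VK_abs K A hs'
      have e1 : (NA A Y : ℝ) - NA A (Y / q) - Y * (VK (K + 1) A - 1 / q * VK K A) =
          ((NA A Y : ℝ) - Y * VK (K + 1) A) - ((NA A (Y / q) : ℝ) - ((Y / q : ℕ) : ℝ) * VK K A) -
            (((Y / q : ℕ) : ℝ) - Y / q) * VK K A := by
        field_simp
        ring
      rw [e1]
      have h6 : |(((Y / q : ℕ) : ℝ) - Y / q) * VK K A| ≤ 2 := by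
        rw [abs_mul]
        calc |((Y / q : ℕ) : ℝ) - Y / q| * |VK K A| ≤ 1 * 2 :=
              mul_le_mul h4 h5 (abs_nonneg _) zero_le_one
          _ = 2 := by norm_num
      have h7 := abs_sub ((NA A Y : ℝ) - Y * VK (K + 1) A) ((NA A (Y / q) : ℝ) - ((Y / q : ℕ) : ℝ) * VK K A)
      have h8 := abs_sub (((NA A Y : ℝ) - Y * VK (K + 1) A) - ((NA A (Y / q) : ℝ) - ((Y / q : ℕ) : ℝ) * VK K A))
        ((((Y / q : ℕ) : ℝ) - Y / q) * VK K A)
      have h9 : ((A.card : ℝ) + 1) ^ (K + 1) + ((A.card : ℝ) + 1) ^ K ≤ (((A.card + 1 : ℕ) : ℝ) + 1) ^ (K + 1) := by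
        push_cast
        have c1 : (0 : ℝ) ≤ (A.card : ℝ) + 1 := by positivity
        have c2 : ((A.card : ℝ) + 1) ^ K ≤ ((A.card : ℝ) + 1 + 1) ^ K := pow_le_pow_left₀ c1 (by linarith) K
        calc ((A.card : ℝ) + 1) ^ (K + 1) + ((A.card : ℝ) + 1) ^ K = ((A.card : ℝ) + 1) ^ K * ((A.card : ℝ) + 1 + 1) := by ring
          _ ≤ ((A.card : ℝ) + 1 + 1) ^ K * ((A.card : ℝ) + 1 + 1) := mul_le_mul_of_nonneg_right c2 (by linarith)
          _ = _ := by ring
      linarith

/-- the number of the `m` in `(u, v]` -/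
theorem card_interval (A : Finset ℕ) {u v : ℕ} (huv : u ≤ v) :
    (((Ioc u v).filter (Fr A)).card : ℝ) = NA A v - NA A u := by
  have h1 : NA A v = NA A u + ((Ioc u v).filter (Fr A)).card := by
    unfold NA
    have h2 : (Icc 1 v).filter (fun h => ∀ p ∈ A, ¬ p ∣ h) =
        (Icc 1 u).filter (fun h => ∀ p ∈ A, ¬ p ∣ h) ∪ (Ioc u v).filter (Fr A) := by
      ext m
      simp only [mem_filter, mem_union, mem_Icc, mem_Ioc, Fr]
      constructor
      · rintro ⟨⟨h3, h4⟩, h5⟩
        rcases Nat.lt_or_ge u m with h | h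
        · right
          exact ⟨⟨h, h4⟩, h5⟩
        · left
          exact ⟨⟨h3, h⟩, h5⟩
      · rintro (⟨⟨h3, h4⟩, h5⟩ | ⟨⟨h3, h4⟩, h5⟩)
        · exact ⟨⟨h3, by omega⟩, h5⟩
        · exact ⟨⟨by omega, h4⟩, h5⟩
    rw [h2, card_union_of_disjoint]
    rw [disjoint_left]
    intro m h3 h4
    rw [mem_filter, mem_Icc] at h3
    rw [mem_filter, mem_Ioc] at h4
    omega
  have h2 : (NA A v : ℝ) = NA A u + (((Ioc u v).filter (Fr A)).card : ℝ) := by exact_mod_cast h1
  linarith

/-- there is a shift for which the number of the `n` with `n - r` free of the primes of `A` is unusual -/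
theorem exists_shift (w : ℕ) (A : Finset ℕ) (hA : ∀ p ∈ A, p.Prime ∧ w < p) (hs : ∑ p ∈ A, rc p ≤ 1)
    (K X R : ℕ) (hX : X < (w + 1) ^ (K + 1)) (hR : 1 ≤ R) (N : Finset ℕ) (hN : N ⊆ Ioc R X) :
    ∃ r : ℕ, 1 ≤ r ∧ r ≤ R ∧
      (-1) ^ K * (N.card * VK K A) - N.card * (4 * ((A.card : ℝ) + 1) ^ K / R) ≤
        (-1) ^ K * ((N.filter (fun n => Fr A (n - r))).card : ℝ) := by
  classical
  by_contra hcon
  push Not at hcon
  have hR0 : (0 : ℝ) < R := by exact_mod_cast hR
  set E : ℝ := ((A.card : ℝ) + 1) ^ K with hE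
  have hE1 : 1 ≤ E := one_le_pow₀ (by
    have : (0 : ℝ) ≤ A.card := Nat.cast_nonneg _
    linarith)
  -- the sum over all shifts
  have h1 : ∑ r ∈ Icc 1 R, ((N.filter (fun n => Fr A (n - r))).card : ℝ) =
      ∑ n ∈ N, ((NA A (n - 1) : ℝ) - NA A (n - 1 - R)) := by
    have h2 : ∀ r ∈ Icc 1 R, ((N.filter (fun n => Fr A (n - r))).card : ℝ) =
        ∑ n ∈ N, if Fr A (n - r) then (1 : ℝ) else 0 := by
      intro r _
      rw [← sum_filter, sum_const, nsmul_eq_mul, mul_one]
    rw [sum_congr rfl h2, sum_comm]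
    refine sum_congr rfl fun n hn => ?_
    have hn' := mem_Ioc.mp (hN hn)
    rw [← sum_filter, sum_const, nsmul_eq_mul, mul_one, ← card_interval A (by omega : n - 1 - R ≤ n - 1)]
    norm_cast
    apply Finset.card_bij (fun r _ => n - r)
    · intro r hr
      rw [mem_filter, mem_Icc] at hr
      rw [mem_filter, mem_Ioc]
      exact ⟨by omega, hr.2⟩
    · intro r hr r' hr' h
      rw [mem_filter, mem_Icc] at hr hr'
      omega
    · intro m hm
      rw [mem_filter, mem_Ioc] at hm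
      refine ⟨n - m, ?_, by omega⟩
      rw [mem_filter, mem_Icc]
      have : n - (n - m) = m := by omega
      rw [this]
      exact ⟨by omega, hm.2⟩
  have h3 : ∀ n ∈ N, |((NA A (n - 1) : ℝ) - NA A (n - 1 - R)) - R * VK K A| ≤ 4 * E := by
    intro n hn
    have hn' := mem_Ioc.mp (hN hn)
    have e1 := count_abs w A hA hs K (n - 1) (by omega)
    have e2 := count_abs w A hA hs K (n - 1 - R) (by omega)
    have e3 : (((n - 1 : ℕ) : ℝ)) = ((n - 1 - R : ℕ) : ℝ) + R := by
      have : n - 1 = (n - 1 - R) + R := by omega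
      exact_mod_cast this
    rw [e3] at e1
    rw [abs_le] at e1 e2 ⊢
    constructor
    · linarith [e1.1, e2.2]
    · linarith [e1.2, e2.1]
  have h4 : ∑ r ∈ Icc 1 R, (-1 : ℝ) ^ K * ((N.filter (fun n => Fr A (n - r))).card : ℝ) <
      ∑ _r ∈ Icc 1 R, ((-1) ^ K * (N.card * VK K A) - N.card * (4 * E / R)) := by
    apply sum_lt_sum_of_nonempty
    · exact ⟨1, mem_Icc.mpr ⟨le_rfl, hR⟩⟩
    · intro r hr
      rw [mem_Icc] at hr
      exact hcon r hr.1 hr.2
  rw [← mul_sum, h1, sum_const, Nat.card_Icc, nsmul_eq_mul, Nat.add_sub_cancel] at h4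
  have h5 : |∑ n ∈ N, ((NA A (n - 1) : ℝ) - NA A (n - 1 - R)) - N.card * (R * VK K A)| ≤ N.card * (4 * E) := by
    have e1 : (N.card : ℝ) * (R * VK K A) = ∑ _n ∈ N, (R * VK K A) := by rw [sum_const, nsmul_eq_mul]
    rw [e1, ← sum_sub_distrib]
    refine (abs_sum_le_sum_abs _ _).trans ?_
    refine (sum_le_card_nsmul _ _ _ h3).trans ?_
    rw [nsmul_eq_mul]
  have h6 : (R : ℝ) * ((-1) ^ K * (N.card * VK K A) - N.card * (4 * E / R)) =
      (-1) ^ K * (N.card * (R * VK K A)) - N.card * (4 * E) := by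
    field_simp
  rw [h6] at h4
  have h7 : |(-1 : ℝ) ^ K * (∑ n ∈ N, ((NA A (n - 1) : ℝ) - NA A (n - 1 - R)) - N.card * (R * VK K A))| ≤
      N.card * (4 * E) := by
    rw [abs_mul, abs_pow, abs_neg, abs_one, one_pow, one_mul]
    exact h5
  have h8 := (abs_le.mp h7).1
  linarith

end Pool.Agent.H537.MM
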