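import Mathlib

/-! The singular series of `n, a_i n + 1`. -/

set_option autoImplicit false
set_option maxHeartbeats 4000000

open Finset Filter Topology

namespace Pool.Agent.H537.MM

/-- the number of the zeros of `n ∏ (a_i n + 1)` modulo `p` -/
def nuA {s : ℕ} (a : Fin s → ℕ) (p : ℕ) : ℕ := ((range p).filter fun n => p ∣ n * ∏ i, (a i * n + 1)).card

/-- the factor of the singular series -/
noncomputable def fac {s : ℕ} (a : Fin s → ℕ) (p : ℕ) : ℝ :=
  (1 - (nuA a p : ℝ) / p) / (1 - 1 / (p : ℝ)) ^ (s + 1)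

/-- the partial product of the singular series -/
noncomputable def SP {s : ℕ} (a : Fin s → ℕ) (y : ℕ) : ℝ := ∏ p ∈ (Icc 1 y).filter Nat.Prime, fac a p

theorem nuA_eq {s : ℕ} (a : Fin s → ℕ) {p : ℕ} (hp : p.Prime) :
    nuA a p = (insert (0 : ZMod p) (univ.image fun i => -((a i : ZMod p))⁻¹)).card := by
  have := Fact.mk hp
  unfold nuA
  apply Finset.card_bij (fun (n : ℕ) _ => ((n : ℕ) : ZMod p))
  · intro n hn
    rw [mem_filter, mem_range] at hn
    have h1 : ((n * ∏ i, (a i * n + 1) : ℕ) : ZMod p) = 0 := (ZMod.natCast_eq_zero_iff _ _).mpr hn.2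
    push_cast at h1
    rw [mul_eq_zero] at h1
    rw [mem_insert, mem_image]
    rcases h1 with h1 | h1
    · left
      exact h1
    · right
      obtain ⟨i, _, hi⟩ := prod_eq_zero_iff.mp h1
      refine ⟨i, mem_univ i, ?_⟩
      have h2 : (a i : ZMod p) * n = -1 := by
        linear_combination hi
      have h3 : (a i : ZMod p) ≠ 0 := by
        intro h0
        rw [h0, zero_mul] at h2
        have : (1 : ZMod p) = 0 := by linear_combination h2
        exact one_ne_zero this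
      field_simp
      linear_combination -h2
  · intro n hn n' hn' h
    rw [mem_filter, mem_range] at hn hn'
    have h1 := (ZMod.natCast_eq_natCast_iff' _ _ _).mp h
    rwa [Nat.mod_eq_of_lt hn.1, Nat.mod_eq_of_lt hn'.1] at h1
  · intro x hx
    refine ⟨x.val, ?_, by simp⟩
    rw [mem_filter, mem_range]
    refine ⟨ZMod.val_lt x, ?_⟩
    rw [← ZMod.natCast_eq_zero_iff]
    push_cast
    rw [ZMod.natCast_zmod_val]
    rw [mem_insert, mem_image] at hx
    rcases hx with hx | ⟨i, _, hi⟩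
    · rw [hx, zero_mul]
    · by_cases h0 : (a i : ZMod p) = 0
      · rw [h0, inv_zero, neg_zero] at hi
        rw [← hi, zero_mul]
      · have : ∏ i, ((a i : ZMod p) * x + 1) = 0 := by
          apply prod_eq_zero (mem_univ i)
          rw [← hi]
          field_simp
          ring
        rw [this, mul_zero]

theorem nuA_ge {s : ℕ} (a : Fin s → ℕ) {p : ℕ} (hp : p.Prime) : 1 ≤ nuA a p := by
  rw [nuA_eq a hp]
  exact card_pos.mpr ⟨0, mem_insert_self _ _⟩

theorem nuA_le {s : ℕ} (a : Fin s → ℕ) {p : ℕ} (hp : p.Prime) : nuA a p ≤ s + 1 := by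
  rw [nuA_eq a hp]
  refine (card_insert_le _ _).trans ?_
  have : (univ.image fun i => -((a i : ZMod p))⁻¹).card ≤ s := by
    refine card_image_le.trans ?_
    simp
  omega

theorem nuA_all {s : ℕ} (a : Fin s → ℕ) {p : ℕ} (hp : p.Prime) (h : ∀ i, p ∣ a i) : nuA a p = 1 := by
  have := Fact.mk hp
  rw [nuA_eq a hp, card_eq_one]
  refine ⟨0, ?_⟩
  ext x
  rw [mem_insert, mem_image, mem_singleton]
  constructor
  · rintro (h1 | ⟨i, _, hi⟩)
    · exact h1
    · have : (a i : ZMod p) = 0 := (ZMod.natCast_eq_zero_iff _ _).mpr (h i)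
      rw [this, inv_zero, neg_zero] at hi
      exact hi.symm
  · intro h1
    left
    exact h1

theorem nuA_one {s : ℕ} (a : Fin (s + 1) → ℕ) {p : ℕ} (hp : p.Prime) (h0 : ¬ p ∣ a 0) (h : ∀ i, i ≠ 0 → p ∣ a i) :
    nuA a p = 2 := by
  have := Fact.mk hp
  rw [nuA_eq a hp, card_eq_two]
  have h1 : (a 0 : ZMod p) ≠ 0 := fun h2 => h0 ((ZMod.natCast_eq_zero_iff _ _).mp h2)
  refine ⟨0, -((a 0 : ZMod p))⁻¹, ?_, ?_⟩
  · intro h2
    apply h1
    have h3 : ((a 0 : ZMod p))⁻¹ = 0 := by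
      rw [← neg_eq_zero]
      exact h2.symm
    exact inv_eq_zero.mp h3
  · ext x
    rw [mem_insert, mem_image, mem_insert, mem_singleton]
    constructor
    · rintro (h2 | ⟨i, _, hi⟩)
      · left
        exact h2
      · by_cases hi0 : i = 0
        · right
          rw [← hi, hi0]
        · left
          have : (a i : ZMod p) = 0 := (ZMod.natCast_eq_zero_iff _ _).mpr (h i hi0)
          rw [this, inv_zero, neg_zero] at hi
          exact hi.symm
    · rintro (h2 | h2)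
      · left
        exact h2
      · right
        exact ⟨0, mem_univ _, h2.symm⟩

/-- the product of the `a_i` and of their differences -/
def DD {s : ℕ} (a : Fin s → ℕ) : ℕ := (∏ i, a i) * ∏ i, ∏ j, if i < j then a j - a i else 1

theorem DD_dvd_iff {s : ℕ} (a : Fin s → ℕ) (hmono : StrictMono a) {p : ℕ} (hp : p.Prime) :
    p ∣ DD a ↔ (∃ i, p ∣ a i) ∨ ∃ i j, i < j ∧ p ∣ a j - a i := by
  unfold DD
  rw [hp.dvd_mul, Prime.dvd_finsetProd_iff hp.prime]
  constructor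
  · rintro (⟨i, _, hi⟩ | h)
    · left
      exact ⟨i, hi⟩
    · right
      obtain ⟨i, _, hi⟩ := (Prime.dvd_finsetProd_iff hp.prime _).mp h
      obtain ⟨j, _, hj⟩ := (Prime.dvd_finsetProd_iff hp.prime _).mp hi
      by_cases hij : i < j
      · rw [if_pos hij] at hj
        exact ⟨i, j, hij, hj⟩
      · rw [if_neg hij] at hj
        exact absurd (Nat.dvd_one.mp hj) hp.one_lt.ne'
  · rintro (⟨i, hi⟩ | ⟨i, j, hij, h⟩)
    · left
      exact ⟨i, mem_univ i, hi⟩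
    · right
      rw [Prime.dvd_finsetProd_iff hp.prime]
      refine ⟨i, mem_univ i, ?_⟩
      rw [Prime.dvd_finsetProd_iff hp.prime]
      refine ⟨j, mem_univ j, ?_⟩
      rw [if_pos hij]
      exact h

theorem DD_pos {s : ℕ} (a : Fin s → ℕ) (hmono : StrictMono a) (hpos : ∀ i, 0 < a i) : 0 < DD a := by
  unfold DD
  apply Nat.mul_pos
  · exact prod_pos fun i _ => hpos i
  · apply prod_pos
    intro i _
    apply prod_pos
    intro j _
    split_ifs with h
    · have := hmono h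
      omega
    · exact one_pos

theorem nuA_max {s : ℕ} (a : Fin s → ℕ) (hmono : StrictMono a) {p : ℕ} (hp : p.Prime) (h : ¬ p ∣ DD a) :
    nuA a p = s + 1 := by
  have := Fact.mk hp
  rw [DD_dvd_iff a hmono hp] at h
  push Not at h
  obtain ⟨h1, h2⟩ := h
  have h1' : ∀ i, (a i : ZMod p) ≠ 0 := fun i h3 => h1 i ((ZMod.natCast_eq_zero_iff _ _).mp h3)
  rw [nuA_eq a hp, card_insert_of_notMem, card_image_of_injective]
  · simp
  · have key : ∀ i j, i < j → (a i : ZMod p) ≠ a j := by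
      intro i j hij h3
      apply h2 i j hij
      have h4 : ((a j - a i : ℕ) : ZMod p) = 0 := by
        rw [Nat.cast_sub (hmono hij).le, h3, sub_self]
      exact (ZMod.natCast_eq_zero_iff _ _).mp h4
    intro i j hij
    have h3 : (a i : ZMod p) = a j := by
      have h4 : ((a i : ZMod p))⁻¹ = ((a j : ZMod p))⁻¹ := neg_injective hij
      exact inv_injective h4
    rcases lt_trichotomy i j with h5 | h5 | h5
    · exact absurd h3 (key i j h5)
    · exact h5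
    · exact absurd h3.symm (key j i h5)
  · rw [mem_image]
    rintro ⟨i, _, hi⟩
    have h3 : ((a i : ZMod p))⁻¹ = 0 := neg_eq_zero.mp hi
    exact h1' i (inv_eq_zero.mp h3)

theorem pow_mul_le {x : ℝ} (h0 : 0 ≤ x) (h1 : x ≤ 1) (k : ℕ) : (1 - x) ^ k * (1 + k * x) ≤ 1 := by
  have e1 : 1 + (k : ℝ) * x ≤ (1 + x) ^ k := one_add_mul_le_pow (by linarith) k
  have e2 : 0 ≤ (1 - x) ^ k := pow_nonneg (by linarith) k
  calc (1 - x) ^ k * (1 + k * x) ≤ (1 - x) ^ k * (1 + x) ^ k := mul_le_mul_of_nonneg_left e1 e2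
    _ = (1 - x ^ 2) ^ k := by rw [← mul_pow]; congr 1; ring
    _ ≤ 1 := pow_le_one₀ (by nlinarith) (by nlinarith)

theorem inv_p {p : ℕ} (hp : p.Prime) : 0 < 1 / (p : ℝ) ∧ 1 / (p : ℝ) ≤ 1 / 2 := by
  have : (2 : ℝ) ≤ p := by exact_mod_cast hp.two_le
  constructor
  · positivity
  · exact one_div_le_one_div_of_le (by norm_num) this

theorem fac_lower {s : ℕ} (a : Fin s → ℕ) {p : ℕ} (hp : p.Prime) (hk : s + 1 ≤ p) :
    1 - ((s : ℝ) + 1) ^ 2 / (p : ℝ) ^ 2 ≤ fac a p := by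
  obtain ⟨x0, x1⟩ := inv_p hp
  have hp0 : (0 : ℝ) < p := by exact_mod_cast hp.pos
  have hkr : (s : ℝ) + 1 ≤ p := by exact_mod_cast hk
  set x : ℝ := 1 / (p : ℝ) with hx
  have e1 := pow_mul_le x0.le (by linarith) (s + 1)
  push_cast at e1
  have e2 : 0 < (1 - x) ^ (s + 1) := pow_pos (by linarith) _
  unfold fac
  rw [← hx, le_div_iff₀ e2]
  have e3 : (nuA a p : ℝ) ≤ s + 1 := by exact_mod_cast nuA_le a hp
  have e4 : (nuA a p : ℝ) / p ≤ (s + 1) * x := by
    rw [hx, mul_one_div]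
    gcongr
  have e5 : ((s : ℝ) + 1) ^ 2 / (p : ℝ) ^ 2 = ((s + 1) * x) ^ 2 := by
    rw [hx]
    field_simp
  rw [e5]
  have e6 : ((s : ℝ) + 1) * x ≤ 1 := by
    rw [hx, mul_one_div, div_le_one hp0]
    exact hkr
  have e7 : 0 ≤ ((s : ℝ) + 1) * x := by positivity
  calc (1 - (((s : ℝ) + 1) * x) ^ 2) * (1 - x) ^ (s + 1) =
      (1 - ((s : ℝ) + 1) * x) * ((1 - x) ^ (s + 1) * (1 + ((s : ℝ) + 1) * x)) := by ring
    _ ≤ (1 - ((s : ℝ) + 1) * x) * 1 := mul_le_mul_of_nonneg_left e1 (by linarith)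
    _ ≤ _ := by linarith

theorem fac_nonneg {s : ℕ} (a : Fin s → ℕ) {p : ℕ} (hp : p.Prime) : 0 ≤ fac a p := by
  obtain ⟨x0, x1⟩ := inv_p hp
  have hp0 : (0 : ℝ) < p := by exact_mod_cast hp.pos
  unfold fac
  apply div_nonneg
  · have h1 : nuA a p ≤ p := by
      unfold nuA
      refine (card_filter_le _ _).trans ?_
      simp
    have h2 : (nuA a p : ℝ) / p ≤ 1 := by
      rw [div_le_one hp0]
      exact_mod_cast h1
    linarith
  · exact pow_nonneg (by linarith) _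

theorem fac_upper {s : ℕ} (a : Fin s → ℕ) {p : ℕ} (hp : p.Prime) (hk : 2 * s ≤ p) :
    fac a p ≤ 1 + 2 * s / p := by
  obtain ⟨x0, x1⟩ := inv_p hp
  have hp0 : (0 : ℝ) < p := by exact_mod_cast hp.pos
  have hkr : 2 * (s : ℝ) ≤ p := by exact_mod_cast hk
  set x : ℝ := 1 / (p : ℝ) with hx
  have e2 : 0 < (1 - x) ^ (s + 1) := pow_pos (by linarith) _
  unfold fac
  rw [← hx, div_le_iff₀ e2]
  have e3 : (1 : ℝ) ≤ nuA a p := by exact_mod_cast nuA_ge a hp
  have e4 : x ≤ (nuA a p : ℝ) / p := by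
    rw [hx]
    gcongr
  have e5 : 1 + (s : ℝ) * (-x) ≤ (1 + -x) ^ s := one_add_mul_le_pow (by linarith) s
  have e6 : 1 - (s : ℝ) * x ≤ (1 - x) ^ s := by
    have : (1 : ℝ) + -x = 1 - x := by ring
    rw [this] at e5
    linarith
  have e7 : (s : ℝ) * x ≤ 1 / 2 := by
    rw [hx, mul_one_div, div_le_iff₀ hp0]
    linarith
  have e8 : 0 ≤ (s : ℝ) * x := by positivity
  have e9 : 2 * (s : ℝ) / p = 2 * (s * x) := by
    rw [hx]
    ring
  rw [e9]
  calc 1 - (nuA a p : ℝ) / p ≤ 1 * (1 - x) := by linarith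
    _ ≤ ((1 + 2 * (s * x)) * (1 - s * x)) * (1 - x) := by
        apply mul_le_mul_of_nonneg_right _ (by linarith)
        nlinarith
    _ ≤ ((1 + 2 * (s * x)) * (1 - x) ^ s) * (1 - x) := by
        apply mul_le_mul_of_nonneg_right _ (by linarith)
        exact mul_le_mul_of_nonneg_left e6 (by linarith)
    _ = (1 + 2 * (s * x)) * (1 - x) ^ (s + 1) := by ring

theorem fac_le_one {s : ℕ} (a : Fin s → ℕ) (hmono : StrictMono a) {p : ℕ} (hp : p.Prime) (h : ¬ p ∣ DD a) :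
    fac a p ≤ 1 := by
  obtain ⟨x0, x1⟩ := inv_p hp
  have hp0 : (0 : ℝ) < p := by exact_mod_cast hp.pos
  set x : ℝ := 1 / (p : ℝ) with hx
  have e2 : 0 < (1 - x) ^ (s + 1) := pow_pos (by linarith) _
  unfold fac
  rw [← hx, div_le_one e2, nuA_max a hmono hp h]
  have e5 : 1 + ((s + 1 : ℕ) : ℝ) * (-x) ≤ (1 + -x) ^ (s + 1) := one_add_mul_le_pow (by linarith) (s + 1)
  have e6 : (1 : ℝ) + -x = 1 - x := by ring
  rw [e6] at e5
  have e7 : ((s + 1 : ℕ) : ℝ) / p = ((s + 1 : ℕ) : ℝ) * x := by rw [hx]; ring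
  rw [e7]
  linarith

theorem fac_all {s : ℕ} (a : Fin s → ℕ) {p : ℕ} (hp : p.Prime) (h : ∀ i, p ∣ a i) :
    fac a p = 1 / (1 - 1 / (p : ℝ)) ^ s := by
  obtain ⟨x0, x1⟩ := inv_p hp
  have : (1 - 1 / (p : ℝ)) ≠ 0 := by linarith
  unfold fac
  rw [nuA_all a hp h, pow_succ]
  push_cast
  field_simp

/-- the factor `(1 - 2 / p) / (1 - 1 / p)` -/
noncomputable def qf (p : ℕ) : ℝ := (1 - 2 / (p : ℝ)) / (1 - 1 / (p : ℝ))

theorem fac_one {s : ℕ} (a : Fin (s + 1) → ℕ) {p : ℕ} (hp : p.Prime) (h0 : ¬ p ∣ a 0) (h : ∀ i, i ≠ 0 → p ∣ a i) :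
    fac a p = 1 / (1 - 1 / (p : ℝ)) ^ (s + 1) * qf p := by
  obtain ⟨x0, x1⟩ := inv_p hp
  have : (1 - 1 / (p : ℝ)) ≠ 0 := by linarith
  unfold fac qf
  rw [nuA_one a hp h0 h, pow_succ _ (s + 1)]
  push_cast
  field_simp

theorem qf_le {p : ℕ} (hp : p.Prime) : qf p ≤ 1 - 1 / (p : ℝ) := by
  obtain ⟨x0, x1⟩ := inv_p hp
  unfold qf
  rw [div_le_iff₀ (by linarith)]
  have : 2 / (p : ℝ) = 2 * (1 / p) := by ring
  rw [this]
  nlinarith

theorem qf_ge {p : ℕ} (hp : p.Prime) : (1 - 1 / (p : ℝ)) * (1 - 4 / (p : ℝ) ^ 2) ≤ qf p := by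
  obtain ⟨x0, x1⟩ := inv_p hp
  unfold qf
  rw [le_div_iff₀ (by linarith)]
  have e1 : 2 / (p : ℝ) = 2 * (1 / p) := by ring
  have e2 : 4 / (p : ℝ) ^ 2 = 4 * (1 / (p : ℝ)) ^ 2 := by ring
  rw [e1, e2]
  set x : ℝ := 1 / (p : ℝ)
  have e3 := pow_mul_le x0.le (by linarith) 2
  push_cast at e3
  calc (1 - x) * (1 - 4 * x ^ 2) * (1 - x) = (1 - 2 * x) * ((1 - x) ^ 2 * (1 + 2 * x)) := by ring
    _ ≤ (1 - 2 * x) * 1 := mul_le_mul_of_nonneg_left e3 (by linarith)
    _ = _ := by ring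

theorem prod_ge_one_sub {ι : Type*} (t : Finset ι) (f e : ι → ℝ) (h : ∀ i ∈ t, 1 - e i ≤ f i) (he : ∀ i ∈ t, 0 ≤ e i)
    (hf : ∀ i ∈ t, 0 ≤ f i) : 1 - ∑ i ∈ t, e i ≤ ∏ i ∈ t, f i := by
  classical
  induction t using Finset.induction_on with
  | empty => simp
  | insert j t hj ih =>
    rw [sum_insert hj, prod_insert hj]
    have h1 := ih (fun i hi => h i (mem_insert_of_mem hi)) (fun i hi => he i (mem_insert_of_mem hi))
      (fun i hi => hf i (mem_insert_of_mem hi))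
    have h2 := h j (mem_insert_self j t)
    have h3 := he j (mem_insert_self j t)
    have h4 := hf j (mem_insert_self j t)
    have h5 : 0 ≤ ∏ i ∈ t, f i := prod_nonneg fun i hi => hf i (mem_insert_of_mem hi)
    have h6 : 0 ≤ ∑ i ∈ t, e i := sum_nonneg fun i hi => he i (mem_insert_of_mem hi)
    by_cases h7 : 1 - ∑ i ∈ t, e i ≤ 0
    · have : 0 ≤ f j * ∏ i ∈ t, f i := mul_nonneg h4 h5
      linarith
    · push Not at h7
      by_cases h8 : e j ≤ 1
      · have e1 : (1 - e j) * (1 - ∑ i ∈ t, e i) ≤ f j * ∏ i ∈ t, f i :=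
          mul_le_mul h2 h1 h7.le h4
        nlinarith
      · push Not at h8
        have : 0 ≤ f j * ∏ i ∈ t, f i := mul_nonneg h4 h5
        linarith

theorem sum_inv_sq (t : Finset ℕ) (z : ℕ) (hz : 1 ≤ z) (h : ∀ p ∈ t, z < p) :
    ∑ p ∈ t, 1 / (p : ℝ) ^ 2 ≤ 1 / (z : ℝ) := by
  have key : ∀ N : ℕ, z ≤ N → ∑ p ∈ Ioc z N, 1 / (p : ℝ) ^ 2 ≤ 1 / (z : ℝ) - 1 / (N : ℝ) := by
    intro N hN
    induction N, hN using Nat.le_induction with
    | base => simp
    | succ N hN ih =>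
      rw [← Finset.insert_Ioc_right_eq_Ioc_add_one hN, sum_insert (by simp)]
      have hN0 : (0 : ℝ) < N := by
        have : 0 < N := by omega
        exact_mod_cast this
      have : 1 / (((N + 1 : ℕ) : ℝ)) ^ 2 ≤ 1 / N - 1 / ((N + 1 : ℕ) : ℝ) := by
        push_cast
        rw [div_sub_div _ _ hN0.ne' (by positivity), div_le_div_iff₀ (by positivity) (by positivity)]
        nlinarith
      linarith
  obtain ⟨N, hN⟩ : ∃ N, ∀ p ∈ t, p ≤ N := ⟨t.sup id, fun p hp => le_sup (f := id) hp⟩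
  calc ∑ p ∈ t, 1 / (p : ℝ) ^ 2 ≤ ∑ p ∈ Ioc z (max z N), 1 / (p : ℝ) ^ 2 := by
        apply sum_le_sum_of_subset_of_nonneg _ fun _ _ _ => by positivity
        intro p hp
        rw [mem_Ioc]
        exact ⟨h p hp, (hN p hp).trans (le_max_right _ _)⟩
    _ ≤ 1 / (z : ℝ) - 1 / ((max z N : ℕ) : ℝ) := key _ (le_max_left _ _)
    _ ≤ 1 / (z : ℝ) := by
        have : (0 : ℝ) ≤ 1 / ((max z N : ℕ) : ℝ) := by positivity
        linarith

end Pool.Agent.H537.MM
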