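import Mathlib
import Pool.Agent.H537.MM.Sing
import Pool.Agent.H537.MM.Comb

/-! The singular series on the classes of the matrix. -/

set_option autoImplicit false
set_option maxHeartbeats 4000000

open Finset Filter Topology

namespace Pool.Agent.H537.MM

open Pool.Agent.N914.MR Pool.Agent.H537.FG

/-- the primes `≤ z` different from `ps` -/
def PZ (z ps : ℕ) : Finset ℕ := (Icc 1 z).filter fun p => p.Prime ∧ p ≠ ps

theorem mem_PZ {z ps p : ℕ} : p ∈ PZ z ps ↔ p ≤ z ∧ p.Prime ∧ p ≠ ps := by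
  unfold PZ
  rw [mem_filter, mem_Icc]
  constructor
  · rintro ⟨⟨_, h2⟩, h3, h4⟩
    exact ⟨h2, h3, h4⟩
  · rintro ⟨h2, h3, h4⟩
    exact ⟨⟨h3.one_lt.le, h2⟩, h3, h4⟩

/-- the modulus -/
def WZ (z ps : ℕ) : ℕ := ∏ p ∈ PZ z ps, p

theorem WZ_pos (z ps : ℕ) : 0 < WZ z ps := prod_pos fun _ hp => (mem_PZ.mp hp).2.1.pos

theorem WZ_sq (z ps : ℕ) : Squarefree (WZ z ps) := by
  unfold WZ
  apply Finset.squarefree_prod_of_pairwise_isCoprime
  · intro p hp q hq hpq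
    exact Nat.coprime_iff_isRelPrime.mp ((Nat.coprime_primes (mem_PZ.mp hp).2.1 (mem_PZ.mp hq).2.1).mpr hpq)
  · intro p hp
    exact (mem_PZ.mp hp).2.1.squarefree

theorem dvd_WZ {z ps p : ℕ} (hp : p.Prime) : p ∣ WZ z ps ↔ p ≤ z ∧ p ≠ ps := by
  unfold WZ
  rw [Prime.dvd_finsetProd_iff hp.prime]
  constructor
  · rintro ⟨q, hq, hpq⟩
    have h1 := mem_PZ.mp hq
    have h2 := (Nat.prime_dvd_prime_iff_eq hp h1.2.1).mp hpq
    rw [h2]
    exact ⟨h1.1, h1.2.2⟩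
  · rintro ⟨h1, h2⟩
    exact ⟨p, mem_PZ.mpr ⟨h1, hp, h2⟩, dvd_rfl⟩

theorem WZ_le (z ps : ℕ) : WZ z ps ≤ 4 ^ z := by
  refine le_trans ?_ (primorial_le_four_pow z)
  unfold WZ primorial
  apply prod_le_prod_of_subset_of_one_le'
  · intro p hp
    have := mem_PZ.mp hp
    rw [mem_filter, mem_range]
    exact ⟨by omega, this.2.1⟩
  · intro p hp _
    rw [mem_filter] at hp
    exact hp.2.one_lt.le

theorem tot_WZ (z ps : ℕ) : ((WZ z ps).totient : ℝ) = WZ z ps * ∏ p ∈ PZ z ps, (1 - 1 / (p : ℝ)) := by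
  have h1 : (WZ z ps).primeFactors = PZ z ps := Nat.primeFactors_prod fun p hp => (mem_PZ.mp hp).2.1
  have h2 := Nat.totient_eq_mul_prod_factors (WZ z ps)
  have h3 : (((WZ z ps).totient : ℚ) : ℝ) = ((WZ z ps : ℚ) * ∏ p ∈ (WZ z ps).primeFactors, (1 - (p : ℚ)⁻¹) : ℚ) := by
    rw [h2]
  push_cast at h3
  rw [h1] at h3
  rw [h3]
  congr 1
  refine prod_congr rfl fun p _ => ?_
  rw [one_div]

/-- the primes of the sieve -/
def AZ (w z ps : ℕ) : Finset ℕ := (Ioc w z).filter fun p => p.Prime ∧ p ≠ ps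

theorem mem_AZ {w z ps p : ℕ} : p ∈ AZ w z ps ↔ (w < p ∧ p ≤ z) ∧ p.Prime ∧ p ≠ ps := by
  unfold AZ
  rw [mem_filter, mem_Ioc]

/-- the class: `a 0 = -1 / r` modulo the primes of `AZ` which do not divide `r`, all others are `0` -/
def InClass {s : ℕ} (w z ps r : ℕ) (a : Fin (s + 1) → ℕ) : Prop :=
  ∀ p : ℕ, p.Prime → p ≤ z → p ≠ ps → (∀ i, i ≠ 0 → p ∣ a i) ∧
    ((p ≤ w ∨ p ∣ r) → p ∣ a 0) ∧ (w < p → ¬ p ∣ r → p ∣ a 0 * r + 1)

/-- the product over the primes of the sieve -/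
noncomputable def UU (w z ps r : ℕ) : ℝ := ∏ p ∈ (AZ w z ps).filter (fun p => ¬ p ∣ r), qf p

theorem fac_class {s : ℕ} {w z ps r : ℕ} {a : Fin (s + 1) → ℕ} (h : InClass w z ps r a) :
    ∏ p ∈ PZ z ps, fac a p =
      ((WZ z ps : ℝ) / (WZ z ps).totient) ^ (s + 1) * UU w z ps r := by
  classical
  have hW0 : (0 : ℝ) < WZ z ps := by exact_mod_cast WZ_pos z ps
  have h1 : ∀ p ∈ PZ z ps, fac a p = 1 / (1 - 1 / (p : ℝ)) ^ (s + 1) *
      (if p ∈ (AZ w z ps).filter (fun p => ¬ p ∣ r) then qf p else 1) := by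
    intro p hp
    obtain ⟨h2, h3, h4⟩ := mem_PZ.mp hp
    obtain ⟨h5, h6, h7⟩ := h p h3 h2 h4
    by_cases hc : p ∈ (AZ w z ps).filter (fun p => ¬ p ∣ r)
    · rw [if_pos hc]
      rw [mem_filter, mem_AZ] at hc
      have h8 := h7 hc.1.1.1 hc.2
      apply fac_one a h3 _ h5
      intro h9
      have h10 : p ∣ 1 := (Nat.dvd_add_right (h9.mul_right r)).mp h8
      exact h3.one_lt.ne' (Nat.dvd_one.mp h10)
    · rw [if_neg hc, mul_one]
      apply fac_all a h3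
      intro i
      by_cases hi : i = 0
      · rw [hi]
        apply h6
        by_contra h8
        push Not at h8
        apply hc
        rw [mem_filter, mem_AZ]
        exact ⟨⟨⟨h8.1, h2⟩, h3, h4⟩, h8.2⟩
      · exact h5 i hi
  rw [prod_congr rfl h1, prod_mul_distrib]
  congr 1
  · rw [tot_WZ, ← div_div, div_self hW0.ne', one_div, ← prod_inv_distrib, ← prod_pow]
    refine prod_congr rfl fun p _ => ?_
    rw [one_div, inv_pow]
  · unfold UU
    rw [← prod_filter]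
    congr 1
    ext p
    simp only [mem_filter, mem_AZ, mem_PZ]
    constructor
    · rintro ⟨_, h2⟩
      exact h2
    · rintro ⟨⟨⟨h2, h3⟩, h4, h5⟩, h6⟩
      exact ⟨⟨h3, h4, h5⟩, ⟨⟨h2, h3⟩, h4, h5⟩, h6⟩

theorem UU_le {w z ps r K : ℕ} (hw : 2 * K ≤ w) (hw1 : 1 ≤ w) (hr : 1 ≤ r) (hrw : r < (w + 1) ^ (K + 1)) :
    UU w z ps r ≤ bp rc (AZ w z ps) * (1 + 2 * K / w) := by
  classical
  set A := AZ w z ps with hA
  have hAp : ∀ p ∈ A, p.Prime ∧ w < p := fun p hp => ⟨(mem_AZ.mp hp).2.1, (mem_AZ.mp hp).1.1⟩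
  set A1 := A.filter (fun p => ¬ p ∣ r) with hA1
  set A2 := A.filter (fun p => p ∣ r) with hA2
  have hw0 : (0 : ℝ) < w := by exact_mod_cast hw1
  -- few primes divide `r`
  have hcard : A2.card ≤ K := by
    by_contra hc
    push Not at hc
    have h1 : ∏ p ∈ A2, p ∣ r := by
      apply Finset.prod_primes_dvd
      · intro p hp
        exact ((hAp p (mem_filter.mp hp).1).1).prime
      · intro p hp
        exact (mem_filter.mp hp).2
    have h2 : (w + 1) ^ A2.card ≤ ∏ p ∈ A2, p := by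
      rw [← prod_const]
      exact prod_le_prod' fun p hp => (hAp p (mem_filter.mp hp).1).2
    have h3 : (w + 1) ^ (K + 1) ≤ (w + 1) ^ A2.card := Nat.pow_le_pow_right (by omega) (by omega)
    have h4 := Nat.le_of_dvd (by omega) h1
    omega
  have h1 : UU w z ps r ≤ ∏ p ∈ A1, (1 - 1 / (p : ℝ)) := by
    unfold UU
    apply Finset.prod_le_prod
    · intro p hp
      obtain ⟨h2, h3⟩ := hAp p (mem_filter.mp hp).1
      obtain ⟨x0, x1⟩ := inv_p h2
      unfold qf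
      apply div_nonneg _ (by linarith)
      have : 2 / (p : ℝ) = 2 * (1 / p) := by ring
      rw [this]
      linarith
    · intro p hp
      exact qf_le (hAp p (mem_filter.mp hp).1).1
  have h2 : bp rc A = (∏ p ∈ A1, (1 - 1 / (p : ℝ))) * ∏ p ∈ A2, (1 - 1 / (p : ℝ)) := by
    unfold bp
    have e1 : ∏ p ∈ A, (1 - rc p) = ∏ p ∈ A, (1 - 1 / (p : ℝ)) :=
      prod_congr rfl fun p hp => by rw [rc_eq (hAp p hp).1.pos]
    rw [e1, ← prod_filter_mul_prod_filter_not A (fun p => p ∣ r), mul_comm]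
  have h3 : 1 - (K : ℝ) / w ≤ ∏ p ∈ A2, (1 - 1 / (p : ℝ)) := by
    refine le_trans ?_ (prod_ge_one_sub A2 (fun p => 1 - 1 / (p : ℝ)) (fun _ => 1 / (w : ℝ)) ?_ (fun _ _ => by positivity) ?_)
    · rw [sum_const, nsmul_eq_mul, mul_one_div]
      have : (A2.card : ℝ) / w ≤ K / w := by
        gcongr
      linarith
    · intro p hp
      have h4 := (hAp p (mem_filter.mp hp).1).2
      have h5 : 1 / (p : ℝ) ≤ 1 / w := one_div_le_one_div_of_le hw0 (by exact_mod_cast h4.le)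
      linarith
    · intro p hp
      obtain ⟨x0, x1⟩ := inv_p (hAp p (mem_filter.mp hp).1).1
      linarith
  have h4 : 0 ≤ ∏ p ∈ A1, (1 - 1 / (p : ℝ)) := prod_nonneg fun p hp => by
    obtain ⟨x0, x1⟩ := inv_p (hAp p (mem_filter.mp hp).1).1
    linarith
  have h5 : (K : ℝ) / w ≤ 1 / 2 := by
    rw [div_le_iff₀ hw0]
    have : (2 * K : ℝ) ≤ w := by exact_mod_cast hw
    linarith
  have h6 : 0 ≤ (K : ℝ) / w := by positivity
  rw [h2]
  refine h1.trans ?_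
  have h7 : 1 ≤ (∏ p ∈ A2, (1 - 1 / (p : ℝ))) * (1 + 2 * K / w) := by
    have e1 : 1 ≤ (1 - (K : ℝ) / w) * (1 + 2 * K / w) := by
      have : 2 * (K : ℝ) / w = 2 * (K / w) := by ring
      rw [this]
      nlinarith
    refine e1.trans ?_
    apply mul_le_mul_of_nonneg_right h3
    positivity
  calc ∏ p ∈ A1, (1 - 1 / (p : ℝ)) = (∏ p ∈ A1, (1 - 1 / (p : ℝ))) * 1 := by ring
    _ ≤ (∏ p ∈ A1, (1 - 1 / (p : ℝ))) * ((∏ p ∈ A2, (1 - 1 / (p : ℝ))) * (1 + 2 * K / w)) :=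
        mul_le_mul_of_nonneg_left h7 h4
    _ = _ := by ring

theorem UU_ge {w z ps r : ℕ} (hw : 4 ≤ w) : bp rc (AZ w z ps) * (1 - 4 / w) ≤ UU w z ps r := by
  classical
  set A := AZ w z ps with hA
  have hAp : ∀ p ∈ A, p.Prime ∧ w < p := fun p hp => ⟨(mem_AZ.mp hp).2.1, (mem_AZ.mp hp).1.1⟩
  set A1 := A.filter (fun p => ¬ p ∣ r) with hA1
  have hw0 : (4 : ℝ) ≤ w := by exact_mod_cast hw
  have h1 : (∏ p ∈ A1, (1 - 1 / (p : ℝ))) * ∏ p ∈ A1, (1 - 4 / (p : ℝ) ^ 2) ≤ UU w z ps r := by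
    unfold UU
    rw [← prod_mul_distrib]
    apply Finset.prod_le_prod
    · intro p hp
      obtain ⟨h2, h3⟩ := hAp p (mem_filter.mp hp).1
      obtain ⟨x0, x1⟩ := inv_p h2
      apply mul_nonneg (by linarith)
      have : 4 / (p : ℝ) ^ 2 = 4 * (1 / p) ^ 2 := by ring
      rw [this]
      nlinarith
    · intro p hp
      exact qf_ge (hAp p (mem_filter.mp hp).1).1
  have h2 : bp rc A ≤ ∏ p ∈ A1, (1 - 1 / (p : ℝ)) := by
    unfold bp
    have e1 : ∏ p ∈ A, (1 - rc p) = ∏ p ∈ A, (1 - 1 / (p : ℝ)) :=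
      prod_congr rfl fun p hp => by rw [rc_eq (hAp p hp).1.pos]
    rw [e1, ← prod_filter_mul_prod_filter_not A (fun p => p ∣ r), mul_comm]
    have e2 : ∏ p ∈ A.filter (fun p => p ∣ r), (1 - 1 / (p : ℝ)) ≤ 1 := by
      apply Finset.prod_le_one
      · intro p hp
        obtain ⟨x0, x1⟩ := inv_p (hAp p (mem_filter.mp hp).1).1
        linarith
      · intro p hp
        obtain ⟨x0, x1⟩ := inv_p (hAp p (mem_filter.mp hp).1).1
        linarith
    have e3 : 0 ≤ ∏ p ∈ A1, (1 - 1 / (p : ℝ)) := prod_nonneg fun p hp => by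
      obtain ⟨x0, x1⟩ := inv_p (hAp p (mem_filter.mp hp).1).1
      linarith
    calc _ ≤ (∏ p ∈ A1, (1 - 1 / (p : ℝ))) * 1 := mul_le_mul_of_nonneg_left e2 e3
      _ = _ := mul_one _
  have h3 : 1 - 4 / (w : ℝ) ≤ ∏ p ∈ A1, (1 - 4 / (p : ℝ) ^ 2) := by
    refine le_trans ?_ (prod_ge_one_sub A1 (fun p => 1 - 4 / (p : ℝ) ^ 2) (fun p => 4 / (p : ℝ) ^ 2) (fun _ _ => le_rfl) (fun _ _ => by positivity) ?_)
    · have e1 := sum_inv_sq A1 w (by omega) (fun p hp => (hAp p (mem_filter.mp hp).1).2)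
      have e2 : ∑ p ∈ A1, 4 / (p : ℝ) ^ 2 = 4 * ∑ p ∈ A1, 1 / (p : ℝ) ^ 2 := by
        rw [mul_sum]
        exact sum_congr rfl fun _ _ => by ring
      rw [e2]
      have e3 : 4 / (w : ℝ) = 4 * (1 / w) := by ring
      rw [e3]
      linarith
    · intro p hp
      obtain ⟨x0, x1⟩ := inv_p (hAp p (mem_filter.mp hp).1).1
      have : 4 / (p : ℝ) ^ 2 = 4 * (1 / p) ^ 2 := by ring
      rw [this]
      nlinarith
  have h4 : 0 ≤ bp rc A := bp_nonneg rc rc_le_one A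
  have h5 : (0 : ℝ) ≤ 1 - 4 / w := by
    rw [sub_nonneg, div_le_one (by linarith)]
    exact hw0
  refine le_trans ?_ h1
  exact mul_le_mul h2 h3 h5 (h4.trans h2)

end Pool.Agent.H537.MM
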