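import Mathlib
import Pool.Agent.H537.MM.Sing2
import Pool.Graph.R_seed8.H378R2.Defs

/-! The tail of the singular series. -/

set_option autoImplicit false
set_option maxHeartbeats 4000000

open Finset Filter Topology

namespace Pool.Agent.H537.MM

open Pool.Agent.N914.MR Pool.Agent.H537.FG Pool.Agent.H378R2

/-- the large prime factors of `DD a` -/
noncomputable def GA {s : ℕ} (z : ℕ) (a : Fin s → ℕ) : ℝ :=
  ∑ p ∈ (DD a).primeFactors.filter (fun p => z < p), 1 / (p : ℝ)

/-- the other primes -/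
def RZ (z ps y : ℕ) : Finset ℕ := (Icc 1 y).filter fun p => p.Prime ∧ (z < p ∨ p = ps)

theorem mem_RZ {z ps y p : ℕ} : p ∈ RZ z ps y ↔ p ≤ y ∧ p.Prime ∧ (z < p ∨ p = ps) := by
  unfold RZ
  rw [mem_filter, mem_Icc]
  constructor
  · rintro ⟨⟨_, h2⟩, h3, h4⟩
    exact ⟨h2, h3, h4⟩
  · rintro ⟨h2, h3, h4⟩
    exact ⟨⟨h3.one_lt.le, h2⟩, h3, h4⟩

theorem SP_split {s : ℕ} (a : Fin s → ℕ) {z ps y : ℕ} (hy : z ≤ y) :
    SP a y = (∏ p ∈ PZ z ps, fac a p) * ∏ p ∈ RZ z ps y, fac a p := by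
  classical
  unfold SP
  have h1 : (Icc 1 y).filter Nat.Prime = PZ z ps ∪ RZ z ps y := by
    ext p
    rw [mem_filter, mem_Icc, mem_union, mem_PZ, mem_RZ]
    constructor
    · rintro ⟨⟨_, h2⟩, h3⟩
      by_cases h4 : p ≤ z ∧ p ≠ ps
      · left
        exact ⟨h4.1, h3, h4.2⟩
      · right
        refine ⟨h2, h3, ?_⟩
        by_cases h5 : z < p
        · left; exact h5
        · right
          by_contra h6
          exact h4 ⟨by omega, h6⟩
    · rintro (⟨h1, h2, _⟩ | ⟨h1, h2, _⟩)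
      · exact ⟨⟨h2.one_lt.le, by omega⟩, h2⟩
      · exact ⟨⟨h2.one_lt.le, h1⟩, h2⟩
  rw [h1, prod_union]
  rw [disjoint_left]
  intro p h2 h3
  rw [mem_PZ] at h2
  rw [mem_RZ] at h3
  rcases h3.2.2 with h4 | h4
  · omega
  · exact h2.2.2 h4

theorem tail_lower {s : ℕ} (a : Fin s → ℕ) {Z z ps y : ℕ} (hps : GoodP Z ps) (hz : s + 1 ≤ z) (hZ : s + 1 ≤ Z) :
    1 - ((s : ℝ) + 1) ^ 2 * (1 / z + 1 / Z) ≤ ∏ p ∈ RZ z ps y, fac a p := by
  classical
  have hz0 : (0 : ℝ) < z := by
    have : 0 < z := by omega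
    exact_mod_cast this
  have hZ0 : (1 : ℝ) ≤ Z := by
    have : 1 ≤ Z := by omega
    exact_mod_cast this
  have hbig : ∀ p ∈ RZ z ps y, p.Prime ∧ s + 1 ≤ p := by
    intro p hp
    rw [mem_RZ] at hp
    refine ⟨hp.2.1, ?_⟩
    rcases hp.2.2 with h | h
    · omega
    · rcases hps with h1 | h1
      · rw [h1] at h
        exact absurd h hp.2.1.one_lt.ne'
      · omega
  refine le_trans ?_ (prod_ge_one_sub (RZ z ps y) (fun p => fac a p) (fun p => ((s : ℝ) + 1) ^ 2 / (p : ℝ) ^ 2)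
    (fun p hp => fac_lower a (hbig p hp).1 (hbig p hp).2) (fun _ _ => by positivity)
    (fun p hp => fac_nonneg a (hbig p hp).1))
  have h1 : ∑ p ∈ RZ z ps y, ((s : ℝ) + 1) ^ 2 / (p : ℝ) ^ 2 ≤
      ∑ p ∈ (RZ z ps y).filter (fun p => z < p), ((s : ℝ) + 1) ^ 2 / (p : ℝ) ^ 2 +
      ∑ p ∈ (RZ z ps y).filter (fun p => ¬ z < p), ((s : ℝ) + 1) ^ 2 / (p : ℝ) ^ 2 := by
    rw [sum_filter_add_sum_filter_not]
  have h2 : ∑ p ∈ (RZ z ps y).filter (fun p => z < p), ((s : ℝ) + 1) ^ 2 / (p : ℝ) ^ 2 ≤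
      ((s : ℝ) + 1) ^ 2 * (1 / z) := by
    have e1 := sum_inv_sq ((RZ z ps y).filter (fun p => z < p)) z (by omega) (fun p hp => (mem_filter.mp hp).2)
    have e2 : ∑ p ∈ (RZ z ps y).filter (fun p => z < p), ((s : ℝ) + 1) ^ 2 / (p : ℝ) ^ 2 =
        ((s : ℝ) + 1) ^ 2 * ∑ p ∈ (RZ z ps y).filter (fun p => z < p), 1 / (p : ℝ) ^ 2 := by
      rw [mul_sum]
      exact sum_congr rfl fun _ _ => by ring
    rw [e2]
    exact mul_le_mul_of_nonneg_left e1 (by positivity)
  have h3 : ∑ p ∈ (RZ z ps y).filter (fun p => ¬ z < p), ((s : ℝ) + 1) ^ 2 / (p : ℝ) ^ 2 ≤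
      ((s : ℝ) + 1) ^ 2 * (1 / Z) := by
    have e1 : (RZ z ps y).filter (fun p => ¬ z < p) ⊆ {ps} := by
      intro p hp
      rw [mem_filter, mem_RZ] at hp
      rw [mem_singleton]
      rcases hp.1.2.2 with h | h
      · exact absurd h hp.2
      · exact h
    rcases (RZ z ps y).filter (fun p => ¬ z < p) |>.eq_empty_or_nonempty with h0 | ⟨q, hq⟩
    · rw [h0, sum_empty]
      positivity
    · have hq1 := mem_singleton.mp (e1 hq)
      have hqp : q.Prime := (hbig q (mem_filter.mp hq).1).1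
      refine (sum_le_sum_of_subset_of_nonneg e1 fun _ _ _ => by positivity).trans ?_
      rw [sum_singleton]
      have h4 : Z < ps := by
        rcases hps with h | h
        · rw [hq1, h] at hqp
          exact absurd rfl hqp.one_lt.ne
        · exact h.2
      have h5 : (Z : ℝ) ≤ ps := by exact_mod_cast h4.le
      have h6 : (Z : ℝ) ≤ (ps : ℝ) ^ 2 := by nlinarith
      rw [div_eq_mul_one_div]
      apply mul_le_mul_of_nonneg_left _ (by positivity)
      exact one_div_le_one_div_of_le (by linarith) h6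
  have h4 : ((s : ℝ) + 1) ^ 2 * (1 / z + 1 / Z) = ((s : ℝ) + 1) ^ 2 * (1 / z) + ((s : ℝ) + 1) ^ 2 * (1 / Z) := by ring
  rw [h4]
  linarith

theorem tail_upper {s : ℕ} (a : Fin s → ℕ) (hmono : StrictMono a) (hpos : ∀ i, 0 < a i) {Z z ps y : ℕ}
    (hps : GoodP Z ps) (hz : 2 * s + 1 ≤ z) (hZ : 2 * s + 1 ≤ Z) :
    ∏ p ∈ RZ z ps y, fac a p ≤ Real.exp (2 * s * (1 / Z + GA z a)) := by
  classical
  have hDD := DD_pos a hmono hpos
  have hZ0 : (1 : ℝ) ≤ Z := by
    have : 1 ≤ Z := by omega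
    exact_mod_cast this
  have hbig : ∀ p ∈ RZ z ps y, p.Prime ∧ 2 * s ≤ p := by
    intro p hp
    rw [mem_RZ] at hp
    refine ⟨hp.2.1, ?_⟩
    rcases hp.2.2 with h | h
    · omega
    · rcases hps with h1 | h1
      · rw [h1] at h
        exact absurd h hp.2.1.one_lt.ne'
      · omega
  have h1 : ∀ p ∈ RZ z ps y, fac a p ≤ Real.exp (if p ∣ DD a then 2 * s * (1 / (p : ℝ)) else 0) := by
    intro p hp
    split_ifs with h
    · refine (fac_upper a (hbig p hp).1 (hbig p hp).2).trans ?_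
      have := Real.add_one_le_exp (2 * (s : ℝ) * (1 / (p : ℝ)))
      have e : 2 * (s : ℝ) / p = 2 * (s : ℝ) * (1 / (p : ℝ)) := by ring
      linarith
    · rw [Real.exp_zero]
      exact fac_le_one a hmono (hbig p hp).1 h
  refine (Finset.prod_le_prod (fun p hp => fac_nonneg a (hbig p hp).1) h1).trans ?_
  rw [← Real.exp_sum]
  apply Real.exp_le_exp.mpr
  rw [← sum_filter, ← mul_sum]
  apply mul_le_mul_of_nonneg_left _ (by positivity)
  rw [← sum_filter_add_sum_filter_not ((RZ z ps y).filter (fun p => p ∣ DD a)) (fun p => z < p), add_comm]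
  apply add_le_add
  · have e1 : ((RZ z ps y).filter (fun p => p ∣ DD a)).filter (fun p => ¬ z < p) ⊆ {ps} := by
      intro p hp
      rw [mem_filter, mem_filter, mem_RZ] at hp
      rw [mem_singleton]
      rcases hp.1.1.2.2 with h | h
      · exact absurd h hp.2
      · exact h
    rcases ((RZ z ps y).filter (fun p => p ∣ DD a)).filter (fun p => ¬ z < p) |>.eq_empty_or_nonempty with h0 | ⟨q, hq⟩
    · rw [h0, sum_empty]
      positivity
    · have hq1 := mem_singleton.mp (e1 hq)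
      have hqp : q.Prime := (hbig q (mem_filter.mp (mem_filter.mp hq).1).1).1
      refine (sum_le_sum_of_subset_of_nonneg e1 fun _ _ _ => by positivity).trans ?_
      rw [sum_singleton]
      have h4 : Z < ps := by
        rcases hps with h | h
        · rw [hq1, h] at hqp
          exact absurd rfl hqp.one_lt.ne
        · exact h.2
      have h5 : (Z : ℝ) ≤ ps := by exact_mod_cast h4.le
      exact one_div_le_one_div_of_le (by linarith) h5
  · unfold GA
    apply sum_le_sum_of_subset_of_nonneg _ fun _ _ _ => by positivity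
    intro p hp
    rw [mem_filter, mem_filter, mem_RZ] at hp
    rw [mem_filter, Nat.mem_primeFactors]
    exact ⟨⟨hp.1.1.2.1, hp.1.2, hDD.ne'⟩, hp.2⟩

/-- the singular series converges, with bounds -/
theorem sing_limit {s : ℕ} (a : Fin s → ℕ) (hmono : StrictMono a) (hpos : ∀ i, 0 < a i) {Z z ps : ℕ}
    (hps : GoodP Z ps) (hz : 2 * s + 1 ≤ z) (hZ : 2 * s + 1 ≤ Z) (C : ℝ) (hC : 0 ≤ C)
    (hCe : ∏ p ∈ PZ z ps, fac a p = C) :
    ∃ σ : ℝ, Tendsto (SP a) atTop (𝓝 σ) ∧ C * (1 - ((s : ℝ) + 1) ^ 2 * (1 / z + 1 / Z)) ≤ σ ∧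
      σ ≤ C * Real.exp (2 * s * (1 / Z + GA z a)) := by
  classical
  have hDD := DD_pos a hmono hpos
  set Y0 := max z (DD a) with hY0
  have hlo : ∀ y, z ≤ y → C * (1 - ((s : ℝ) + 1) ^ 2 * (1 / z + 1 / Z)) ≤ SP a y := by
    intro y hy
    rw [SP_split a (ps := ps) hy, hCe]
    exact mul_le_mul_of_nonneg_left (tail_lower a hps (by omega) (by omega)) hC
  have hup : ∀ y, z ≤ y → SP a y ≤ C * Real.exp (2 * s * (1 / Z + GA z a)) := by
    intro y hy
    rw [SP_split a (ps := ps) hy, hCe]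
    exact mul_le_mul_of_nonneg_left (tail_upper a hmono hpos hps hz hZ) hC
  have hSP0 : ∀ y, 0 ≤ SP a y := fun y => prod_nonneg fun p hp => fac_nonneg a (mem_filter.mp hp).2
  have hstep : ∀ y, Y0 ≤ y → SP a (y + 1) ≤ SP a y := by
    intro y hy
    have h1 : SP a (y + 1) = SP a y * (if (y + 1).Prime then fac a (y + 1) else 1) := by
      unfold SP
      rw [← Finset.insert_Icc_right_eq_Icc_add_one (by omega), filter_insert]
      split_ifs with h
      · rw [prod_insert, mul_comm]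
        rw [mem_filter, mem_Icc]
        omega
      · rw [mul_one]
    rw [h1]
    split_ifs with h
    · have h2 : ¬ (y + 1) ∣ DD a := by
        intro h3
        have h4 := Nat.le_of_dvd hDD h3
        have : DD a ≤ Y0 := le_max_right _ _
        omega
      have h3 := fac_le_one a hmono h h2
      have h4 := hSP0 y
      nlinarith
    · rw [mul_one]
  have hanti : Antitone (fun n => SP a (n + Y0)) := by
    apply antitone_nat_of_succ_le
    intro n
    have := hstep (n + Y0) (by omega)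
    have e : n + 1 + Y0 = n + Y0 + 1 := by omega
    rw [e]
    exact this
  have hbdd : BddBelow (Set.range (fun n => SP a (n + Y0))) := ⟨0, by
    rintro _ ⟨n, rfl⟩
    exact hSP0 _⟩
  have ht := tendsto_atTop_ciInf hanti hbdd
  have ht2 := (tendsto_add_atTop_iff_nat Y0).mp ht
  refine ⟨_, ht2, ?_, ?_⟩
  · apply ge_of_tendsto ht2
    filter_upwards [eventually_ge_atTop z] with y hy
    exact hlo y hy
  · apply le_of_tendsto ht2
    filter_upwards [eventually_ge_atTop z] with y hy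
    exact hup y hy

end Pool.Agent.H537.MM
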