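import Mathlib
import Pool.Agent.H537.MM.Col
import Pool.Agent.H537.MM.Tail

/-! The rows of the matrix. -/

set_option autoImplicit false
set_option maxHeartbeats 4000000

open Finset Filter Topology

namespace Pool.Agent.H537.MM

open Pool.Agent.H378R2 Pool.Agent.H510R2.Maier Pool.Agent.N914.MR Pool.Agent.H537.FG

/-- the scales -/
noncomputable def TT (T : ℝ) (i : ℕ) : ℝ := 3 ^ i * T

/-- the residues -/
def bb {s : ℕ} (b0 : ℕ) (i : Fin (s + 1)) : ℕ := if i = 0 then b0 else 0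

/-- the box -/
noncomputable def box (s : ℕ) (T : ℝ) : Finset (Fin (s + 1) → ℕ) :=
  Fintype.piFinset fun i : Fin (s + 1) => Icc 1 ⌊3 * TT T i⌋₊

/-- the weight of a row -/
noncomputable def wt {s : ℕ} (T : ℝ) (W b0 : ℕ) (a : Fin (s + 1) → ℕ) : ℝ :=
  ∏ i : Fin (s + 1), nu (TT T i) W (bb b0 i) (a i)

/-- the expected total weight -/
noncomputable def MW (s : ℕ) (T : ℝ) (W : ℕ) : ℝ := ∏ i : Fin (s + 1), MPhi (TT T i) * (1 / (W : ℝ))

theorem TT_ge {T : ℝ} (hT : 0 ≤ T) (i : ℕ) : T ≤ TT T i := by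
  unfold TT
  have : (1 : ℝ) ≤ 3 ^ i := one_le_pow₀ (by norm_num)
  nlinarith

theorem wt_nonneg {s : ℕ} (T : ℝ) (W b0 : ℕ) (a : Fin (s + 1) → ℕ) : 0 ≤ wt T W b0 a :=
  prod_nonneg fun _ _ => nu_nonneg _ _ _ _

theorem wt_le_one {s : ℕ} (T : ℝ) (W b0 : ℕ) (a : Fin (s + 1) → ℕ) : wt T W b0 a ≤ 1 := by
  unfold wt
  apply Finset.prod_le_one (fun _ _ => nu_nonneg _ _ _ _)
  intro i _
  unfold nu
  split_ifs
  · exact Phi_le_one _
  · exact zero_le_one

theorem wt_supp {s : ℕ} {T : ℝ} (hT : 0 < T) {W b0 : ℕ} {a : Fin (s + 1) → ℕ} (h : wt T W b0 a ≠ 0) (i : Fin (s + 1)) :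
    TT T i < a i ∧ (a i : ℝ) < 3 * TT T i ∧ a i ≡ bb b0 i [MOD W] := by
  have hTi : 0 < TT T i := lt_of_lt_of_le hT (TT_ge hT.le i)
  have h1 : nu (TT T i) W (bb b0 i) (a i) ≠ 0 := by
    intro h0
    exact h (prod_eq_zero (mem_univ i) h0)
  unfold nu at h1
  split_ifs at h1 with h2
  · refine ⟨?_, ?_, h2⟩
    · by_contra hc
      push Not at hc
      exact h1 (Phi_eq_zero_of_le (by positivity) (by rw [div_le_one hTi]; exact hc))
    · by_contra hc
      push Not at hc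
      apply h1
      apply Phi_eq_zero_of_ge
      rw [le_div_iff₀ hTi]
      have h3 := exp_one_lt_three'
      nlinarith
  · exact absurd rfl h1

theorem wt_mono {s : ℕ} {T : ℝ} (hT : 0 < T) {W b0 : ℕ} {a : Fin (s + 1) → ℕ} (h : wt T W b0 a ≠ 0) :
    StrictMono a := by
  intro i j hij
  have h1 := (wt_supp hT h i).2.1
  have h2 := (wt_supp hT h j).1
  have h3 : 3 * TT T i ≤ TT T j := by
    unfold TT
    have h4 : (3 : ℝ) ^ ((i : ℕ) + 1) ≤ 3 ^ (j : ℕ) := pow_le_pow_right₀ (by norm_num) hij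
    calc 3 * (3 ^ (i : ℕ) * T) = 3 ^ ((i : ℕ) + 1) * T := by ring
      _ ≤ _ := mul_le_mul_of_nonneg_right h4 hT.le
  have h5 : (a i : ℝ) < a j := by linarith
  exact_mod_cast h5

theorem wt_class {s : ℕ} {T : ℝ} (hT : 0 < T) {w z ps r b0 : ℕ} {a : Fin (s + 1) → ℕ}
    (h : wt T (WZ z ps) b0 a ≠ 0)
    (hb : ∀ p : ℕ, p.Prime → p ≤ z → p ≠ ps → ((p ≤ w ∨ p ∣ r) → p ∣ b0) ∧ (w < p → ¬ p ∣ r → p ∣ b0 * r + 1)) :
    InClass w z ps r a := by
  intro p hp hpz hps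
  have hpW : p ∣ WZ z ps := (dvd_WZ hp).mpr ⟨hpz, hps⟩
  have hm : ∀ i, a i ≡ bb b0 i [MOD p] := fun i => (wt_supp hT h i).2.2.of_dvd hpW
  obtain ⟨h1, h2⟩ := hb p hp hpz hps
  refine ⟨fun i hi => ?_, fun h3 => ?_, fun h3 h4 => ?_⟩
  · have := hm i
    unfold bb at this
    rw [if_neg hi] at this
    exact (Nat.modEq_zero_iff_dvd).mp this
  · have := hm 0
    unfold bb at this
    rw [if_pos rfl] at this
    exact (Nat.ModEq.dvd_iff this dvd_rfl).mpr (h1 h3)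
  · have := hm 0
    unfold bb at this
    rw [if_pos rfl] at this
    have h5 : a 0 * r + 1 ≡ b0 * r + 1 [MOD p] := Nat.ModEq.add_right 1 (Nat.ModEq.mul_right r this)
    exact (Nat.ModEq.dvd_iff h5 dvd_rfl).mpr (h2 h3 h4)

/-- sums over one coordinate -/
theorem nu_sum {T : ℝ} (hT : 4 ≤ T) {W : ℕ} (b : ℕ) (hW : 0 < W) (hWT : (W : ℝ) ≤ T) :
    |∑ m ∈ Icc 1 ⌊3 * T⌋₊, nu T W b m - MPhi T * (1 / W)| ≤ 5 := by
  have h1 := phi_sum_class T hT W b hW hWT
  rw [sum_filter] at h1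
  exact h1

theorem nu_sum_dvd {T : ℝ} (hT : 4 ≤ T) {W p : ℕ} (b c : ℕ) (hW : 0 < W) (hp : p.Prime) (hco : ¬ p ∣ W)
    (hWT : ((W * p : ℕ) : ℝ) ≤ T) :
    ∑ m ∈ Icc 1 ⌊3 * T⌋₊, nu T W b m * (if m ≡ c [MOD p] then 1 else 0) ≤ MPhi T * (1 / W) * (1 / p) + 5 := by
  have hcop : W.Coprime p := ((Nat.Prime.coprime_iff_not_dvd hp).mpr hco).symm
  obtain ⟨e, he1, he2⟩ := Nat.chineseRemainder hcop b c
  have h1 := phi_sum_class T hT (W * p) e (Nat.mul_pos hW hp.pos) hWT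
  have h2 : ∑ m ∈ Icc 1 ⌊3 * T⌋₊, nu T W b m * (if m ≡ c [MOD p] then 1 else 0) =
      ∑ n ∈ (Icc 1 ⌊3 * T⌋₊).filter (fun n => n ≡ e [MOD W * p]), Phi (n / T) := by
    rw [sum_filter]
    refine sum_congr rfl fun m _ => ?_
    unfold nu
    have h3 : (m ≡ e [MOD W * p]) ↔ (m ≡ b [MOD W]) ∧ (m ≡ c [MOD p]) := by
      rw [← Nat.modEq_and_modEq_iff_modEq_mul hcop]
      constructor
      · rintro ⟨h4, h5⟩
        exact ⟨h4.trans he1, h5.trans he2⟩
      · rintro ⟨h4, h5⟩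
        exact ⟨h4.trans he1.symm, h5.trans he2.symm⟩
    by_cases h4 : m ≡ b [MOD W]
    · by_cases h5 : m ≡ c [MOD p]
      · rw [if_pos h4, if_pos h5, if_pos (h3.mpr ⟨h4, h5⟩), mul_one]
      · rw [if_neg h5, if_neg (fun h6 => h5 (h3.mp h6).2), mul_zero]
    · rw [if_neg h4, if_neg (fun h6 => h4 (h3.mp h6).1), zero_mul]
  rw [h2]
  have h3 := (abs_le.mp h1).2
  have h4 : MPhi T * (1 / ((W * p : ℕ) : ℝ)) = MPhi T * (1 / W) * (1 / p) := by
    have hW0 : (W : ℝ) ≠ 0 := by exact_mod_cast hW.ne'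
    have hp0 : (p : ℝ) ≠ 0 := by exact_mod_cast hp.pos.ne'
    push_cast
    field_simp
  linarith

theorem sum_wt_mul {s : ℕ} (T : ℝ) (W b0 : ℕ) (g : Fin (s + 1) → ℕ → ℝ) :
    ∑ a ∈ box s T, wt T W b0 a * ∏ i, g i (a i) =
      ∏ i : Fin (s + 1), ∑ m ∈ Icc 1 ⌊3 * TT T i⌋₊, nu (TT T i) W (bb b0 i) m * g i m := by
  unfold box
  rw [Finset.prod_univ_sum]
  refine sum_congr rfl fun a _ => ?_
  unfold wt
  rw [← prod_mul_distrib]

theorem sum_wt {s : ℕ} (T : ℝ) (W b0 : ℕ) :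
    ∑ a ∈ box s T, wt T W b0 a =
      ∏ i : Fin (s + 1), ∑ m ∈ Icc 1 ⌊3 * TT T i⌋₊, nu (TT T i) W (bb b0 i) m := by
  have h1 := sum_wt_mul (s := s) T W b0 (fun _ _ => 1)
  simp only [prod_const_one, mul_one] at h1
  exact h1

theorem MPhi_pos {T : ℝ} (hT : 40 ≤ T) : 0 < MPhi T := lt_of_lt_of_le (by linarith) (MPhi_ge T hT)

theorem MW_pos {s : ℕ} {T : ℝ} (hT : 40 ≤ T) {W : ℕ} (hW : 0 < W) : 0 < MW s T W := by
  unfold MW
  apply prod_pos
  intro i _
  have h1 := MPhi_pos (hT.trans (TT_ge (by linarith) i))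
  have h2 : (0 : ℝ) < W := by exact_mod_cast hW
  positivity

/-- one coordinate, relative error -/
theorem nu_sum_rel {T : ℝ} (hT : 40 ≤ T) {W : ℕ} (b : ℕ) (hW : 0 < W) {δ : ℝ} (hδ1 : δ ≤ 1)
    (hWT : 100 * (W : ℝ) ≤ δ * T) :
    (1 - δ) * (MPhi T * (1 / W)) ≤ ∑ m ∈ Icc 1 ⌊3 * T⌋₊, nu T W b m ∧
      ∑ m ∈ Icc 1 ⌊3 * T⌋₊, nu T W b m ≤ (1 + δ) * (MPhi T * (1 / W)) := by
  have hW0 : (0 : ℝ) < W := by exact_mod_cast hW
  have h1 := abs_le.mp (nu_sum (by linarith) b hW (by nlinarith : (W : ℝ) ≤ T))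
  have h2 : 5 ≤ δ * (MPhi T * (1 / W)) := by
    have h3 := MPhi_ge T hT
    have hδ0 : 0 < δ := by
      by_contra hc
      push Not at hc
      nlinarith
    rw [mul_one_div, mul_div_assoc', le_div_iff₀ hW0]
    nlinarith
  constructor
  · linarith [h1.1]
  · linarith [h1.2]

theorem sum_wt_bounds {s : ℕ} {T : ℝ} (hT : 40 ≤ T) {W : ℕ} (b0 : ℕ) (hW : 0 < W) {δ : ℝ} (hδ1 : δ ≤ 1)
    (hWT : 100 * (W : ℝ) ≤ δ * T) :
    (1 - δ) ^ (s + 1) * MW s T W ≤ ∑ a ∈ box s T, wt T W b0 a ∧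
      ∑ a ∈ box s T, wt T W b0 a ≤ (1 + δ) ^ (s + 1) * MW s T W := by
  have hW0 : (0 : ℝ) < W := by exact_mod_cast hW
  have hδ0 : 0 < δ := by
    by_contra hc
    push Not at hc
    nlinarith
  have hcard : (univ : Finset (Fin (s + 1))).card = s + 1 := by simp
  have e1 : (1 - δ) ^ (s + 1) * MW s T W = ∏ i : Fin (s + 1), (1 - δ) * (MPhi (TT T i) * (1 / (W : ℝ))) := by
    rw [prod_mul_distrib, prod_const, hcard]
    rfl
  have e2 : (1 + δ) ^ (s + 1) * MW s T W = ∏ i : Fin (s + 1), (1 + δ) * (MPhi (TT T i) * (1 / (W : ℝ))) := by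
    rw [prod_mul_distrib, prod_const, hcard]
    rfl
  rw [sum_wt, e1, e2]
  have hTi : ∀ i : Fin (s + 1), 40 ≤ TT T i := fun i => hT.trans (TT_ge (by linarith) i)
  have hWi : ∀ i : Fin (s + 1), 100 * (W : ℝ) ≤ δ * TT T i := fun i =>
    hWT.trans (mul_le_mul_of_nonneg_left (TT_ge (by linarith) i) hδ0.le)
  constructor
  · apply Finset.prod_le_prod
    · intro i _
      have := MPhi_pos (hTi i)
      apply mul_nonneg (by linarith)
      positivity
    · intro i _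
      exact (nu_sum_rel (hTi i) (bb b0 i) hW hδ1 (hWi i)).1
  · apply Finset.prod_le_prod
    · intro i _
      exact sum_nonneg fun _ _ => nu_nonneg _ _ _ _
    · intro i _
      exact (nu_sum_rel (hTi i) (bb b0 i) hW hδ1 (hWi i)).2

/-- several coordinates in a class modulo `p` -/
theorem sum_wt_class {s : ℕ} {T : ℝ} (hT : 40 ≤ T) {W p : ℕ} (b0 c : ℕ) (hW : 0 < W) (hp : p.Prime) (hco : ¬ p ∣ W)
    (hWT : 100 * ((W * p : ℕ) : ℝ) ≤ T) (t : Finset (Fin (s + 1))) :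
    ∑ a ∈ box s T, wt T W b0 a * ∏ i, (if i ∈ t then (if a i ≡ c [MOD p] then (1 : ℝ) else 0) else 1) ≤
      2 ^ (s + 1) * MW s T W * (1 / (p : ℝ)) ^ t.card := by
  have hW0 : (0 : ℝ) < W := by exact_mod_cast hW
  have hp0 : (0 : ℝ) < p := by exact_mod_cast hp.pos
  have hp1 : (1 : ℝ) ≤ p := by exact_mod_cast hp.one_lt.le
  have hTi : ∀ i : Fin (s + 1), 40 ≤ TT T i := fun i => hT.trans (TT_ge (by linarith) i)
  have hWi : ∀ i : Fin (s + 1), 100 * ((W * p : ℕ) : ℝ) ≤ TT T i := fun i => hWT.trans (TT_ge (by linarith) i)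
  have hcard : (univ : Finset (Fin (s + 1))).card = s + 1 := by simp
  rw [sum_wt_mul T W b0 (fun i m => if i ∈ t then (if m ≡ c [MOD p] then (1 : ℝ) else 0) else 1)]
  have e2 : 2 ^ (s + 1) * MW s T W * (1 / (p : ℝ)) ^ t.card =
      ∏ i : Fin (s + 1), 2 * (MPhi (TT T i) * (1 / (W : ℝ))) * (if i ∈ t then 1 / (p : ℝ) else 1) := by
    rw [prod_mul_distrib, prod_mul_distrib, prod_const, hcard, prod_ite_mem, univ_inter, prod_const]
    rfl
  rw [e2]
  apply Finset.prod_le_prod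
  · intro i _
    apply sum_nonneg
    intro m _
    apply mul_nonneg (nu_nonneg _ _ _ _)
    split_ifs <;> norm_num
  · intro i _
    have h1 := MPhi_ge _ (hTi i)
    have h2 := hWi i
    push_cast at h2
    have h3 : 5 ≤ MPhi (TT T i) * (1 / W) * (1 / p) := by
      rw [mul_one_div, mul_one_div, div_div, le_div_iff₀ (by positivity)]
      linarith
    have h4 : MPhi (TT T i) * (1 / W) * (1 / p) ≤ MPhi (TT T i) * (1 / W) := by
      have h5 : 0 ≤ MPhi (TT T i) * (1 / W) := by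
        have := MPhi_pos (hTi i)
        positivity
      have h6 : 1 / (p : ℝ) ≤ 1 := by
        rw [div_le_one hp0]
        exact hp1
      calc MPhi (TT T i) * (1 / W) * (1 / p) ≤ MPhi (TT T i) * (1 / W) * 1 := mul_le_mul_of_nonneg_left h6 h5
        _ = _ := mul_one _
    by_cases hi : i ∈ t
    · simp only [if_pos hi]
      have h5 := nu_sum_dvd (by linarith [hTi i]) (bb b0 i) c hW hp hco (by
        have : (0 : ℝ) ≤ ((W * p : ℕ) : ℝ) := Nat.cast_nonneg _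
        linarith [hWi i] : ((W * p : ℕ) : ℝ) ≤ TT T i)
      linarith
    · simp only [if_neg hi, mul_one]
      have hWle : (W : ℝ) ≤ TT T i := by
        have : (W : ℝ) ≤ W * p := by nlinarith
        have h7 : 0 ≤ (W : ℝ) * p := by positivity
        linarith
      have h5 := (abs_le.mp (nu_sum (by linarith [hTi i]) (bb b0 i) hW hWle)).2
      linarith

/-- rows with `p ∣ DD a` -/
theorem sum_wt_DD {s : ℕ} {T : ℝ} (hT : 40 ≤ T) {W p : ℕ} (b0 : ℕ) (hW : 0 < W) (hp : p.Prime) (hco : ¬ p ∣ W)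
    (hWT : 100 * ((W * p : ℕ) : ℝ) ≤ T) :
    ∑ a ∈ box s T, wt T W b0 a * (if p ∣ DD a then 1 else 0) ≤
      2 ^ (s + 1) * ((s : ℝ) + 2) ^ 2 * MW s T W * (1 / (p : ℝ)) := by
  classical
  have hp0 : (0 : ℝ) < p := by exact_mod_cast hp.pos
  have hM := MW_pos (s := s) hT hW
  set g : ℕ → Finset (Fin (s + 1)) → (Fin (s + 1) → ℕ) → ℝ := fun c t a =>
    ∏ i, (if i ∈ t then (if a i ≡ c [MOD p] then (1 : ℝ) else 0) else 1) with hg
  have hg0 : ∀ c t a, 0 ≤ g c t a := by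
    intro c t a
    rw [hg]
    apply prod_nonneg
    intro i _
    split_ifs <;> norm_num
  have hg1 : ∀ c t a, (∀ i ∈ t, a i ≡ c [MOD p]) → g c t a = 1 := by
    intro c t a h
    rw [hg]
    apply prod_eq_one
    intro i _
    by_cases hi : i ∈ t
    · rw [if_pos hi, if_pos (h i hi)]
    · rw [if_neg hi]
  have hpt : ∀ a ∈ box s T, wt T W b0 a * (if p ∣ DD a then 1 else 0) ≤
      wt T W b0 a * (∑ i, g 0 {i} a + ∑ i, ∑ j, (if i < j then ∑ c ∈ range p, g c {i, j} a else 0)) := by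
    intro a _
    have hn1 : 0 ≤ ∑ i, g 0 {i} a := sum_nonneg fun i _ => hg0 _ _ _
    have hn2 : ∀ i j, 0 ≤ (if i < j then ∑ c ∈ range p, g c {i, j} a else (0 : ℝ)) := by
      intro i j
      split_ifs
      · exact sum_nonneg fun c _ => hg0 _ _ _
      · exact le_rfl
    have hn3 : 0 ≤ ∑ i, ∑ j, (if i < j then ∑ c ∈ range p, g c {i, j} a else (0 : ℝ)) :=
      sum_nonneg fun i _ => sum_nonneg fun j _ => hn2 i j
    by_cases hw0 : wt T W b0 a = 0
    · rw [hw0, zero_mul, zero_mul]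
    apply mul_le_mul_of_nonneg_left _ (wt_nonneg _ _ _ _)
    have hmono := wt_mono (by linarith : 0 < T) hw0
    split_ifs with hd
    · rcases (DD_dvd_iff a hmono hp).mp hd with ⟨i, hi⟩ | ⟨i, j, hij, hd2⟩
      · have h1 : g 0 {i} a = 1 := hg1 _ _ _ fun k hk => by
          rw [mem_singleton] at hk
          rw [hk]
          exact (Nat.modEq_zero_iff_dvd).mpr hi
        have h2 : g 0 {i} a ≤ ∑ i, g 0 {i} a :=
          single_le_sum (f := fun i => g 0 {i} a) (fun i _ => hg0 0 {i} a) (mem_univ i)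
        linarith
      · have h1 : g (a i % p) {i, j} a = 1 := hg1 _ _ _ fun k hk => by
          rw [mem_insert, mem_singleton] at hk
          rcases hk with hk | hk
          · rw [hk]
            exact (Nat.mod_modEq _ _).symm
          · rw [hk]
            refine Nat.ModEq.trans ?_ (Nat.mod_modEq _ _).symm
            exact ((Nat.modEq_iff_dvd' (hmono hij).le).mpr hd2).symm
        have h2 : g (a i % p) {i, j} a ≤ ∑ c ∈ range p, g c {i, j} a :=
          single_le_sum (f := fun c => g c {i, j} a) (fun c _ => hg0 c {i, j} a)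
            (mem_range.mpr (Nat.mod_lt (a i) hp.pos))
        have h3 : (if i < j then ∑ c ∈ range p, g c {i, j} a else (0 : ℝ)) ≤
            ∑ j, if i < j then ∑ c ∈ range p, g c {i, j} a else (0 : ℝ) :=
          single_le_sum (f := fun j => if i < j then ∑ c ∈ range p, g c {i, j} a else (0 : ℝ))
            (fun j _ => hn2 i j) (mem_univ j)
        have h4 : (∑ j, if i < j then ∑ c ∈ range p, g c {i, j} a else (0 : ℝ)) ≤
            ∑ i, ∑ j, if i < j then ∑ c ∈ range p, g c {i, j} a else (0 : ℝ) :=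
          single_le_sum (f := fun i => ∑ j, if i < j then ∑ c ∈ range p, g c {i, j} a else (0 : ℝ))
            (fun i _ => sum_nonneg fun j _ => hn2 i j) (mem_univ i)
        rw [if_pos hij] at h3
        linarith
    · linarith
  refine (sum_le_sum hpt).trans ?_
  have h1 : ∑ a ∈ box s T, wt T W b0 a * (∑ i, g 0 {i} a + ∑ i, ∑ j, (if i < j then ∑ c ∈ range p, g c {i, j} a else 0)) =
      ∑ i, ∑ a ∈ box s T, wt T W b0 a * g 0 {i} a +
        ∑ i, ∑ j, (if i < j then ∑ c ∈ range p, ∑ a ∈ box s T, wt T W b0 a * g c {i, j} a else 0) := by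
    simp only [mul_add, mul_sum, sum_add_distrib]
    congr 1
    · rw [sum_comm]
    · rw [sum_comm]
      refine sum_congr rfl fun i _ => ?_
      rw [sum_comm]
      refine sum_congr rfl fun j _ => ?_
      by_cases hij : i < j
      · simp only [if_pos hij, mul_sum]
        rw [sum_comm]
      · simp only [if_neg hij, mul_zero, sum_const_zero]
  rw [h1]
  set E := 2 ^ (s + 1) * MW s T W * (1 / (p : ℝ)) with hE
  have hE0 : 0 ≤ E := by positivity
  have h2 : ∑ i, ∑ a ∈ box s T, wt T W b0 a * g 0 {i} a ≤ ((s : ℝ) + 1) * E := by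
    have h3 : ∀ i ∈ (univ : Finset (Fin (s + 1))), ∑ a ∈ box s T, wt T W b0 a * g 0 {i} a ≤ E := by
      intro i _
      have h4 := sum_wt_class (s := s) hT b0 0 hW hp hco hWT {i}
      rw [card_singleton, pow_one] at h4
      exact h4
    refine (sum_le_card_nsmul _ _ _ h3).trans ?_
    rw [nsmul_eq_mul]
    simp
  have h3 : ∑ i, ∑ j, (if i < j then ∑ c ∈ range p, ∑ a ∈ box s T, wt T W b0 a * g c {i, j} a else (0 : ℝ)) ≤
      ((s : ℝ) + 1) * (((s : ℝ) + 1) * E) := by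
    have h4 : ∀ i ∈ (univ : Finset (Fin (s + 1))), ∀ j ∈ (univ : Finset (Fin (s + 1))),
        (if i < j then ∑ c ∈ range p, ∑ a ∈ box s T, wt T W b0 a * g c {i, j} a else (0 : ℝ)) ≤ E := by
      intro i _ j _
      split_ifs with hij
      · have h5 : ∀ c ∈ range p, ∑ a ∈ box s T, wt T W b0 a * g c {i, j} a ≤
            2 ^ (s + 1) * MW s T W * (1 / (p : ℝ)) ^ 2 := by
          intro c _
          have h6 := sum_wt_class (s := s) hT b0 c hW hp hco hWT {i, j}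
          rw [card_pair hij.ne] at h6
          exact h6
        refine (sum_le_card_nsmul _ _ _ h5).trans (le_of_eq ?_)
        rw [nsmul_eq_mul, card_range, hE]
        field_simp
      · exact hE0
    have h5 : ∀ i ∈ (univ : Finset (Fin (s + 1))),
        ∑ j, (if i < j then ∑ c ∈ range p, ∑ a ∈ box s T, wt T W b0 a * g c {i, j} a else (0 : ℝ)) ≤ ((s : ℝ) + 1) * E := by
      intro i hi
      refine (sum_le_card_nsmul _ _ _ (h4 i hi)).trans ?_
      rw [nsmul_eq_mul]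
      simp
    refine (sum_le_card_nsmul _ _ _ h5).trans ?_
    rw [nsmul_eq_mul]
    simp
  have h4 : 2 ^ (s + 1) * ((s : ℝ) + 2) ^ 2 * MW s T W * (1 / (p : ℝ)) = ((s : ℝ) + 2) ^ 2 * E := by
    rw [hE]
    ring
  rw [h4]
  have hs0 : (0 : ℝ) ≤ s := Nat.cast_nonneg _
  nlinarith

end Pool.Agent.H537.MM
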