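import Mathlib
import Pool.Agent.H537.MM.Rows

/-! The average of the tail of the singular series. -/

set_option autoImplicit false
set_option maxHeartbeats 4000000

open Finset Filter Topology

namespace Pool.Agent.H537.MM

open Pool.Agent.H378R2 Pool.Agent.H510R2.Maier Pool.Agent.N914.MR Pool.Agent.H537.FG

theorem card_big {E Y : ℕ} (hE : E ≠ 0) (hY : 0 < Y) :
    ((E.primeFactors.filter (fun p => Y < p)).card : ℝ) * Real.log Y ≤ Real.log E := by
  have h1 : Y ^ (E.primeFactors.filter (fun p => Y < p)).card ≤ E := by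
    calc Y ^ (E.primeFactors.filter (fun p => Y < p)).card = ∏ _p ∈ E.primeFactors.filter (fun p => Y < p), Y := by
          rw [prod_const]
      _ ≤ ∏ p ∈ E.primeFactors.filter (fun p => Y < p), p :=
          prod_le_prod' fun p hp => (mem_filter.mp hp).2.le
      _ ≤ ∏ p ∈ E.primeFactors, p := prod_le_prod_of_subset_of_one_le' (filter_subset _ _)
          fun p hp _ => (Nat.prime_of_mem_primeFactors hp).one_lt.le
      _ ≤ E := Nat.le_of_dvd (Nat.pos_of_ne_zero hE) (Nat.prod_primeFactors_dvd E)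
  have h2 : ((Y : ℝ)) ^ (E.primeFactors.filter (fun p => Y < p)).card ≤ E := by exact_mod_cast h1
  have hY0 : (0 : ℝ) < Y := by exact_mod_cast hY
  have h3 := Real.log_le_log (by positivity) h2
  rwa [Real.log_pow] at h3

theorem DD_le {s : ℕ} (a : Fin (s + 1) → ℕ) {U : ℝ} (hU : 1 ≤ U) (ha : ∀ i, (a i : ℝ) ≤ U) :
    (DD a : ℝ) ≤ U ^ ((s + 2) ^ 2) := by
  unfold DD
  push_cast
  have h1 : ∏ i, (a i : ℝ) ≤ U ^ (s + 1) := by
    calc ∏ i, (a i : ℝ) ≤ ∏ _i : Fin (s + 1), U := Finset.prod_le_prod (fun _ _ => Nat.cast_nonneg _) fun i _ => ha i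
      _ = U ^ (s + 1) := by rw [prod_const]; simp
  have h2 : ∀ i j, (0 : ℝ) ≤ (if i < j then ((a j - a i : ℕ) : ℝ) else 1) ∧
      (if i < j then ((a j - a i : ℕ) : ℝ) else 1) ≤ U := by
    intro i j
    split_ifs
    · refine ⟨Nat.cast_nonneg _, ?_⟩
      have : ((a j - a i : ℕ) : ℝ) ≤ a j := by exact_mod_cast Nat.sub_le _ _
      exact this.trans (ha j)
    · exact ⟨zero_le_one, hU⟩
  have h3 : ∏ i, ∏ j, (if i < j then ((a j - a i : ℕ) : ℝ) else 1) ≤ U ^ ((s + 1) * (s + 1)) := by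
    calc ∏ i, ∏ j, (if i < j then ((a j - a i : ℕ) : ℝ) else 1) ≤ ∏ _i : Fin (s + 1), U ^ (s + 1) := by
          apply Finset.prod_le_prod (fun i _ => prod_nonneg fun j _ => (h2 i j).1)
          intro i _
          calc ∏ j, (if i < j then ((a j - a i : ℕ) : ℝ) else 1) ≤ ∏ _j : Fin (s + 1), U :=
                Finset.prod_le_prod (fun j _ => (h2 i j).1) fun j _ => (h2 i j).2
            _ = U ^ (s + 1) := by rw [prod_const]; simp
      _ = U ^ ((s + 1) * (s + 1)) := by rw [prod_const, ← pow_mul]; simp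
  have h4 : (∏ i, (a i : ℝ)) * ∏ i, ∏ j, (if i < j then ((a j - a i : ℕ) : ℝ) else 1) ≤
      U ^ (s + 1) * U ^ ((s + 1) * (s + 1)) :=
    mul_le_mul h1 h3 (prod_nonneg fun i _ => prod_nonneg fun j _ => (h2 i j).1) (by positivity)
  refine le_trans (le_of_eq ?_) (h4.trans ?_)
  · congr 1
  · rw [← pow_add]
    apply pow_le_pow_right₀ hU
    nlinarith

/-- the part of `GA` from the primes `≤ Y` -/
noncomputable def G1 {s : ℕ} (z Y : ℕ) (a : Fin s → ℕ) : ℝ :=
  ∑ p ∈ (Ioc z Y).filter Nat.Prime, (1 / (p : ℝ)) * (if p ∣ DD a then 1 else 0)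

theorem G1_nonneg {s : ℕ} (z Y : ℕ) (a : Fin s → ℕ) : 0 ≤ G1 z Y a := by
  unfold G1
  apply sum_nonneg
  intro p _
  split_ifs <;> positivity

theorem G1_le {s : ℕ} {z Y : ℕ} (a : Fin s → ℕ) {G0 : ℝ} (hG0 : ∑ p ∈ (Ioc z Y).filter Nat.Prime, 1 / (p : ℝ) ≤ G0) :
    G1 z Y a ≤ G0 := by
  refine le_trans ?_ hG0
  unfold G1
  apply sum_le_sum
  intro p _
  split_ifs
  · rw [mul_one]
  · rw [mul_zero]
    positivity

theorem GA_le {s : ℕ} {T : ℝ} (hT : 1 ≤ T) {W b0 z Y : ℕ} (hY : 3 ≤ Y) {a : Fin (s + 1) → ℕ}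
    (ha : wt T W b0 a ≠ 0) :
    GA z a ≤ G1 z Y a + ((s : ℝ) + 2) ^ 2 * Real.log (3 ^ (s + 1) * T) / Y := by
  classical
  have hT0 : 0 < T := by linarith
  have hmono := wt_mono hT0 ha
  have hpos : ∀ i, 0 < a i := by
    intro i
    have h1 := (wt_supp hT0 ha i).1
    have h2 := TT_ge hT0.le (i : ℕ)
    have : (0 : ℝ) < a i := by linarith
    exact_mod_cast this
  have hDD := DD_pos a hmono hpos
  have hY0 : (0 : ℝ) < Y := by
    have : 0 < Y := by omega
    exact_mod_cast this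
  have hlY : 1 ≤ Real.log Y := by
    rw [Real.le_log_iff_exp_le hY0]
    have h3 : (3 : ℝ) ≤ Y := by exact_mod_cast hY
    have := exp_one_lt_three'
    linarith
  have hU : 1 ≤ 3 ^ (s + 1) * T := by
    have : (1 : ℝ) ≤ 3 ^ (s + 1) := one_le_pow₀ (by norm_num)
    nlinarith
  have haU : ∀ i, (a i : ℝ) ≤ 3 ^ (s + 1) * T := by
    intro i
    have h1 := (wt_supp hT0 ha i).2.1
    have h2 : 3 * TT T i ≤ 3 ^ (s + 1) * T := by
      unfold TT
      have h3 : (3 : ℝ) ^ ((i : ℕ) + 1) ≤ 3 ^ (s + 1) := pow_le_pow_right₀ (by norm_num) (by omega)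
      calc 3 * (3 ^ (i : ℕ) * T) = 3 ^ ((i : ℕ) + 1) * T := by ring
        _ ≤ _ := mul_le_mul_of_nonneg_right h3 hT0.le
    linarith
  have hlog : Real.log (DD a) ≤ ((s : ℝ) + 2) ^ 2 * Real.log (3 ^ (s + 1) * T) := by
    have h1 := Real.log_le_log (by exact_mod_cast hDD) (DD_le a hU haU)
    rw [Real.log_pow] at h1
    push_cast at h1
    exact h1
  unfold GA
  rw [← sum_filter_add_sum_filter_not ((DD a).primeFactors.filter (fun p => z < p)) (fun p => p ≤ Y)]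
  apply add_le_add
  · unfold G1
    have h1 : ∑ p ∈ (Ioc z Y).filter Nat.Prime, (1 / (p : ℝ)) * (if p ∣ DD a then 1 else 0) =
        ∑ p ∈ ((Ioc z Y).filter Nat.Prime).filter (fun p => p ∣ DD a), 1 / (p : ℝ) := by
      rw [sum_filter (s := (Ioc z Y).filter Nat.Prime)]
      refine sum_congr rfl fun p _ => ?_
      split_ifs <;> simp
    rw [h1]
    apply sum_le_sum_of_subset_of_nonneg _ fun _ _ _ => by positivity
    intro p hp
    rw [mem_filter, mem_filter, Nat.mem_primeFactors] at hp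
    rw [mem_filter, mem_filter, mem_Ioc]
    exact ⟨⟨⟨hp.1.2, hp.2⟩, hp.1.1.1⟩, hp.1.1.2.1⟩
  · have h1 : ∑ p ∈ ((DD a).primeFactors.filter (fun p => z < p)).filter (fun p => ¬ p ≤ Y), 1 / (p : ℝ) ≤
        ∑ _p ∈ (DD a).primeFactors.filter (fun p => Y < p), 1 / (Y : ℝ) := by
      refine le_trans (sum_le_sum_of_subset_of_nonneg (t := (DD a).primeFactors.filter (fun p => Y < p)) ?_
        fun _ _ _ => by positivity) (sum_le_sum ?_)
      · intro p hp
        rw [mem_filter, mem_filter] at hp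
        rw [mem_filter]
        exact ⟨hp.1.1, by omega⟩
      · intro p hp
        rw [mem_filter] at hp
        apply one_div_le_one_div_of_le hY0
        exact_mod_cast hp.2.le
    refine h1.trans ?_
    rw [sum_const, nsmul_eq_mul, mul_one_div]
    apply div_le_div_of_nonneg_right _ hY0.le
    have h2 := card_big hDD.ne' (by omega : 0 < Y)
    have h3 : (0 : ℝ) ≤ ((DD a).primeFactors.filter (fun p => Y < p)).card := Nat.cast_nonneg _
    nlinarith

/-- the average of `G1` -/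
theorem avg_G1 {s : ℕ} {T : ℝ} (hT : 40 ≤ T) {z ps Y b0 : ℕ} (hz : 1 ≤ z)
    (hWT : 100 * ((WZ z ps * Y : ℕ) : ℝ) ≤ T) :
    ∑ a ∈ box s T, wt T (WZ z ps) b0 a * G1 z Y a ≤
      2 ^ (s + 1) * ((s : ℝ) + 2) ^ 2 * MW s T (WZ z ps) * (1 / z) := by
  classical
  have hW := WZ_pos z ps
  have hM := MW_pos (s := s) hT hW
  have h1 : ∑ a ∈ box s T, wt T (WZ z ps) b0 a * G1 z Y a =
      ∑ p ∈ (Ioc z Y).filter Nat.Prime, (1 / (p : ℝ)) * ∑ a ∈ box s T, wt T (WZ z ps) b0 a * (if p ∣ DD a then 1 else 0) := by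
    unfold G1
    simp only [mul_sum]
    rw [sum_comm]
    refine sum_congr rfl fun p _ => sum_congr rfl fun a _ => by ring
  rw [h1]
  have h2 : ∀ p ∈ (Ioc z Y).filter Nat.Prime,
      (1 / (p : ℝ)) * ∑ a ∈ box s T, wt T (WZ z ps) b0 a * (if p ∣ DD a then 1 else 0) ≤
        2 ^ (s + 1) * ((s : ℝ) + 2) ^ 2 * MW s T (WZ z ps) * (1 / (p : ℝ) ^ 2) := by
    intro p hp
    rw [mem_filter, mem_Ioc] at hp
    obtain ⟨⟨hp1, hp2⟩, hpp⟩ := hp
    have hnd : ¬ p ∣ WZ z ps := by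
      intro hd
      have := ((dvd_WZ hpp).mp hd).1
      omega
    have hle : 100 * ((WZ z ps * p : ℕ) : ℝ) ≤ T := by
      refine le_trans ?_ hWT
      have h3 : WZ z ps * p ≤ WZ z ps * Y := Nat.mul_le_mul_left _ hp2
      have h4 : ((WZ z ps * p : ℕ) : ℝ) ≤ ((WZ z ps * Y : ℕ) : ℝ) := by exact_mod_cast h3
      linarith
    have h3 := sum_wt_DD (s := s) hT b0 hW hpp hnd hle
    have h4 := mul_le_mul_of_nonneg_left h3 (by positivity : (0 : ℝ) ≤ 1 / (p : ℝ))
    refine h4.trans (le_of_eq ?_)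
    ring
  refine (sum_le_sum h2).trans ?_
  rw [← mul_sum]
  apply mul_le_mul_of_nonneg_left _ (by positivity)
  apply sum_inv_sq _ _ hz
  intro p hp
  exact (mem_Ioc.mp (mem_filter.mp hp).1).1

theorem exp_le_aux {x X : ℝ} (h0 : 0 ≤ x) (h1 : x ≤ X) : Real.exp x ≤ 1 + x * Real.exp X := by
  have e1 : 1 - x ≤ Real.exp (-x) := by
    have := Real.add_one_le_exp (-x)
    linarith
  have e2 : Real.exp x * Real.exp (-x) = 1 := by
    rw [← Real.exp_add]
    simp
  have e3 : Real.exp x ≤ Real.exp X := Real.exp_le_exp.mpr h1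
  have e4 : 0 < Real.exp x := Real.exp_pos x
  have e5 : Real.exp x * (1 - x) ≤ 1 := (mul_le_mul_of_nonneg_left e1 e4.le).trans e2.le
  have e6 : x * Real.exp x ≤ x * Real.exp X := mul_le_mul_of_nonneg_left e3 h0
  linarith

/-- the average of the tail -/
theorem avg_exp {s : ℕ} {T : ℝ} (hT : 40 ≤ T) {z ps Y b0 : ℕ} (hz : 1 ≤ z) (hY : 3 ≤ Y)
    (hWT : 100 * ((WZ z ps * Y : ℕ) : ℝ) ≤ T) {G0 m c : ℝ} (hm : 0 ≤ m)
    (hG0 : ∑ p ∈ (Ioc z Y).filter Nat.Prime, 1 / (p : ℝ) ≤ G0) :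
    ∑ a ∈ box s T, wt T (WZ z ps) b0 a * Real.exp (m * (c + GA z a)) ≤
      Real.exp (m * (c + ((s : ℝ) + 2) ^ 2 * Real.log (3 ^ (s + 1) * T) / Y)) *
        (∑ a ∈ box s T, wt T (WZ z ps) b0 a +
          m * Real.exp (m * G0) * (2 ^ (s + 1) * ((s : ℝ) + 2) ^ 2 * MW s T (WZ z ps) * (1 / z))) := by
  have hG00 : 0 ≤ G0 := le_trans (sum_nonneg fun _ _ => by positivity) hG0
  set g2 := ((s : ℝ) + 2) ^ 2 * Real.log (3 ^ (s + 1) * T) / Y with hg2
  have h1 : ∀ a ∈ box s T, wt T (WZ z ps) b0 a * Real.exp (m * (c + GA z a)) ≤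
      Real.exp (m * (c + g2)) * (wt T (WZ z ps) b0 a + m * Real.exp (m * G0) * (wt T (WZ z ps) b0 a * G1 z Y a)) := by
    intro a _
    by_cases ha : wt T (WZ z ps) b0 a = 0
    · rw [ha]
      simp
    have h2 := GA_le (z := z) (Y := Y) (by linarith : (1 : ℝ) ≤ T) hY ha
    have h3 := G1_nonneg z Y a
    have h4 := G1_le a hG0
    have h5 : Real.exp (m * (c + GA z a)) ≤ Real.exp (m * (c + g2)) * Real.exp (m * G1 z Y a) := by
      rw [← Real.exp_add]
      apply Real.exp_le_exp.mpr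
      have : m * (c + GA z a) ≤ m * (c + (G1 z Y a + g2)) := mul_le_mul_of_nonneg_left (by linarith) hm
      linarith
    have h6 : Real.exp (m * G1 z Y a) ≤ 1 + m * G1 z Y a * Real.exp (m * G0) :=
      exp_le_aux (mul_nonneg hm h3) (mul_le_mul_of_nonneg_left h4 hm)
    have h7 : Real.exp (m * (c + GA z a)) ≤ Real.exp (m * (c + g2)) * (1 + m * G1 z Y a * Real.exp (m * G0)) :=
      h5.trans (mul_le_mul_of_nonneg_left h6 (Real.exp_pos _).le)
    have h8 := mul_le_mul_of_nonneg_left h7 (wt_nonneg T (WZ z ps) b0 a)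
    refine h8.trans (le_of_eq ?_)
    ring
  refine (sum_le_sum h1).trans ?_
  rw [← mul_sum, sum_add_distrib, ← mul_sum]
  apply mul_le_mul_of_nonneg_left _ (Real.exp_pos _).le
  apply add_le_add le_rfl
  apply mul_le_mul_of_nonneg_left _ (by positivity)
  exact avg_G1 hT hz hWT

end Pool.Agent.H537.MM
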