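import Mathlib
import Pool.Agent.H537.MM.Rows

/-! The columns of the matrix. -/

set_option autoImplicit false
set_option maxHeartbeats 4000000

open Finset Filter Topology

namespace Pool.Agent.H537.MM

open Pool.Agent.H378R2 Pool.Agent.H510R2.Maier Pool.Agent.N914.MR Pool.Agent.H537.FG

/-- the number of the `n ∈ N` for which all `a_i n + 1` are primes -/
def cntN {s : ℕ} (N : Finset ℕ) (a : Fin s → ℕ) : ℕ := (N.filter fun n => ∀ i, (a i * n + 1).Prime).card

/-- the weight of the rows with primes in the column `n` -/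
noncomputable def cn (s : ℕ) (T : ℝ) (W b0 n : ℕ) : ℝ :=
  ∑ a ∈ box s T, wt T W b0 a * (if ∀ i, (a i * n + 1).Prime then 1 else 0)

/-- the expected weight of a column -/
noncomputable def HH (s : ℕ) (T : ℝ) (W : ℕ) : ℝ :=
  (∏ i : Fin (s + 1), MPhi (TT T i) / (W.totient : ℝ)) / Real.log T ^ (s + 1)

theorem HH_eq (s : ℕ) (T : ℝ) {W : ℕ} (hW : 0 < W) :
    HH s T W = MW s T W * ((W : ℝ) / W.totient) ^ (s + 1) / Real.log T ^ (s + 1) := by
  have hW0 : (W : ℝ) ≠ 0 := by exact_mod_cast hW.ne'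
  unfold HH MW
  congr 1
  have h1 : ((W : ℝ) / W.totient) ^ (s + 1) = ∏ _i : Fin (s + 1), ((W : ℝ) / W.totient) := by
    rw [prod_const]
    simp
  rw [h1, ← prod_mul_distrib]
  refine prod_congr rfl fun i _ => ?_
  field_simp

theorem HH_pos {s : ℕ} {T : ℝ} (hT : 40 ≤ T) {W : ℕ} (hW : 0 < W) : 0 < HH s T W := by
  have hl : 0 < Real.log T := Real.log_pos (by linarith)
  have hφ : (0 : ℝ) < W.totient := by exact_mod_cast Nat.totient_pos.mpr hW
  unfold HH
  apply div_pos _ (by positivity)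
  apply prod_pos
  intro i _
  exact div_pos (MPhi_pos (hT.trans (TT_ge (by linarith) i))) hφ

theorem sum_cnt {s : ℕ} (T : ℝ) (W b0 : ℕ) (N : Finset ℕ) :
    ∑ a ∈ box s T, wt T W b0 a * (cntN N a : ℝ) = ∑ n ∈ N, cn s T W b0 n := by
  classical
  unfold cn cntN
  rw [sum_comm]
  refine sum_congr rfl fun a _ => ?_
  rw [← mul_sum, ← sum_filter, sum_const, nsmul_eq_mul, mul_one]

theorem cn_nonneg (s : ℕ) (T : ℝ) (W b0 n : ℕ) : 0 ≤ cn s T W b0 n := by
  unfold cn
  apply sum_nonneg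
  intro a _
  apply mul_nonneg (wt_nonneg _ _ _ _)
  split_ifs <;> norm_num

theorem cn_le (s : ℕ) (T : ℝ) (W b0 n : ℕ) : cn s T W b0 n ≤ ∑ a ∈ box s T, wt T W b0 a := by
  unfold cn
  apply sum_le_sum
  intro a _
  have := wt_nonneg T W b0 a
  split_ifs
  · rw [mul_one]
  · rw [mul_zero]
    exact this

theorem col_prod {s : ℕ} (T : ℝ) (W b0 n : ℕ) :
    ∑ a ∈ box s T, wt T W b0 a * ∏ i, th (a i * n + 1) =
      ∏ i : Fin (s + 1), colM (TT T i) W (bb b0 i) n := by
  rw [sum_wt_mul T W b0 (fun _ m => th (m * n + 1))]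
  rfl

theorem col_lower {s : ℕ} {T : ℝ} (hT : 1 ≤ T) (W b0 : ℕ) {n : ℕ} (hn : 1 ≤ n) :
    Real.log T ^ (s + 1) * cn s T W b0 n ≤ ∏ i : Fin (s + 1), colM (TT T i) W (bb b0 i) n := by
  rw [← col_prod]
  unfold cn
  rw [mul_sum]
  apply sum_le_sum
  intro a _
  by_cases ha : wt T W b0 a = 0
  · rw [ha]
    simp
  have hT0 : 0 < T := by linarith
  have hn1 : (1 : ℝ) ≤ n := by exact_mod_cast hn
  have h0 : 0 ≤ Real.log T := Real.log_nonneg hT
  have hth : ∀ m, 0 ≤ th m := by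
    intro m
    unfold th
    split_ifs with h
    · exact Real.log_nonneg (by exact_mod_cast h.one_lt.le)
    · exact le_rfl
  have key : Real.log T ^ (s + 1) * (if ∀ i, (a i * n + 1).Prime then (1 : ℝ) else 0) ≤ ∏ i, th (a i * n + 1) := by
    split_ifs with h
    · rw [mul_one]
      have e1 : Real.log T ^ (s + 1) = ∏ _i : Fin (s + 1), Real.log T := by rw [prod_const]; simp
      rw [e1]
      apply Finset.prod_le_prod (fun _ _ => h0)
      intro i _
      unfold th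
      rw [if_pos (h i)]
      apply Real.log_le_log hT0
      have h1 := (wt_supp hT0 ha i).1
      have h2 := TT_ge hT0.le (i : ℕ)
      push_cast
      nlinarith
    · rw [mul_zero]
      exact prod_nonneg fun i _ => hth _
  calc Real.log T ^ (s + 1) * (wt T W b0 a * (if ∀ i, (a i * n + 1).Prime then (1 : ℝ) else 0)) =
      wt T W b0 a * (Real.log T ^ (s + 1) * (if ∀ i, (a i * n + 1).Prime then (1 : ℝ) else 0)) := by ring
    _ ≤ _ := mul_le_mul_of_nonneg_left key (wt_nonneg _ _ _ _)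

theorem col_upper {s : ℕ} {T : ℝ} (hT : 1 ≤ T) (W b0 : ℕ) {n x : ℕ} (hnx : n ≤ x) {D : ℝ}
    (hD : Real.log (3 ^ (s + 1) * T * x + 1) ≤ D) :
    ∏ i : Fin (s + 1), colM (TT T i) W (bb b0 i) n ≤ D ^ (s + 1) * cn s T W b0 n := by
  rw [← col_prod]
  unfold cn
  rw [mul_sum]
  apply sum_le_sum
  intro a _
  by_cases ha : wt T W b0 a = 0
  · rw [ha]
    simp
  have hT0 : 0 < T := by linarith
  have hnx' : (n : ℝ) ≤ x := by exact_mod_cast hnx
  have key : ∏ i, th (a i * n + 1) ≤ D ^ (s + 1) * (if ∀ i, (a i * n + 1).Prime then (1 : ℝ) else 0) := by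
    split_ifs with h
    · rw [mul_one]
      have e1 : D ^ (s + 1) = ∏ _i : Fin (s + 1), D := by rw [prod_const]; simp
      rw [e1]
      apply Finset.prod_le_prod
      · intro i _
        unfold th
        rw [if_pos (h i)]
        exact Real.log_nonneg (by exact_mod_cast (h i).one_lt.le)
      intro i _
      unfold th
      rw [if_pos (h i)]
      refine le_trans ?_ hD
      apply Real.log_le_log (by positivity)
      have h1 := (wt_supp hT0 ha i).2.1
      have h2 : 3 * TT T i ≤ 3 ^ (s + 1) * T := by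
        unfold TT
        have h3 : (3 : ℝ) ^ ((i : ℕ) + 1) ≤ 3 ^ (s + 1) := pow_le_pow_right₀ (by norm_num) (by omega)
        calc 3 * (3 ^ (i : ℕ) * T) = 3 ^ ((i : ℕ) + 1) * T := by ring
          _ ≤ _ := mul_le_mul_of_nonneg_right h3 hT0.le
      push_cast
      have h4 : (a i : ℝ) * n ≤ 3 ^ (s + 1) * T * x := by
        apply mul_le_mul (by linarith) hnx' (Nat.cast_nonneg _) (by positivity)
      linarith
    · push Not at h
      obtain ⟨i, hi⟩ := h
      rw [mul_zero]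
      apply le_of_eq
      apply prod_eq_zero (mem_univ i)
      unfold th
      rw [if_neg hi]
  calc wt T W b0 a * ∏ i, th (a i * n + 1) ≤
      wt T W b0 a * (D ^ (s + 1) * (if ∀ i, (a i * n + 1).Prime then (1 : ℝ) else 0)) :=
        mul_le_mul_of_nonneg_left key (wt_nonneg _ _ _ _)
    _ = _ := by ring

/-- the columns which are empty -/
theorem cn_zero {s : ℕ} {T : ℝ} (hT : 4 ≤ T) {W b0 n : ℕ} (hn : 1 ≤ n)
    (hWp : ∀ p : ℕ, p.Prime → p ∣ W → (p : ℝ) ≤ T) (hco : ¬ (b0 * n + 1).Coprime W) : cn s T W b0 n = 0 := by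
  have h1 := col_lower (s := s) (by linarith : (1 : ℝ) ≤ T) W b0 hn
  have h2 : ∏ i : Fin (s + 1), colM (TT T i) W (bb b0 i) n = 0 := by
    apply prod_eq_zero (mem_univ (0 : Fin (s + 1)))
    have h3 : bb (s := s) b0 0 = b0 := by
      unfold bb
      rw [if_pos rfl]
    rw [h3]
    apply colM_zero (hT.trans (TT_ge (by linarith) _)) _ hn hco
    intro p hp hpW
    exact (hWp p hp hpW).trans (TT_ge (by linarith) _)
  rw [h2] at h1
  have h4 : 0 < Real.log T ^ (s + 1) := pow_pos (Real.log_pos (by linarith)) _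
  have h5 := cn_nonneg s T W b0 n
  have h6 : cn s T W b0 n ≤ 0 := by
    by_contra hc
    push Not at hc
    have : 0 < Real.log T ^ (s + 1) * cn s T W b0 n := by positivity
    linarith
  linarith

/-- the columns which are not empty -/
theorem cn_main {s : ℕ} {T : ℝ} (hT : 40 ≤ T) {W b0 n x : ℕ} (hW : 0 < W) (hn : 1 ≤ n) (hnx : n ≤ x) {δ : ℝ}
    (hδ0 : 0 ≤ δ) (hδ1 : δ ≤ 1) (hD : Real.log (3 ^ (s + 1) * T * x + 1) ≤ (1 + δ) * Real.log T)
    (hcol : ∀ i : Fin (s + 1), |colM (TT T i) W (bb b0 i) n - MPhi (TT T i) / W.totient| ≤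
      δ / 20 * (TT T i / W.totient)) :
    (1 - δ) ^ (s + 1) * HH s T W ≤ (1 + δ) ^ (s + 1) * cn s T W b0 n ∧
      cn s T W b0 n ≤ (1 + δ) ^ (s + 1) * HH s T W := by
  have hφ : (0 : ℝ) < W.totient := by exact_mod_cast Nat.totient_pos.mpr hW
  have hl : 0 < Real.log T := Real.log_pos (by linarith)
  have hTi : ∀ i : Fin (s + 1), 40 ≤ TT T i := fun i => hT.trans (TT_ge (by linarith) i)
  have hrel : ∀ i : Fin (s + 1), (1 - δ) * (MPhi (TT T i) / W.totient) ≤ colM (TT T i) W (bb b0 i) n ∧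
      colM (TT T i) W (bb b0 i) n ≤ (1 + δ) * (MPhi (TT T i) / W.totient) := by
    intro i
    have h1 := abs_le.mp (hcol i)
    have h2 : δ / 20 * (TT T i / W.totient) ≤ δ * (MPhi (TT T i) / W.totient) := by
      have h3 := MPhi_ge _ (hTi i)
      have h4 : TT T i / W.totient / 20 ≤ MPhi (TT T i) / W.totient := by
        rw [div_right_comm]
        exact div_le_div_of_nonneg_right h3 hφ.le
      calc δ / 20 * (TT T i / W.totient) = δ * (TT T i / W.totient / 20) := by ring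
        _ ≤ _ := mul_le_mul_of_nonneg_left h4 hδ0
    constructor
    · linarith [h1.1]
    · linarith [h1.2]
  have hM0 : ∀ i : Fin (s + 1), 0 ≤ MPhi (TT T i) / (W.totient : ℝ) := fun i =>
    (div_pos (MPhi_pos (hTi i)) hφ).le
  have hP : ∏ i : Fin (s + 1), MPhi (TT T i) / (W.totient : ℝ) = HH s T W * Real.log T ^ (s + 1) := by
    unfold HH
    rw [div_mul_cancel₀ _ (pow_pos hl _).ne']
  have hlow : (1 - δ) ^ (s + 1) * (HH s T W * Real.log T ^ (s + 1)) ≤
      ∏ i : Fin (s + 1), colM (TT T i) W (bb b0 i) n := by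
    have e1 : (1 - δ) ^ (s + 1) = ∏ _i : Fin (s + 1), (1 - δ) := by rw [prod_const]; simp
    rw [← hP, e1, ← prod_mul_distrib]
    apply Finset.prod_le_prod
    · intro i _
      exact mul_nonneg (by linarith) (hM0 i)
    · intro i _
      exact (hrel i).1
  have hupp : ∏ i : Fin (s + 1), colM (TT T i) W (bb b0 i) n ≤
      (1 + δ) ^ (s + 1) * (HH s T W * Real.log T ^ (s + 1)) := by
    have e1 : (1 + δ) ^ (s + 1) = ∏ _i : Fin (s + 1), (1 + δ) := by rw [prod_const]; simp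
    rw [← hP, e1, ← prod_mul_distrib]
    apply Finset.prod_le_prod
    · intro i _
      exact (mul_nonneg (by linarith) (hM0 i)).trans (hrel i).1
    · intro i _
      exact (hrel i).2
  have h1 := col_lower (s := s) (by linarith : (1 : ℝ) ≤ T) W b0 hn
  have h2 := col_upper (s := s) (by linarith : (1 : ℝ) ≤ T) W b0 hnx hD
  have hlp : 0 < Real.log T ^ (s + 1) := pow_pos hl _
  constructor
  · rw [mul_pow] at h2
    have h3 : Real.log T ^ (s + 1) * ((1 - δ) ^ (s + 1) * HH s T W) ≤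
        Real.log T ^ (s + 1) * ((1 + δ) ^ (s + 1) * cn s T W b0 n) := by linarith
    exact le_of_mul_le_mul_left h3 hlp
  · have h3 : Real.log T ^ (s + 1) * cn s T W b0 n ≤ Real.log T ^ (s + 1) * ((1 + δ) ^ (s + 1) * HH s T W) := by
      linarith
    exact le_of_mul_le_mul_left h3 hlp

/-- the condition for the column `n` -/
theorem cop_iff {w z ps r b0 n : ℕ}
    (hb : ∀ p : ℕ, p.Prime → p ≤ z → p ≠ ps → ((p ≤ w ∨ p ∣ r) → p ∣ b0) ∧ (w < p → ¬ p ∣ r → p ∣ b0 * r + 1))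
    (hn : n.Prime) (hnz : z < n) (hrn : r ≤ n) :
    (b0 * n + 1).Coprime (WZ z ps) ↔ Fr (AZ w z ps) (n - r) := by
  have hsplit : b0 * n + 1 = b0 * (n - r) + (b0 * r + 1) := by
    have : n = (n - r) + r := by omega
    calc b0 * n + 1 = b0 * ((n - r) + r) + 1 := by rw [← this]
      _ = _ := by ring
  constructor
  · intro h p hp hd
    obtain ⟨⟨h1, h2⟩, h3, h4⟩ := mem_AZ.mp hp
    obtain ⟨h5, h6⟩ := hb p h3 h2 h4
    have hpW : p ∣ WZ z ps := (dvd_WZ h3).mpr ⟨h2, h4⟩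
    by_cases h7 : p ∣ r
    · have h8 : p ∣ n := by
        have : n = (n - r) + r := by omega
        rw [this]
        exact dvd_add hd h7
      have h9 := (Nat.prime_dvd_prime_iff_eq h3 hn).mp h8
      omega
    · have h8 : p ∣ b0 * n + 1 := by
        rw [hsplit]
        exact dvd_add (hd.mul_left b0) (h6 h1 h7)
      have h9 := Nat.dvd_gcd h8 hpW
      rw [h] at h9
      exact h3.one_lt.ne' (Nat.dvd_one.mp h9)
  · intro h
    by_contra hco
    obtain ⟨p, hp, hp1, hp2⟩ := Nat.Prime.not_coprime_iff_dvd.1 hco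
    obtain ⟨h1, h2⟩ := (dvd_WZ hp).mp hp2
    obtain ⟨h3, h4⟩ := hb p hp h1 h2
    by_cases h5 : p ≤ w ∨ p ∣ r
    · have h6 := h3 h5
      have h7 : p ∣ 1 := (Nat.dvd_add_right (h6.mul_right n)).mp hp1
      exact hp.one_lt.ne' (Nat.dvd_one.mp h7)
    · push Not at h5
      have h6 := h4 h5.1 h5.2
      rw [hsplit] at hp1
      have h7 : p ∣ b0 * (n - r) := (Nat.dvd_add_left h6).mp hp1
      rcases hp.dvd_mul.mp h7 with h8 | h8
      · have h9 : p ∣ 1 := (Nat.dvd_add_right (h8.mul_right r)).mp h6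
        exact hp.one_lt.ne' (Nat.dvd_one.mp h9)
      · exact h p (mem_AZ.mpr ⟨⟨h5.1, h1⟩, hp, h2⟩) h8

/-- existence of the residue -/
theorem exists_b0 (w z ps r : ℕ) : ∃ b0 : ℕ, ∀ p : ℕ, p.Prime → p ≤ z → p ≠ ps →
    ((p ≤ w ∨ p ∣ r) → p ∣ b0) ∧ (w < p → ¬ p ∣ r → p ∣ b0 * r + 1) := by
  classical
  set P1 := (PZ z ps).filter (fun p => p ≤ w ∨ p ∣ r) with hP1
  set P2 := (PZ z ps).filter (fun p => ¬ (p ≤ w ∨ p ∣ r)) with hP2
  set M1 := ∏ p ∈ P1, p with hM1
  set M2 := ∏ p ∈ P2, p with hM2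
  have hco : (M1 * r).Coprime M2 := by
    rw [hM2]
    apply Nat.Coprime.prod_right
    intro p hp
    obtain ⟨h1, h2⟩ := mem_filter.mp hp
    obtain ⟨h3, h4, h5⟩ := mem_PZ.mp h1
    push Not at h2
    apply Nat.Coprime.mul_left
    · rw [hM1]
      apply Nat.Coprime.prod_left
      intro q hq
      obtain ⟨h6, h7⟩ := mem_filter.mp hq
      obtain ⟨h8, h9, h10⟩ := mem_PZ.mp h6
      rw [Nat.coprime_primes h9 h4]
      rintro rfl
      rcases h7 with h7 | h7
      · omega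
      · exact h2.2 h7
    · exact ((Nat.Prime.coprime_iff_not_dvd h4).mpr h2.2).symm
  have hM20 : 0 < M2 := prod_pos fun p hp => (mem_PZ.mp (mem_filter.mp hp).1).2.1.pos
  obtain ⟨e, he1, he2⟩ := Nat.chineseRemainder hco 0 (M2 - 1)
  -- `e = M1 r c`, `e ≡ -1` modulo `M2`
  obtain ⟨c, hc⟩ := (Nat.modEq_zero_iff_dvd).mp he1
  refine ⟨M1 * c, fun p hp hpz hps => ⟨fun h1 => ?_, fun h1 h2 => ?_⟩⟩
  · have h3 : p ∣ M1 := dvd_prod_of_mem (fun p => p) (mem_filter.mpr ⟨mem_PZ.mpr ⟨hpz, hp, hps⟩, h1⟩)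
    exact h3.mul_right c
  · have h3 : p ∣ M2 := dvd_prod_of_mem (fun p => p)
      (mem_filter.mpr ⟨mem_PZ.mpr ⟨hpz, hp, hps⟩, by push Not; exact ⟨h1, h2⟩⟩)
    have h4 : M1 * c * r + 1 ≡ 0 [MOD M2] := by
      have h5 : M1 * c * r = e := by rw [hc]; ring
      rw [h5]
      have h6 : e + 1 ≡ (M2 - 1) + 1 [MOD M2] := Nat.ModEq.add_right 1 he2
      refine h6.trans ?_
      have : M2 - 1 + 1 = M2 := by omega
      rw [this]
      exact (Nat.modEq_zero_iff_dvd).mpr dvd_rfl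
    exact h3.trans ((Nat.modEq_zero_iff_dvd).mp h4)

end Pool.Agent.H537.MM
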