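import Mathlib
import Pool.Agent.H537.MM.Cn
import Pool.Agent.H537.MM.Avg

/-! The sums over the whole matrix. -/

set_option autoImplicit false
set_option maxHeartbeats 4000000

open Finset Filter Topology

namespace Pool.Agent.H537.MM

open Pool.Agent.H378R2 Pool.Agent.H510R2.Maier Pool.Agent.N914.MR Pool.Agent.H537.FG

/-- the primes up to `x` -/
def PR (x : ℕ) : Finset ℕ := (Icc 1 x).filter Nat.Prime

/-- what the matrix needs -/
structure Dat (s : ℕ) (T : ℝ) (x z w ps r b0 Y Z : ℕ) (δ : ℝ) : Prop where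
  hT : 40 ≤ T
  hps : GoodP Z ps
  hδ0 : 0 < δ
  hδ1 : δ ≤ 1
  hWY : 100 * ((WZ z ps * Y : ℕ) : ℝ) ≤ T
  hW : 100 * (WZ z ps : ℝ) ≤ δ * T
  hzT : (z : ℝ) ≤ T
  hD : Real.log (3 ^ (s + 1) * T * x + 1) ≤ (1 + δ) * Real.log T
  hcol : ∀ n : ℕ, n.Prime → z < n → n ≤ x → n ≠ ps → ∀ b : ℕ, (b * n + 1).Coprime (WZ z ps) → ∀ i : Fin (s + 1),
    |colM (TT T i) (WZ z ps) b n - MPhi (TT T i) / (WZ z ps).totient| ≤ δ / 20 * (TT T i / (WZ z ps).totient)
  hb : ∀ p : ℕ, p.Prime → p ≤ z → p ≠ ps → ((p ≤ w ∨ p ∣ r) → p ∣ b0) ∧ (w < p → ¬ p ∣ r → p ∣ b0 * r + 1)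

variable {s : ℕ} {T : ℝ} {x z w ps r b0 Y Z : ℕ} {δ : ℝ}

theorem cn_cases (d : Dat s T x z w ps r b0 Y Z δ) {n : ℕ} (hn : n.Prime) (hnz : z < n) (hnx : n ≤ x) (hnps : n ≠ ps) :
    cn s T (WZ z ps) b0 n ≤ (1 + δ) ^ (s + 1) * HH s T (WZ z ps) ∧
      (r ≤ n → ¬ Fr (AZ w z ps) (n - r) → cn s T (WZ z ps) b0 n = 0) ∧
      (r ≤ n → Fr (AZ w z ps) (n - r) →
        (1 - δ) ^ (s + 1) * HH s T (WZ z ps) ≤ (1 + δ) ^ (s + 1) * cn s T (WZ z ps) b0 n) := by
  have hW := WZ_pos z ps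
  have hn1 := hn.one_lt.le
  have hzero : ¬ (b0 * n + 1).Coprime (WZ z ps) → cn s T (WZ z ps) b0 n = 0 := by
    intro hco
    apply cn_zero (by linarith [d.hT]) hn1 _ hco
    intro p hp hpW
    have h1 := ((dvd_WZ hp).mp hpW).1
    have h2 : (p : ℝ) ≤ z := by exact_mod_cast h1
    exact h2.trans d.hzT
  have hmain : (b0 * n + 1).Coprime (WZ z ps) →
      (1 - δ) ^ (s + 1) * HH s T (WZ z ps) ≤ (1 + δ) ^ (s + 1) * cn s T (WZ z ps) b0 n ∧
      cn s T (WZ z ps) b0 n ≤ (1 + δ) ^ (s + 1) * HH s T (WZ z ps) := by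
    intro hco
    apply cn_main d.hT hW hn1 hnx d.hδ0.le d.hδ1 d.hD
    intro i
    apply d.hcol n hn hnz hnx hnps
    unfold bb
    split_ifs
    · exact hco
    · rw [zero_mul, zero_add]
      exact Nat.coprime_one_left _
  have hH := HH_pos (s := s) d.hT hW
  refine ⟨?_, fun hr hF => ?_, fun hr hF => ?_⟩
  · by_cases hco : (b0 * n + 1).Coprime (WZ z ps)
    · exact (hmain hco).2
    · rw [hzero hco]
      have := d.hδ0
      positivity
  · apply hzero
    intro hco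
    exact hF ((cop_iff d.hb hn hnz hr).mp hco)
  · exact (hmain ((cop_iff d.hb hn hnz hr).mpr hF)).1

theorem lower_N (d : Dat s T x z w ps r b0 Y Z δ) (N : Finset ℕ)
    (hN : ∀ n ∈ N, n.Prime ∧ z < n ∧ n ≤ x ∧ n ≠ ps ∧ r ≤ n) :
    (((N.filter fun n => Fr (AZ w z ps) (n - r)).card : ℝ)) * ((1 - δ) ^ (s + 1) * HH s T (WZ z ps)) ≤
      (1 + δ) ^ (s + 1) * ∑ a ∈ box s T, wt T (WZ z ps) b0 a * (cntN (PR x) a : ℝ) := by
  rw [sum_cnt, mul_sum]
  have h1 : ∑ n ∈ N.filter (fun n => Fr (AZ w z ps) (n - r)), (1 + δ) ^ (s + 1) * cn s T (WZ z ps) b0 n ≤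
      ∑ n ∈ PR x, (1 + δ) ^ (s + 1) * cn s T (WZ z ps) b0 n := by
    apply sum_le_sum_of_subset_of_nonneg
    · intro n hn
      have h2 := hN n (mem_filter.mp hn).1
      unfold PR
      rw [mem_filter, mem_Icc]
      exact ⟨⟨h2.1.one_lt.le, h2.2.2.1⟩, h2.1⟩
    · intro n _ _
      have := cn_nonneg s T (WZ z ps) b0 n
      have := d.hδ0
      positivity
  refine le_trans ?_ h1
  rw [← nsmul_eq_mul]
  apply card_nsmul_le_sum
  intro n hn
  obtain ⟨hn1, hn2⟩ := mem_filter.mp hn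
  obtain ⟨h2, h3, h4, h5, h6⟩ := hN n hn1
  exact (cn_cases d h2 h3 h4 h5).2.2 h6 hn2

theorem upper_N (d : Dat s T x z w ps r b0 Y Z δ) (N : Finset ℕ)
    (hN : ∀ n ∈ N, n.Prime ∧ z < n ∧ n ≤ x ∧ n ≠ ps ∧ r ≤ n) (R : ℕ)
    (hNR : ∀ n, n.Prime → R < n → n ≤ x → n ≠ ps → n ∈ N) :
    ∑ a ∈ box s T, wt T (WZ z ps) b0 a * (cntN (PR x) a : ℝ) ≤
      (((N.filter fun n => Fr (AZ w z ps) (n - r)).card : ℝ) + ((PR R).card : ℝ)) *
        ((1 + δ) ^ (s + 1) * HH s T (WZ z ps)) +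
      ((z : ℝ) + 1) * ((1 + δ) ^ (s + 1) * MW s T (WZ z ps)) := by
  classical
  have hW := WZ_pos z ps
  have hH := HH_pos (s := s) d.hT hW
  have hM := MW_pos (s := s) d.hT hW
  have hδ := d.hδ0
  rw [sum_cnt]
  set H1 := (1 + δ) ^ (s + 1) * HH s T (WZ z ps) with hH1
  have hH10 : 0 ≤ H1 := by positivity
  set M1 := (1 + δ) ^ (s + 1) * MW s T (WZ z ps) with hM1
  have hM10 : 0 ≤ M1 := by positivity
  have h1 : ∀ n ∈ PR x, cn s T (WZ z ps) b0 n ≤
      (if n ∈ N.filter (fun n => Fr (AZ w z ps) (n - r)) then H1 else 0) +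
      (if n ∈ PR R then H1 else 0) + (if n ∈ insert ps (Icc 1 z) then M1 else 0) := by
    intro n hn
    unfold PR at hn
    rw [mem_filter, mem_Icc] at hn
    obtain ⟨⟨hn1, hnx⟩, hnp⟩ := hn
    have q1 : 0 ≤ (if n ∈ N.filter (fun n => Fr (AZ w z ps) (n - r)) then H1 else 0) := by
      split_ifs <;> simp [hH10]
    have q2 : 0 ≤ (if n ∈ PR R then H1 else 0) := by
      split_ifs <;> simp [hH10]
    have q3 : 0 ≤ (if n ∈ insert ps (Icc 1 z) then M1 else 0) := by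
      split_ifs <;> simp [hM10]
    by_cases hsm : n ∈ insert ps (Icc 1 z)
    · rw [if_pos hsm]
      have h2 := cn_le s T (WZ z ps) b0 n
      have h3 := (sum_wt_bounds (s := s) d.hT b0 hW d.hδ1 d.hW).2
      linarith
    · rw [mem_insert, mem_Icc] at hsm
      push Not at hsm
      have hnz : z < n := by
        have := hsm.2 hn1
        omega
      obtain ⟨c1, c2, c3⟩ := cn_cases d hnp hnz hnx hsm.1
      by_cases hR : n ≤ R
      · have : n ∈ PR R := by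
          unfold PR
          rw [mem_filter, mem_Icc]
          exact ⟨⟨hn1, hR⟩, hnp⟩
        rw [if_pos this]
        linarith
      · push Not at hR
        have hnN := hNR n hnp hR hnx hsm.1
        have hrn := (hN n hnN).2.2.2.2
        by_cases hF : Fr (AZ w z ps) (n - r)
        · rw [if_pos (mem_filter.mpr ⟨hnN, hF⟩)]
          linarith
        · rw [c2 hrn hF]
          linarith
  refine (sum_le_sum h1).trans ?_
  rw [sum_add_distrib, sum_add_distrib, ← sum_filter, ← sum_filter, ← sum_filter]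
  simp only [sum_const, nsmul_eq_mul]
  have k1 : (((PR x).filter fun n => n ∈ N.filter (fun n => Fr (AZ w z ps) (n - r))).card : ℝ) ≤
      ((N.filter (fun n => Fr (AZ w z ps) (n - r))).card : ℝ) := by
    norm_cast
    apply card_le_card
    intro n hn
    exact (mem_filter.mp hn).2
  have k2 : (((PR x).filter fun n => n ∈ PR R).card : ℝ) ≤ ((PR R).card : ℝ) := by
    norm_cast
    apply card_le_card
    intro n hn
    exact (mem_filter.mp hn).2
  have k3 : (((PR x).filter fun n => n ∈ insert ps (Icc 1 z)).card : ℝ) ≤ (z : ℝ) + 1 := by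
    have h2 : ((PR x).filter fun n => n ∈ insert ps (Icc 1 z)).card ≤ z + 1 := by
      calc ((PR x).filter fun n => n ∈ insert ps (Icc 1 z)).card ≤ (insert ps (Icc 1 z)).card := by
            apply card_le_card
            intro n hn
            exact (mem_filter.mp hn).2
        _ ≤ (Icc 1 z).card + 1 := card_insert_le _ _
        _ = z + 1 := by simp
    exact_mod_cast h2
  have j1 := mul_le_mul_of_nonneg_right k1 hH10
  have j2 := mul_le_mul_of_nonneg_right k2 hH10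
  have j3 := mul_le_mul_of_nonneg_right k3 hM10
  linarith

/-- the expected number -/
noncomputable def EX {s : ℕ} (σ : ℝ) (a : Fin s → ℕ) (x : ℕ) : ℝ :=
  σ * ((x : ℝ) / (Real.log x * ∏ i, Real.log (a i * x)))

/-- the constant of the class -/
noncomputable def CC (s w z ps r : ℕ) : ℝ := ((WZ z ps : ℝ) / (WZ z ps).totient) ^ (s + 1) * UU w z ps r

theorem EX_bounds (d : Dat s T x z w ps r b0 Y Z δ) (hx : 2 ≤ x) {a : Fin (s + 1) → ℕ}
    (ha : wt T (WZ z ps) b0 a ≠ 0) {σ : ℝ} (hσ : 0 ≤ σ) :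
    σ * (((x : ℝ) / Real.log x) / ((1 + δ) * Real.log T) ^ (s + 1)) ≤ EX σ a x ∧
      EX σ a x ≤ σ * (((x : ℝ) / Real.log x) / Real.log T ^ (s + 1)) := by
  have hT0 : 0 < T := by linarith [d.hT]
  have hl : 0 < Real.log T := Real.log_pos (by linarith [d.hT])
  have hx0 : (2 : ℝ) ≤ x := by exact_mod_cast hx
  have hlx : 0 < Real.log x := Real.log_pos (by linarith)
  have hδ := d.hδ0
  have h1 : ∀ i : Fin (s + 1), Real.log T ≤ Real.log (a i * x) ∧ Real.log (a i * x) ≤ (1 + δ) * Real.log T := by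
    intro i
    obtain ⟨h2, h3, _⟩ := wt_supp hT0 ha i
    have h4 := TT_ge hT0.le (i : ℕ)
    have ha0 : 0 < (a i : ℝ) := by linarith
    constructor
    · apply Real.log_le_log hT0
      nlinarith
    · refine le_trans ?_ d.hD
      apply Real.log_le_log (by positivity)
      have h5 : 3 * TT T i ≤ 3 ^ (s + 1) * T := by
        unfold TT
        have h3 : (3 : ℝ) ^ ((i : ℕ) + 1) ≤ 3 ^ (s + 1) := pow_le_pow_right₀ (by norm_num) (by omega)
        calc 3 * (3 ^ (i : ℕ) * T) = 3 ^ ((i : ℕ) + 1) * T := by ring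
          _ ≤ _ := mul_le_mul_of_nonneg_right h3 hT0.le
      have h6 : (a i : ℝ) * x ≤ 3 ^ (s + 1) * T * x := mul_le_mul_of_nonneg_right (by linarith) (by linarith)
      linarith
  have hP1 : Real.log T ^ (s + 1) ≤ ∏ i, Real.log (a i * x) := by
    have e1 : Real.log T ^ (s + 1) = ∏ _i : Fin (s + 1), Real.log T := by rw [prod_const]; simp
    rw [e1]
    exact Finset.prod_le_prod (fun _ _ => hl.le) fun i _ => (h1 i).1
  have hP2 : ∏ i, Real.log (a i * x) ≤ ((1 + δ) * Real.log T) ^ (s + 1) := by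
    have e1 : ((1 + δ) * Real.log T) ^ (s + 1) = ∏ _i : Fin (s + 1), (1 + δ) * Real.log T := by
      rw [prod_const]; simp
    rw [e1]
    exact Finset.prod_le_prod (fun i _ => hl.le.trans (h1 i).1) fun i _ => (h1 i).2
  have hP0 : 0 < ∏ i, Real.log (a i * x) := lt_of_lt_of_le (pow_pos hl _) hP1
  unfold EX
  rw [← div_div]
  constructor
  · apply mul_le_mul_of_nonneg_left _ hσ
    exact div_le_div_of_nonneg_left (by positivity) hP0 hP2
  · apply mul_le_mul_of_nonneg_left _ hσ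
    exact div_le_div_of_nonneg_left (by positivity) (pow_pos hl _) hP1

/-- the sum of the expected numbers, lower bound -/
theorem lower_E (d : Dat s T x z w ps r b0 Y Z δ) (hx : 2 ≤ x) (σ : (Fin (s + 1) → ℕ) → ℝ) {e3 : ℝ} (he3 : e3 ≤ 1)
    (hUU : 0 ≤ UU w z ps r)
    (hσ : ∀ a, wt T (WZ z ps) b0 a ≠ 0 → CC s w z ps r * (1 - e3) ≤ σ a) :
    (1 - δ) ^ (s + 1) * ((1 - e3) * (UU w z ps r * (((x : ℝ) / Real.log x) * HH s T (WZ z ps)))) ≤
      (1 + δ) ^ (s + 1) * ∑ a ∈ box s T, wt T (WZ z ps) b0 a * EX (σ a) a x := by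
  have hT0 : 0 < T := by linarith [d.hT]
  have hl : 0 < Real.log T := Real.log_pos (by linarith [d.hT])
  have hx0 : (2 : ℝ) ≤ x := by exact_mod_cast hx
  have hlx : 0 < Real.log x := Real.log_pos (by linarith)
  have hδ := d.hδ0
  have hW := WZ_pos z ps
  have hM := MW_pos (s := s) d.hT hW
  have hW0 : (0 : ℝ) < WZ z ps := by exact_mod_cast hW
  have hφ : (0 : ℝ) < (WZ z ps).totient := by exact_mod_cast Nat.totient_pos.mpr hW
  have hCC : 0 ≤ CC s w z ps r := by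
    unfold CC
    positivity
  have h1 : ∀ a ∈ box s T, wt T (WZ z ps) b0 a * (CC s w z ps r * (1 - e3) *
      (((x : ℝ) / Real.log x) / ((1 + δ) * Real.log T) ^ (s + 1))) ≤ wt T (WZ z ps) b0 a * EX (σ a) a x := by
    intro a _
    by_cases ha : wt T (WZ z ps) b0 a = 0
    · rw [ha]
      simp
    apply mul_le_mul_of_nonneg_left _ (wt_nonneg _ _ _ _)
    have h2 := hσ a ha
    have h3 : 0 ≤ CC s w z ps r * (1 - e3) := mul_nonneg hCC (by linarith)
    have h4 := (EX_bounds d hx ha (h3.trans h2)).1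
    refine le_trans ?_ h4
    apply mul_le_mul_of_nonneg_right h2
    positivity
  have h2 := sum_le_sum h1
  rw [← sum_mul] at h2
  have h3 := (sum_wt_bounds (s := s) d.hT b0 hW d.hδ1 d.hW).1
  have h4 : 0 ≤ CC s w z ps r * (1 - e3) * (((x : ℝ) / Real.log x) / ((1 + δ) * Real.log T) ^ (s + 1)) := by
    apply mul_nonneg (mul_nonneg hCC (by linarith))
    positivity
  have h5 := (mul_le_mul_of_nonneg_right h3 h4).trans h2
  have h6 := mul_le_mul_of_nonneg_left h5 (by positivity : (0 : ℝ) ≤ (1 + δ) ^ (s + 1))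
  refine le_trans (le_of_eq ?_) h6
  rw [HH_eq s T hW, mul_pow]
  unfold CC
  field_simp

/-- the sum of the expected numbers, upper bound -/
theorem upper_E (d : Dat s T x z w ps r b0 Y Z δ) (hx : 2 ≤ x) (hz : 1 ≤ z) (hY : 3 ≤ Y) (σ : (Fin (s + 1) → ℕ) → ℝ)
    (hUU : 0 ≤ UU w z ps r) {G0 F : ℝ}
    (hG0 : ∑ p ∈ (Ioc z Y).filter Nat.Prime, 1 / (p : ℝ) ≤ G0)
    (hσ : ∀ a, wt T (WZ z ps) b0 a ≠ 0 → 0 ≤ σ a ∧
      σ a ≤ CC s w z ps r * Real.exp (2 * ((s : ℝ) + 1) * (1 / Z + GA z a)))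
    (hF : Real.exp (2 * ((s : ℝ) + 1) * (1 / Z + ((s : ℝ) + 2) ^ 2 * Real.log (3 ^ (s + 1) * T) / Y)) *
        ((1 + δ) ^ (s + 1) + 2 * ((s : ℝ) + 1) * Real.exp (2 * ((s : ℝ) + 1) * G0) *
          (2 ^ (s + 1) * ((s : ℝ) + 2) ^ 2 * (1 / z))) ≤ F) :
    ∑ a ∈ box s T, wt T (WZ z ps) b0 a * EX (σ a) a x ≤
      F * (UU w z ps r * (((x : ℝ) / Real.log x) * HH s T (WZ z ps))) := by
  have hT0 : 0 < T := by linarith [d.hT]
  have hl : 0 < Real.log T := Real.log_pos (by linarith [d.hT])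
  have hx0 : (2 : ℝ) ≤ x := by exact_mod_cast hx
  have hlx : 0 < Real.log x := Real.log_pos (by linarith)
  have hδ := d.hδ0
  have hW := WZ_pos z ps
  have hM := MW_pos (s := s) d.hT hW
  have hW0 : (0 : ℝ) < WZ z ps := by exact_mod_cast hW
  have hφ : (0 : ℝ) < (WZ z ps).totient := by exact_mod_cast Nat.totient_pos.mpr hW
  have hCC : 0 ≤ CC s w z ps r := by
    unfold CC
    positivity
  set X1 := ((x : ℝ) / Real.log x) / Real.log T ^ (s + 1) with hX1
  have hX10 : 0 ≤ X1 := by positivity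
  have h1 : ∀ a ∈ box s T, wt T (WZ z ps) b0 a * EX (σ a) a x ≤
      (CC s w z ps r * X1) * (wt T (WZ z ps) b0 a * Real.exp (2 * ((s : ℝ) + 1) * (1 / Z + GA z a))) := by
    intro a _
    by_cases ha : wt T (WZ z ps) b0 a = 0
    · rw [ha]
      simp
    obtain ⟨h2, h3⟩ := hσ a ha
    have h4 := (EX_bounds d hx ha h2).2
    have h5 : EX (σ a) a x ≤ CC s w z ps r * Real.exp (2 * ((s : ℝ) + 1) * (1 / Z + GA z a)) * X1 :=
      h4.trans (mul_le_mul_of_nonneg_right h3 hX10)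
    refine (mul_le_mul_of_nonneg_left h5 (wt_nonneg _ _ _ _)).trans (le_of_eq ?_)
    ring
  refine (sum_le_sum h1).trans ?_
  rw [← mul_sum]
  have h2 := avg_exp (s := s) (b0 := b0) d.hT hz hY d.hWY (m := 2 * ((s : ℝ) + 1)) (c := 1 / (Z : ℝ)) (by positivity) hG0
  have h3 := (sum_wt_bounds (s := s) d.hT b0 hW d.hδ1 d.hW).2
  have h4 : ∑ a ∈ box s T, wt T (WZ z ps) b0 a * Real.exp (2 * ((s : ℝ) + 1) * (1 / Z + GA z a)) ≤
      F * MW s T (WZ z ps) := by
    refine h2.trans ?_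
    have h5 := mul_le_mul_of_nonneg_right hF hM.le
    have h6 : ∑ a ∈ box s T, wt T (WZ z ps) b0 a +
        2 * ((s : ℝ) + 1) * Real.exp (2 * ((s : ℝ) + 1) * G0) *
          (2 ^ (s + 1) * ((s : ℝ) + 2) ^ 2 * MW s T (WZ z ps) * (1 / z)) ≤
        ((1 + δ) ^ (s + 1) + 2 * ((s : ℝ) + 1) * Real.exp (2 * ((s : ℝ) + 1) * G0) *
          (2 ^ (s + 1) * ((s : ℝ) + 2) ^ 2 * (1 / z))) * MW s T (WZ z ps) := by
      rw [add_mul]
      apply add_le_add h3
      exact le_of_eq (by ring)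
    have h7 := mul_le_mul_of_nonneg_left h6 (Real.exp_pos (2 * ((s : ℝ) + 1) *
      (1 / Z + ((s : ℝ) + 2) ^ 2 * Real.log (3 ^ (s + 1) * T) / Y))).le
    exact h7.trans (le_trans (le_of_eq (mul_assoc _ _ _).symm) h5)
  have h5 := mul_le_mul_of_nonneg_left h4 (mul_nonneg hCC hX10)
  refine h5.trans (le_of_eq ?_)
  rw [HH_eq s T hW, hX1]
  unfold CC
  field_simp

end Pool.Agent.H537.MM
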