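import Mathlib
import Pool.Agent.H537.MM.Core
import Pool.Agent.H537.FG.Choice

/-! The comparison of the two sides, and the number of the rows. -/

set_option autoImplicit false
set_option maxHeartbeats 4000000

open Finset Filter Topology

namespace Pool.Agent.H537.MM

open Pool.Agent.H378R2 Pool.Agent.H510R2.Maier Pool.Agent.N914.MR Pool.Agent.H537.FG

theorem even_num {δ V ρ κ n g SN SE c : ℝ} (hδ : 0 < δ) (hδc : δ ≤ c / 40) (hc : c ≤ 1) (hV0 : 0 ≤ V) (hV1 : V ≤ 1)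
    (hρ : 2 * c ≤ ρ) (hρ1 : ρ ≤ 1) (hκ0 : 0 ≤ κ) (hκ : κ ≤ c / 4) (hn : 1 - δ ≤ n) (hg : n * (V + ρ - κ) ≤ g)
    (hSN : (1 - δ) * g ≤ SN) (hSE : SE ≤ (1 + δ) * (V * (1 + δ))) : c ≤ SN - SE := by
  have h1 : 0 ≤ V + ρ - κ := by linarith
  have h2 : (1 - δ) * (V + ρ - κ) ≤ g := (mul_le_mul_of_nonneg_right hn h1).trans hg
  have h3 : (1 - δ) * ((1 - δ) * (V + ρ - κ)) ≤ SN := (mul_le_mul_of_nonneg_left h2 (by linarith)).trans hSN
  have h4 : V + ρ - κ ≤ 2 := by linarith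
  have h5 : V + ρ - κ - 4 * δ ≤ (1 - δ) * ((1 - δ) * (V + ρ - κ)) := by nlinarith [mul_nonneg hδ.le h1, sq_nonneg δ]
  have h6 : (1 + δ) * (V * (1 + δ)) ≤ V + 3 * δ := by
    have : δ ≤ 1 := by linarith
    nlinarith [mul_nonneg hδ.le hV0, mul_nonneg hδ.le hδ.le]
  linarith

theorem odd_num {δ V ρ κ n g SN SE c : ℝ} (hδ : 0 < δ) (hδc : δ ≤ c / 40) (hc : c ≤ 1) (hV0 : 0 ≤ V) (hV1 : V ≤ 1)
    (hρ : 2 * c ≤ ρ) (hκ0 : 0 ≤ κ) (hκ : κ ≤ c / 4) (hn0 : 0 < n) (hn : n ≤ 1 + δ) (hg0 : 0 ≤ g)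
    (hg : g ≤ n * (V - ρ + κ)) (hSN : SN ≤ (g + δ) * (1 + δ) + δ) (hSE : (1 - δ) * ((1 - δ) * (V * (1 - δ))) ≤ SE) :
    c ≤ SE - SN := by
  have h1 : 0 ≤ V - ρ + κ := by
    by_contra hcon
    push Not at hcon
    have : n * (V - ρ + κ) < 0 := mul_neg_of_pos_of_neg hn0 hcon
    linarith
  have h2 : g ≤ (1 + δ) * (V - ρ + κ) := hg.trans (mul_le_mul_of_nonneg_right hn h1)
  have hδ1 : δ ≤ 1 := by linarith
  have h3 : V - ρ + κ ≤ 1 := by linarith
  have h4 : g ≤ V - ρ + κ + δ := by nlinarith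
  have h5 : (g + δ) * (1 + δ) ≤ g + 4 * δ := by nlinarith
  have h6 : V - 3 * δ ≤ (1 - δ) * ((1 - δ) * (V * (1 - δ))) := by
    have e1 : (1 - δ) * ((1 - δ) * (V * (1 - δ))) = V * (1 - δ) ^ 3 := by ring
    have e2 : 1 + ((3 : ℕ) : ℝ) * (-δ) ≤ (1 + -δ) ^ 3 := one_add_mul_le_pow (by linarith) 3
    have e3 : 1 - 3 * δ ≤ (1 - δ) ^ 3 := by
      have : (1 : ℝ) + -δ = 1 - δ := by ring
      rw [this] at e2
      push_cast at e2
      linarith
    rw [e1]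
    have := mul_le_mul_of_nonneg_left e3 hV0
    nlinarith [mul_nonneg hδ.le hV0]
  linarith

/-- the remainder of the truncated product is not small -/
theorem rho_lower {K w : ℕ} {A : Finset ℕ} (hA : ∀ p ∈ A, p.Prime ∧ w < p) {c0 : ℝ} (hc0 : 0 < c0)
    (h1 : c0 ≤ ∑ p ∈ A, rc p) (h2 : ∑ p ∈ A, rc p ≤ 1 / 2) (hw : 2 * ((K : ℝ) + 1) ≤ c0 * w) :
    (1 / 2) * ((c0 / 2) ^ (K + 1) / ((K + 1).factorial : ℝ)) ≤ rho rc K A ∧ 1 / 2 ≤ bp rc A ∧ rho rc K A ≤ 1 := by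
  have hfac : (0 : ℝ) < ((K + 1).factorial : ℝ) := by exact_mod_cast Nat.factorial_pos _
  have hV0 : 0 ≤ bp rc A := bp_nonneg rc rc_le_one A
  have hVh : 1 / 2 ≤ bp rc A := by
    have e1 := rho_le rc rc_nonneg rc_le_one A 0
    rw [rho_zero, zero_add, pow_one] at e1
    linarith
  have hw0 : (0 : ℝ) < w := by
    by_contra hc
    push Not at hc
    have : c0 * w ≤ 0 := mul_nonpos_of_nonneg_of_nonpos hc0.le hc
    have : (0 : ℝ) ≤ K := Nat.cast_nonneg _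
    linarith
  have e1 := rho_ge rc rc_nonneg rc_le_one A K
  have e2 := es_ge rc rc_nonneg (1 / (w : ℝ)) A (fun p hp => by
    rw [rc_eq (hA p hp).1.pos]
    apply one_div_le_one_div_of_le hw0
    exact_mod_cast (hA p hp).2.le) (by positivity) (K + 1)
  have e3 : c0 / 2 ≤ max 0 (∑ p ∈ A, rc p - ((K + 1 : ℕ) : ℝ) * (1 / (w : ℝ))) := by
    apply le_max_of_le_right
    have : ((K + 1 : ℕ) : ℝ) * (1 / (w : ℝ)) ≤ c0 / 2 := by
      rw [mul_one_div, div_le_iff₀ hw0]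
      push_cast
      linarith
    linarith
  have e4 : (c0 / 2) ^ (K + 1) / ((K + 1).factorial : ℝ) ≤ es rc (K + 1) A := by
    refine le_trans ?_ e2
    apply div_le_div_of_nonneg_right _ hfac.le
    exact pow_le_pow_left₀ (by positivity) e3 _
  have e5 : (1 / 2) * ((c0 / 2) ^ (K + 1) / ((K + 1).factorial : ℝ)) ≤ bp rc A * es rc (K + 1) A :=
    mul_le_mul hVh e4 (by positivity) hV0
  refine ⟨e5.trans e1, hVh, ?_⟩
  have h4 := rho_le rc rc_nonneg rc_le_one A K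
  exact h4.trans (pow_le_one₀ (sum_nonneg fun p _ => rc_nonneg p) (by linarith))

/-- the number of the rows with an unusual count -/
theorem count_rows {s : ℕ} {T : ℝ} {W b0 : ℕ} {sg c H X0 η EM : ℝ} {x : ℕ} (E : (Fin (s + 1) → ℕ) → ℝ)
    (hsg : |sg| = 1) (hc : 0 < c) (hη0 : 0 ≤ η) (hη : η ≤ c / 4)
    (hE0 : ∀ a, wt T W b0 a ≠ 0 → 0 ≤ E a ∧ E a ≤ EM) (hEM : 0 ≤ EM)
    (h1 : c * (H * X0) ≤ sg * (∑ a ∈ box s T, wt T W b0 a * (cntN (PR x) a : ℝ) - ∑ a ∈ box s T, wt T W b0 a * E a))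
    (h2 : ∑ a ∈ box s T, wt T W b0 a * E a ≤ 2 * (H * X0)) :
    c / 2 * (H * X0) ≤ (((box s T).filter (fun a => wt T W b0 a ≠ 0 ∧
      η * E a ≤ sg * ((cntN (PR x) a : ℝ) - E a))).card : ℝ) * (x + EM) := by
  classical
  have hcnt : ∀ a : Fin (s + 1) → ℕ, (cntN (PR x) a : ℝ) ≤ x := by
    intro a
    have : cntN (PR x) a ≤ x := by
      unfold cntN PR
      refine (card_filter_le _ _).trans ((card_filter_le _ _).trans ?_)
      simp
    exact_mod_cast this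
  have hx0 : (0 : ℝ) ≤ x := Nat.cast_nonneg _
  have h3 : ∑ a ∈ box s T, wt T W b0 a * (sg * ((cntN (PR x) a : ℝ) - E a) - η * E a) =
      sg * (∑ a ∈ box s T, wt T W b0 a * (cntN (PR x) a : ℝ) - ∑ a ∈ box s T, wt T W b0 a * E a) -
        η * ∑ a ∈ box s T, wt T W b0 a * E a := by
    rw [← sum_sub_distrib, mul_sum, mul_sum, ← sum_sub_distrib]
    exact sum_congr rfl fun a _ => by ring
  have hSE0 : 0 ≤ ∑ a ∈ box s T, wt T W b0 a * E a := by
    apply sum_nonneg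
    intro a _
    by_cases ha : wt T W b0 a = 0
    · rw [ha, zero_mul]
    · exact mul_nonneg (wt_nonneg _ _ _ _) (hE0 a ha).1
  have h4 : c / 2 * (H * X0) ≤ ∑ a ∈ box s T, wt T W b0 a * (sg * ((cntN (PR x) a : ℝ) - E a) - η * E a) := by
    rw [h3]
    have e1 : η * ∑ a ∈ box s T, wt T W b0 a * E a ≤ c / 4 * (2 * (H * X0)) :=
      mul_le_mul hη h2 hSE0 (by linarith)
    linarith
  refine h4.trans ?_
  have h5 : ∀ a ∈ box s T, wt T W b0 a * (sg * ((cntN (PR x) a : ℝ) - E a) - η * E a) ≤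
      if (wt T W b0 a ≠ 0 ∧ η * E a ≤ sg * ((cntN (PR x) a : ℝ) - E a)) then (x : ℝ) + EM else 0 := by
    intro a _
    by_cases ha : wt T W b0 a = 0
    · rw [ha, zero_mul]
      split_ifs <;> first | positivity | exact le_rfl
    obtain ⟨e1, e2⟩ := hE0 a ha
    split_ifs with hc2
    · have e3 : sg * ((cntN (PR x) a : ℝ) - E a) ≤ x + EM := by
        have e4 : |sg * ((cntN (PR x) a : ℝ) - E a)| ≤ x + EM := by
          rw [abs_mul, hsg, one_mul, abs_le]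
          have e5 : (0 : ℝ) ≤ (cntN (PR x) a : ℝ) := Nat.cast_nonneg _
          have e6 := hcnt a
          constructor <;> linarith
        exact (le_abs_self _).trans e4
      have e4 : 0 ≤ η * E a := mul_nonneg hη0 e1
      have e5 := wt_le_one T W b0 a
      have e6 := wt_nonneg T W b0 a
      have e7 : sg * ((cntN (PR x) a : ℝ) - E a) - η * E a ≤ x + EM := by linarith
      have e8 : 0 ≤ sg * ((cntN (PR x) a : ℝ) - E a) - η * E a := by linarith [hc2.2]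
      calc wt T W b0 a * (sg * ((cntN (PR x) a : ℝ) - E a) - η * E a) ≤
          1 * (sg * ((cntN (PR x) a : ℝ) - E a) - η * E a) := mul_le_mul_of_nonneg_right e5 e8
        _ ≤ x + EM := by linarith
    · have e3 : ¬ (η * E a ≤ sg * ((cntN (PR x) a : ℝ) - E a)) := fun h => hc2 ⟨ha, h⟩
      push Not at e3
      apply mul_nonpos_of_nonneg_of_nonpos (wt_nonneg _ _ _ _)
      linarith
  refine (sum_le_sum h5).trans ?_
  rw [← sum_filter, sum_const, nsmul_eq_mul]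

end Pool.Agent.H537.MM
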