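import Mathlib
import Pool.Agent.H537.MM.Num
import Pool.Agent.H537.FG.Par
import Pool.Graph.R_pool_sql_team_seeded_707910d6.T2H52.MG.A3

/-! Choice of the parameters. -/

set_option autoImplicit false
set_option maxHeartbeats 4000000

open Finset Filter Topology

namespace Pool.Agent.H537.MM

open Pool.Agent.H378R2 Pool.Agent.H510R2.Maier Pool.Agent.N914.MR Pool.Agent.H537.FG

theorem lin_small (C b : ℝ) (hb : 0 < b) : ∀ᶠ u : ℝ in atTop, C * (u + 1) ≤ b * u ^ 20 := by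
  filter_upwards [eventually_ge_atTop (max 1 (2 * |C| / b))] with u hu
  have h1 : 1 ≤ u := (le_max_left _ _).trans hu
  have h2 : 2 * |C| / b ≤ u := (le_max_right _ _).trans hu
  rw [div_le_iff₀ hb] at h2
  have h3 : u * u ≤ u ^ 20 := by
    calc u * u = u ^ 2 := by ring
      _ ≤ u ^ 20 := pow_le_pow_right₀ h1 (by norm_num)
  have h4 : C * (u + 1) ≤ |C| * (2 * u) := by
    have h5 : C ≤ |C| := le_abs_self C
    calc C * (u + 1) ≤ |C| * (u + 1) := mul_le_mul_of_nonneg_right h5 (by linarith)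
      _ ≤ |C| * (2 * u) := mul_le_mul_of_nonneg_left (by linarith) (abs_nonneg C)
  have h5 : 2 * |C| * u ≤ u * b * u := mul_le_mul_of_nonneg_right h2 (by linarith)
  have h6 : b * (u * u) ≤ b * u ^ 20 := mul_le_mul_of_nonneg_left h3 hb.le
  nlinarith

theorem paru (s K : ℕ) (B2 ε c δ δ3 C6 E1 : ℝ) (hB2 : 0 < B2) (hK : 20 * B2 < K) (hε : 0 < ε) (hc : 0 < c)
    (hδ : 0 < δ) (hδ3 : 0 < δ3) (hE1 : 0 ≤ E1) : ∀ᶠ u : ℝ in atTop,
    20 * B2 * Real.log u ≤ u / 4 ∧ (u ^ 20) ^ (B2 / (K : ℝ)) * Real.log 4 ≤ u / 4 ∧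
    ((s : ℝ) + 1) * Real.log 3 + 20 * B2 * Real.log u + Real.log 2 ≤ δ * u ^ 20 ∧ (s : ℝ) * Real.log 3 ≤ u ^ 20 / 2 ∧
    100 * (Real.exp (u / 4) * u ^ 40) ≤ Real.exp (u ^ 20) ∧ 100 * Real.exp (u / 4) ≤ δ * Real.exp (u ^ 20) ∧
    C6 ≤ δ3 * u ^ 20 ∧
    (20 * Real.exp (u / 4) * u ^ 20) ^ (s + 1) * (u / 4) * (1 + 2 * Real.exp (u / 4) ^ (s + 1) * E1) ≤
      c / 2 * Real.exp (ε * u ^ 20) := by
  have hK0 : (0 : ℝ) < K := by linarith
  have t1 : ∀ᶠ u : ℝ in atTop, Real.log u ≤ 1 / (80 * B2) * u := by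
    have h1 := Real.isLittleO_log_id_atTop.bound (c := 1 / (80 * B2)) (by positivity)
    filter_upwards [h1, eventually_ge_atTop (1 : ℝ)] with u h2 h3
    rw [id, Real.norm_of_nonneg (Real.log_nonneg h3), Real.norm_of_nonneg (by linarith)] at h2
    exact h2
  have hb : 20 * (B2 / K) < 1 := by
    rw [mul_div_assoc', div_lt_one hK0]
    exact hK
  have t2 : ∀ᶠ u : ℝ in atTop, u ^ (20 * (B2 / (K : ℝ))) ≤ 1 / 8 * u := small_pow _ hb _ (by norm_num)
  filter_upwards [t1, t2, lin_small (((s : ℝ) + 1) * Real.log 3 + 20 * B2 + Real.log 2) δ hδ,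
    lin_small ((s : ℝ) * Real.log 3) (1 / 2) (by norm_num), lin_small 41 1 one_pos,
    lin_small (1 + |Real.log (100 / δ)|) 1 one_pos, lin_small C6 δ3 hδ3, lin_small |C6| δ3 hδ3,
    lin_small (|Real.log ((1 + 2 * E1) / (c / 2))| + 22 * ((s : ℝ) + 1) + 1) ε hε,
    eventually_ge_atTop (1 : ℝ)] with u h1 h2 h3 h4 h5 h6 h7 h7' h8 h9
  have hu0 : 0 < u := by linarith
  have hlu : Real.log u ≤ u := by
    have := Real.log_le_sub_one_of_pos hu0
    linarith
  have hlu0 : 0 ≤ Real.log u := Real.log_nonneg h9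
  have hl3 : 0 < Real.log 3 := Real.log_pos (by norm_num)
  have hl2 : 0 < Real.log 2 := Real.log_pos (by norm_num)
  have hlog4 : Real.log 4 ≤ 2 := by
    have := Real.log_two_lt_d9
    have h4 : Real.log 4 = 2 * Real.log 2 := by
      rw [show (4 : ℝ) = 2 ^ 2 by norm_num, Real.log_pow]
      push_cast
      ring
    rw [h4]
    linarith
  have hs0 : (0 : ℝ) ≤ s := Nat.cast_nonneg _
  have hue : ∀ n : ℕ, u ^ n ≤ Real.exp (n * u) := by
    intro n
    rw [Real.exp_nat_mul]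
    apply pow_le_pow_left₀ hu0.le
    have := Real.add_one_le_exp u
    linarith
  refine ⟨?_, ?_, ?_, ?_, ?_, ?_, ?_, ?_⟩
  · calc 20 * B2 * Real.log u ≤ 20 * B2 * (1 / (80 * B2) * u) := mul_le_mul_of_nonneg_left h1 (by positivity)
      _ = u / 4 := by field_simp; norm_num
  · have e1 : (u ^ 20) ^ (B2 / (K : ℝ)) = u ^ (20 * (B2 / (K : ℝ))) := by
      rw [Real.rpow_mul hu0.le]
      norm_cast
    rw [e1]
    have e2 : 0 ≤ u ^ (20 * (B2 / (K : ℝ))) := by positivity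
    calc u ^ (20 * (B2 / (K : ℝ))) * Real.log 4 ≤ (1 / 8 * u) * 2 :=
          mul_le_mul h2 hlog4 (Real.log_nonneg (by norm_num)) (by positivity)
      _ = u / 4 := by ring
  · refine le_trans ?_ h3
    have e1 : 20 * B2 * Real.log u ≤ 20 * B2 * u := mul_le_mul_of_nonneg_left hlu (by positivity)
    have e2 : 0 ≤ ((s : ℝ) + 1) * Real.log 3 * u := by positivity
    have e3 : 0 ≤ Real.log 2 * u := by positivity
    have e4 : 0 < 20 * B2 := by positivity
    nlinarith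
  · have e1 : 0 ≤ (s : ℝ) * Real.log 3 * u := by positivity
    linarith
  · have e1 := hue 40
    have e2 : (100 : ℝ) ≤ Real.exp 5 := by
      have h11 : (2.7 : ℝ) ≤ Real.exp 1 := by
        have := Real.exp_one_gt_d9
        linarith
      have h12 : Real.exp 5 = Real.exp 1 ^ 5 := by
        rw [← Real.exp_nat_mul]
        norm_num
      rw [h12]
      calc (100 : ℝ) ≤ 2.7 ^ 5 := by norm_num
        _ ≤ _ := pow_le_pow_left₀ (by norm_num) h11 5
    push_cast at e1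
    calc 100 * (Real.exp (u / 4) * u ^ 40) ≤ Real.exp 5 * (Real.exp (u / 4) * Real.exp (40 * u)) := by
          gcongr
      _ = Real.exp (5 + (u / 4 + 40 * u)) := by rw [Real.exp_add, Real.exp_add]
      _ ≤ Real.exp (u ^ 20) := by
          apply Real.exp_le_exp.mpr
          linarith
  · have e1 : Real.log (100 / δ) ≤ |Real.log (100 / δ)| := le_abs_self _
    have e2 : 100 / δ = Real.exp (Real.log (100 / δ)) := (Real.exp_log (by positivity)).symm
    have e3 : 100 / δ * Real.exp (u / 4) ≤ Real.exp (u ^ 20) := by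
      rw [e2, ← Real.exp_add]
      apply Real.exp_le_exp.mpr
      have e4 : 0 ≤ |Real.log (100 / δ)| * u := by positivity
      linarith
    have e4 := mul_le_mul_of_nonneg_left e3 hδ.le
    refine le_trans (le_of_eq ?_) e4
    field_simp
  · have : C6 ≤ |C6| := le_abs_self _
    have e4 : 0 ≤ |C6| * u := by positivity
    linarith
  · have e1 := hue 20
    have e2 : (20 : ℝ) ≤ Real.exp 4 := by
      have h11 : (2.7 : ℝ) ≤ Real.exp 1 := by
        have := Real.exp_one_gt_d9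
        linarith
      have h12 : Real.exp 4 = Real.exp 1 ^ 4 := by
        rw [← Real.exp_nat_mul]
        norm_num
      rw [h12]
      calc (20 : ℝ) ≤ 2.7 ^ 4 := by norm_num
        _ ≤ _ := pow_le_pow_left₀ (by norm_num) h11 4
    push_cast at e1
    have e3 : (20 * Real.exp (u / 4) * u ^ 20) ^ (s + 1) ≤ Real.exp (((s : ℝ) + 1) * (4 + u / 4 + 20 * u)) := by
      have : Real.exp (((s : ℝ) + 1) * (4 + u / 4 + 20 * u)) = (Real.exp 4 * Real.exp (u / 4) * Real.exp (20 * u)) ^ (s + 1) := by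
        rw [← Real.exp_add, ← Real.exp_add, ← Real.exp_nat_mul]
        push_cast
        ring_nf
      rw [this]
      gcongr
    have e4 : u / 4 ≤ Real.exp u := by
      have := Real.add_one_le_exp u
      linarith
    have e5 : 1 + 2 * Real.exp (u / 4) ^ (s + 1) * E1 ≤ (1 + 2 * E1) * Real.exp (((s : ℝ) + 1) * (u / 4)) := by
      have e6 : Real.exp (u / 4) ^ (s + 1) = Real.exp (((s : ℝ) + 1) * (u / 4)) := by
        rw [← Real.exp_nat_mul]
        push_cast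
        ring_nf
      have e7 : 1 ≤ Real.exp (((s : ℝ) + 1) * (u / 4)) := Real.one_le_exp (by positivity)
      rw [e6]
      nlinarith
    have e6 : (1 + 2 * E1) / (c / 2) = Real.exp (Real.log ((1 + 2 * E1) / (c / 2))) :=
      (Real.exp_log (by positivity)).symm
    have e7 : (1 + 2 * E1) = c / 2 * Real.exp (Real.log ((1 + 2 * E1) / (c / 2))) := by
      rw [← e6]
      field_simp
    have e8 := le_abs_self (Real.log ((1 + 2 * E1) / (c / 2)))
    calc (20 * Real.exp (u / 4) * u ^ 20) ^ (s + 1) * (u / 4) * (1 + 2 * Real.exp (u / 4) ^ (s + 1) * E1) ≤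
        Real.exp (((s : ℝ) + 1) * (4 + u / 4 + 20 * u)) * Real.exp u *
          ((1 + 2 * E1) * Real.exp (((s : ℝ) + 1) * (u / 4))) := by
          gcongr
      _ = c / 2 * Real.exp (((s : ℝ) + 1) * (4 + u / 4 + 20 * u) + u +
          (Real.log ((1 + 2 * E1) / (c / 2)) + ((s : ℝ) + 1) * (u / 4))) := by
          rw [Real.exp_add, Real.exp_add, Real.exp_add]
          nth_rewrite 1 [e7]
          ring
      _ ≤ c / 2 * Real.exp (ε * u ^ 20) := by
          apply mul_le_mul_of_nonneg_left _ (by positivity)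
          apply Real.exp_le_exp.mpr
          have e9 : 0 ≤ |Real.log ((1 + 2 * E1) / (c / 2))| * u := by positivity
          nlinarith

/-- the conditions on `x` -/
theorem parx (s K : ℕ) (B1 τ τ' S0 S1 δ : ℝ) (hB1 : (s : ℝ) + 1 < B1) (hK2 : 2 ≤ K)
    (hK1 : 1 / (K : ℝ) + ((s : ℝ) + 1) / B1 < 1) (hτ : 0 < τ) (hτ1 : τ ≤ 1 / 2) (hτ' : 0 < τ') (hδ : 0 < δ) :
    ∀ᶠ x : ℕ in atTop, S0 ≤ wF 1 K x ∧ S0 ≤ Real.log (wF 1 K x) ∧
      (1 + 1 / (2 * (K : ℝ))) * Real.log (wF 1 K x) ≤ Real.log (zF 1 K x) ∧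
      Real.log (zF 1 K x) ≤ (31 / 20) * Real.log (wF 1 K x) ∧
      (2 * zF 1 K x / Real.log (wF 1 K x) + 1) ^ K ≤ τ' * x ∧
      x + 1 < (wF 1 K x + 1) ^ (K + 1) ∧ (zF 1 K x : ℝ) ≤ (x : ℝ) ^ (1 / (K : ℝ)) ∧
      (∀ T' : ℕ, T' ≤ x → |(Nat.primeCounting T' : ℝ) - T' / Real.log x| ≤ δ * (x / Real.log x)) ∧
      1 ≤ δ * (x / Real.log x) ∧ zF 1 K x ≤ ⌊τ * x⌋₊ ∧ τ * x ≤ 2 * (⌊τ * x⌋₊ : ℝ) ∧ 1 ≤ ⌊τ * x⌋₊ ∧
      (∀ L : ℝ, 1 ≤ L → L ^ B1 ≤ x → ((zF 1 K x : ℝ) + 1) * (2 * L ^ (s + 1)) ≤ δ * (x / Real.log x)) ∧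
      S1 ≤ x ∧ 3 ≤ x := by
  have hK0 : (0 : ℝ) < K := by
    have : 0 < K := by omega
    exact_mod_cast this
  have hs0 : (0 : ℝ) ≤ s := Nat.cast_nonneg _
  have hB10 : 0 < B1 := by linarith
  have hcast := tendsto_natCast_atTop_atTop (R := ℝ)
  have p1 := hcast.eventually (parL 1 one_pos K hK2 τ' 2 S0 hτ' (by norm_num))
  have p2 := Pool.Agent.T2H52.MG.pi_unif δ hδ
  -- `x / log x`
  have p3 : ∀ᶠ x : ℝ in atTop, Real.log x ≤ δ * x := by
    have h1 := Real.isLittleO_log_id_atTop.bound (c := δ) hδ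
    filter_upwards [h1, eventually_ge_atTop (1 : ℝ)] with u h2 h3
    rw [id, Real.norm_of_nonneg (Real.log_nonneg h3), Real.norm_of_nonneg (by linarith)] at h2
    exact h2
  have hK1' : 1 / (K : ℝ) < 1 := by
    have : 0 ≤ ((s : ℝ) + 1) / B1 := by positivity
    linarith
  have p4 : ∀ᶠ x : ℝ in atTop, x ^ (1 / (K : ℝ)) ≤ τ / 2 * x := small_pow _ hK1' _ (by positivity)
  -- the small columns
  set θ := 1 - (1 / (K : ℝ) + ((s : ℝ) + 1) / B1) with hθ
  have hθ0 : 0 < θ := by rw [hθ]; linarith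
  have p5 : ∀ᶠ x : ℝ in atTop, Real.log x ≤ δ / 4 * x ^ θ := by
    have h1 := (isLittleO_log_rpow_atTop hθ0).bound (c := δ / 4) (by positivity)
    filter_upwards [h1, eventually_ge_atTop (1 : ℝ)] with u h2 h3
    rw [Real.norm_of_nonneg (Real.log_nonneg h3), Real.norm_of_nonneg (by positivity)] at h2
    exact h2
  filter_upwards [p1, p2, hcast.eventually p3, hcast.eventually p4, hcast.eventually p5,
    hcast.eventually_ge_atTop (2 / τ + 2), hcast.eventually_ge_atTop S1, eventually_ge_atTop 3] with x h1 h2 h3 h4 h5 h6 h7 h8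
  obtain ⟨g1, g2, g3, g4, g5, g6, g7⟩ := h1
  rw [Real.rpow_one] at g5 g6
  have hx3 : (3 : ℝ) ≤ x := by exact_mod_cast h8
  have hx0 : (0 : ℝ) < x := by linarith
  have hlx : 0 < Real.log x := Real.log_pos (by linarith)
  have hτx : 2 ≤ τ * x := by
    have : 2 / τ ≤ x := by linarith
    rw [div_le_iff₀ hτ] at this
    linarith
  have hfl := Nat.lt_floor_add_one (τ * (x : ℝ))
  have hfl2 : τ * x ≤ 2 * (⌊τ * x⌋₊ : ℝ) := by
    have hone : (1 : ℝ) ≤ (⌊τ * x⌋₊ : ℝ) := by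
      have : 1 ≤ ⌊τ * (x : ℝ)⌋₊ := Nat.le_floor (by push_cast; linarith)
      exact_mod_cast this
    linarith
  refine ⟨g1, g2, g3, g4, g5, by exact_mod_cast g6, g7, h2, ?_, ?_, hfl2, ?_, ?_, h7, h8⟩
  · rw [mul_div_assoc', le_div_iff₀ hlx, one_mul]
    exact h3
  · have h9 : (zF 1 K x : ℝ) ≤ τ * x := by
      refine g7.trans (h4.trans ?_)
      have : 0 ≤ τ * x := by positivity
      linarith
    exact Nat.le_floor h9
  · exact Nat.le_floor (by push_cast; linarith)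
  · intro L hL1 hLx
    have hL0 : 0 < L := by linarith
    have e1 : L ^ (s + 1) ≤ (x : ℝ) ^ (((s : ℝ) + 1) / B1) := by
      have e2 : L ^ (s + 1) = (L ^ B1) ^ (((s : ℝ) + 1) / B1) := by
        rw [← Real.rpow_mul hL0.le, mul_div_cancel₀ _ hB10.ne', ← Real.rpow_natCast]
        push_cast
        ring_nf
      rw [e2]
      exact Real.rpow_le_rpow (by positivity) hLx (by positivity)
    have e2 : (zF 1 K x : ℝ) + 1 ≤ 2 * (x : ℝ) ^ (1 / (K : ℝ)) := by
      have e3 : 1 ≤ (x : ℝ) ^ (1 / (K : ℝ)) := Real.one_le_rpow (by linarith) (by positivity)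
      linarith
    rw [mul_div_assoc', le_div_iff₀ hlx]
    calc ((zF 1 K x : ℝ) + 1) * (2 * L ^ (s + 1)) * Real.log x ≤
        (2 * (x : ℝ) ^ (1 / (K : ℝ))) * (2 * (x : ℝ) ^ (((s : ℝ) + 1) / B1)) * (δ / 4 * (x : ℝ) ^ θ) := by
          gcongr
      _ = δ * ((x : ℝ) ^ (1 / (K : ℝ)) * (x : ℝ) ^ (((s : ℝ) + 1) / B1) * (x : ℝ) ^ θ) := by ring
      _ = δ * x := by
          rw [← Real.rpow_add hx0, ← Real.rpow_add hx0, hθ]
          congr 1
          rw [show 1 / (K : ℝ) + ((s : ℝ) + 1) / B1 + (1 - (1 / (K : ℝ) + ((s : ℝ) + 1) / B1)) = 1 by ring,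
            Real.rpow_one]

end Pool.Agent.H537.MM
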