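import Mathlib
import Pool.Agent.H537.MM.ParM

/-! The final theorem, one parity. -/

set_option autoImplicit false
set_option maxHeartbeats 4000000

open Finset Filter Topology

namespace Pool.Agent.H537.MM

open Pool.Agent.H378R2 Pool.Agent.H510R2.Maier Pool.Agent.N914.MR Pool.Agent.H537.FG

theorem card_PR (x : ℕ) : (PR x).card = Nat.primeCounting x := by
  unfold PR Nat.primeCounting Nat.primeCounting'
  rw [Nat.count_eq_card_filter_range]
  congr 1
  ext p
  rw [mem_filter, mem_filter, mem_Icc, mem_range]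
  constructor
  · rintro ⟨⟨_, h2⟩, h3⟩
    exact ⟨by omega, h3⟩
  · rintro ⟨h1, h2⟩
    exact ⟨⟨h2.one_lt.le, by omega⟩, h2⟩

theorem adm_class {s : ℕ} {w z ps r Z : ℕ} {a : Fin (s + 1) → ℕ} (h : InClass w z ps r a) (hps : GoodP Z ps)
    (hw : 2 ≤ w) (hz : s + 2 ≤ z) (hZ : s + 2 ≤ Z) {p : ℕ} (hp : p.Prime) : nuA a p < p := by
  have hle := nuA_le a hp
  by_cases h1 : p ≤ z ∧ p ≠ ps
  · obtain ⟨h2, h3, h4⟩ := h p hp h1.1 h1.2
    by_cases h5 : p ∣ a 0
    · have h6 : nuA a p = 1 := nuA_all a hp fun i => by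
        by_cases hi : i = 0
        · rw [hi]; exact h5
        · exact h2 i hi
      rw [h6]
      exact hp.one_lt
    · have h6 : nuA a p = 2 := nuA_one a hp h5 h2
      rw [h6]
      have h7 : ¬ p ≤ w := fun h8 => h5 (h3 (Or.inl h8))
      omega
  · have h2 : s + 2 < p := by
      by_cases h3 : p ≤ z
      · have h4 : p = ps := by
          by_contra h5
          exact h1 ⟨h3, h5⟩
        rcases hps with h5 | h5
        · rw [h5] at h4
          exact absurd h4 hp.one_lt.ne'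
        · omega
      · omega
    omega

theorem card_AZ {w z ps : ℕ} (hw : 2 ≤ w) : ((AZ w z ps).card : ℝ) ≤ 2 * z / Real.log w := by
  have hlw : 0 < Real.log w := Real.log_pos (by exact_mod_cast (by omega : 1 < w))
  have hw0 : (0 : ℝ) < w := by
    have : 0 < w := by omega
    exact_mod_cast this
  rw [le_div_iff₀ hlw]
  have h1 : w ^ (AZ w z ps).card ≤ 4 ^ z := by
    refine le_trans ?_ (WZ_le z ps)
    calc w ^ (AZ w z ps).card = ∏ _p ∈ AZ w z ps, w := by rw [prod_const]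
      _ ≤ ∏ p ∈ AZ w z ps, p := prod_le_prod' fun p hp => (mem_AZ.mp hp).1.1.le
      _ ≤ WZ z ps := by
          unfold WZ
          apply prod_le_prod_of_subset_of_one_le'
          · intro p hp
            obtain ⟨⟨_, h2⟩, h3, h4⟩ := mem_AZ.mp hp
            exact mem_PZ.mpr ⟨h2, h3, h4⟩
          · intro p hp _
            exact (mem_PZ.mp hp).2.1.one_lt.le
  have h2 : ((w : ℝ)) ^ (AZ w z ps).card ≤ 4 ^ z := by exact_mod_cast h1
  have h3 := Real.log_le_log (by positivity) h2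
  rw [Real.log_pow, Real.log_pow] at h3
  have hlog4 : Real.log 4 ≤ 2 := by
    have := Real.log_two_lt_d9
    have h4 : Real.log 4 = 2 * Real.log 2 := by
      rw [show (4 : ℝ) = 2 ^ 2 by norm_num, Real.log_pow]
      push_cast
      ring
    rw [h4]
    linarith
  have hz0 : (0 : ℝ) ≤ z := Nat.cast_nonneg _
  have h4 : (z : ℝ) * Real.log 4 ≤ z * 2 := mul_le_mul_of_nonneg_left hlog4 hz0
  linarith

/-- sums of reciprocals over the primes of the sieve -/
theorem sum_AZ {w z ps Z K : ℕ} (hps : GoodP Z ps) {Cm : ℝ} (hlw : 0 < Real.log w)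
    (hm : |∑ p ∈ (Ioc w z).filter Nat.Prime, (1 : ℝ) / p - Real.log (Real.log z / Real.log w)| ≤ Cm / Real.log w)
    (h1 : (1 + 1 / (2 * (K : ℝ))) * Real.log w ≤ Real.log z) (h2 : Real.log z ≤ (31 / 20) * Real.log w)
    (hC1 : Cm / Real.log w + 1 / Z ≤ Real.log (1 + 1 / (2 * (K : ℝ))) / 2) (hC2 : Cm / Real.log w ≤ 1 / 20) (hZ : 1 ≤ Z) :
    Real.log (1 + 1 / (2 * (K : ℝ))) / 2 ≤ ∑ p ∈ AZ w z ps, rc p ∧ ∑ p ∈ AZ w z ps, rc p ≤ 1 / 2 := by
  classical
  have hAp : ∀ p ∈ AZ w z ps, p.Prime := fun p hp => (mem_AZ.mp hp).2.1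
  have e1 : ∑ p ∈ AZ w z ps, rc p = ∑ p ∈ AZ w z ps, (1 : ℝ) / p :=
    sum_congr rfl fun p hp => rc_eq (hAp p hp).pos
  have hlz : 0 < Real.log z := by
    have : 0 ≤ 1 / (2 * (K : ℝ)) * Real.log w := by positivity
    linarith
  have hsub : AZ w z ps ⊆ (Ioc w z).filter Nat.Prime := by
    intro p hp
    obtain ⟨h3, h4, _⟩ := mem_AZ.mp hp
    exact mem_filter.mpr ⟨mem_Ioc.mpr h3, h4⟩
  have hZ0 : (0 : ℝ) < Z := by exact_mod_cast hZ
  rw [e1]
  constructor
  · have h3 : ∑ p ∈ (Ioc w z).filter Nat.Prime, (1 : ℝ) / p ≤ ∑ p ∈ AZ w z ps, (1 : ℝ) / p + 1 / Z := by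
      have h4 : (Ioc w z).filter Nat.Prime ⊆ AZ w z ps ∪ ((Ioc w z).filter Nat.Prime).filter (fun p => p = ps) := by
        intro p hp
        rw [mem_filter, mem_Ioc] at hp
        rw [mem_union, mem_AZ, mem_filter, mem_filter, mem_Ioc]
        by_cases h5 : p = ps
        · right; exact ⟨hp, h5⟩
        · left; exact ⟨hp.1, hp.2, h5⟩
      have h5 : ∑ p ∈ ((Ioc w z).filter Nat.Prime).filter (fun p => p = ps), (1 : ℝ) / p ≤ 1 / Z := by
        rcases (((Ioc w z).filter Nat.Prime).filter (fun p => p = ps)).eq_empty_or_nonempty with h0 | ⟨q, hq⟩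
        · rw [h0, sum_empty]
          positivity
        · have hq1 : q = ps := (mem_filter.mp hq).2
          have hqp : q.Prime := (mem_filter.mp (mem_filter.mp hq).1).2
          have h6 : ((Ioc w z).filter Nat.Prime).filter (fun p => p = ps) ⊆ {ps} := by
            intro p hp
            rw [mem_singleton]
            exact (mem_filter.mp hp).2
          refine (sum_le_sum_of_subset_of_nonneg h6 fun _ _ _ => by positivity).trans ?_
          rw [sum_singleton]
          have h7 : Z < ps := by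
            rcases hps with h | h
            · rw [hq1, h] at hqp
              exact absurd rfl hqp.one_lt.ne
            · exact h.2
          apply one_div_le_one_div_of_le hZ0
          exact_mod_cast h7.le
      calc ∑ p ∈ (Ioc w z).filter Nat.Prime, (1 : ℝ) / p ≤
          ∑ p ∈ AZ w z ps ∪ ((Ioc w z).filter Nat.Prime).filter (fun p => p = ps), (1 : ℝ) / p :=
            sum_le_sum_of_subset_of_nonneg h4 fun _ _ _ => by positivity
        _ ≤ ∑ p ∈ AZ w z ps, (1 : ℝ) / p + ∑ p ∈ ((Ioc w z).filter Nat.Prime).filter (fun p => p = ps), (1 : ℝ) / p := by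
            rw [← sum_union_inter]
            have : 0 ≤ ∑ p ∈ AZ w z ps ∩ ((Ioc w z).filter Nat.Prime).filter (fun p => p = ps), (1 : ℝ) / p :=
              sum_nonneg fun _ _ => by positivity
            linarith
        _ ≤ _ := by linarith
    have h4 : Real.log (1 + 1 / (2 * (K : ℝ))) ≤ Real.log (Real.log z / Real.log w) := by
      apply Real.log_le_log (by positivity)
      rw [le_div_iff₀ hlw]
      exact h1
    have h5 := (abs_le.mp hm).1
    linarith
  · have h3 : ∑ p ∈ AZ w z ps, (1 : ℝ) / p ≤ ∑ p ∈ (Ioc w z).filter Nat.Prime, (1 : ℝ) / p :=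
      sum_le_sum_of_subset_of_nonneg hsub fun _ _ _ => by positivity
    have h4 : Real.log (Real.log z / Real.log w) ≤ 9 / 20 := by
      refine le_trans ?_ log_small
      apply Real.log_le_log (by positivity)
      rw [div_le_iff₀ hlw]
      exact h2
    have h5 := (abs_le.mp hm).2
    linarith

/-- everything about one `T`, `x` -/
theorem matrix_even_odd {s K : ℕ} {T : ℝ} {x z w ps r b0 Y Z R : ℕ} {δ δ' c F e3 G0 κ : ℝ}
    (d : Dat s T x z w ps r b0 Y Z δ) (hx : 3 ≤ x) (hz : 2 * (s + 1) + 1 ≤ z) (hZ : 2 * (s + 1) + 1 ≤ Z) (hY : 3 ≤ Y)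
    (hδ' : 0 < δ') (hδc : δ' ≤ c / 40) (hc1 : c ≤ 1)
    (hlo : (1 - δ') * (1 + δ) ^ (s + 1) ≤ (1 - δ) ^ (s + 1)) (hhi : (1 + δ) ^ (s + 1) ≤ 1 + δ')
    (hw2K : 2 * K ≤ w) (hw4 : 4 ≤ w) (hwδ : 2 * K / (w : ℝ) ≤ δ') (hwδ4 : 4 / (w : ℝ) ≤ δ')
    (hρ : 2 * c ≤ rho rc K (AZ w z ps)) (hρ1 : rho rc K (AZ w z ps) ≤ 1) (hV : 1 / 2 ≤ bp rc (AZ w z ps))
    (hr1 : 1 ≤ r) (hrR : r ≤ R) (hzR : z ≤ R) (hrw : r < (w + 1) ^ (K + 1))
    (hκ0 : 0 ≤ κ) (hκ : κ ≤ c / 4) (he3 : e3 ≤ δ') (he30 : ((s : ℝ) + 2) ^ 2 * (1 / z + 1 / Z) ≤ e3)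
    (hG0 : ∑ p ∈ (Ioc z Y).filter Nat.Prime, 1 / (p : ℝ) ≤ G0)
    (hF : Real.exp (2 * ((s : ℝ) + 1) * (1 / Z + ((s : ℝ) + 2) ^ 2 * Real.log (3 ^ (s + 1) * T) / Y)) *
        ((1 + δ) ^ (s + 1) + 2 * ((s : ℝ) + 1) * Real.exp (2 * ((s : ℝ) + 1) * G0) *
          (2 ^ (s + 1) * ((s : ℝ) + 2) ^ 2 * (1 / z))) ≤ F) (hFδ : F ≤ 1 + δ')
    (hNlo : (1 - δ') * (x / Real.log x) ≤ (((Ioc R x).filter fun n => n.Prime ∧ n ≠ ps).card : ℝ))
    (hNup : (((Ioc R x).filter fun n => n.Prime ∧ n ≠ ps).card : ℝ) ≤ (1 + δ') * (x / Real.log x))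
    (hPR : ((PR R).card : ℝ) ≤ δ' * (x / Real.log x))
    (hshift : (-1) ^ K * ((((Ioc R x).filter fun n => n.Prime ∧ n ≠ ps).card : ℝ) * VK K (AZ w z ps)) -
      (((Ioc R x).filter fun n => n.Prime ∧ n ≠ ps).card : ℝ) * κ ≤
      (-1) ^ K * ((((Ioc R x).filter fun n => n.Prime ∧ n ≠ ps).filter (fun n => Fr (AZ w z ps) (n - r))).card : ℝ))
    (hsmall : ((z : ℝ) + 1) * (2 * Real.log T ^ (s + 1)) ≤ δ' * (x / Real.log x)) (hl1 : 1 ≤ Real.log T) :
    ∃ σ : (Fin (s + 1) → ℕ) → ℝ, (∀ a, wt T (WZ z ps) b0 a ≠ 0 → 0 < σ a ∧ Tendsto (SP a) atTop (𝓝 (σ a)) ∧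
        σ a ≤ 2 * ((WZ z ps : ℝ)) ^ (s + 1) *
          Real.exp (2 * ((s : ℝ) + 1) * (1 + G0 + ((s : ℝ) + 2) ^ 2 * Real.log (3 ^ (s + 1) * T) / Y))) ∧
      c * (HH s T (WZ z ps) * (x / Real.log x)) ≤ (-1) ^ K * (∑ a ∈ box s T, wt T (WZ z ps) b0 a * (cntN (PR x) a : ℝ) -
        ∑ a ∈ box s T, wt T (WZ z ps) b0 a * EX (σ a) a x) ∧
      ∑ a ∈ box s T, wt T (WZ z ps) b0 a * EX (σ a) a x ≤ 2 * (HH s T (WZ z ps) * (x / Real.log x)) := by
  classical
  have hT0 : 0 < T := by linarith [d.hT]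
  have hW := WZ_pos z ps
  have hW0 : (0 : ℝ) < WZ z ps := by exact_mod_cast hW
  have hφ : (0 : ℝ) < (WZ z ps).totient := by exact_mod_cast Nat.totient_pos.mpr hW
  have hφ1 : (1 : ℝ) ≤ (WZ z ps).totient := by exact_mod_cast Nat.totient_pos.mpr hW
  have hH := HH_pos (s := s) d.hT hW
  have hM := MW_pos (s := s) d.hT hW
  have hx0 : (3 : ℝ) ≤ x := by exact_mod_cast hx
  have hlx : 0 < Real.log x := Real.log_pos (by linarith)
  set X0 : ℝ := (x : ℝ) / Real.log x with hX0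
  have hX0p : 0 < X0 := by positivity
  set A := AZ w z ps with hA
  set V := bp rc A with hVd
  set ρ := rho rc K A with hρd
  have hV0 : 0 ≤ V := bp_nonneg rc rc_le_one A
  have hV1 : V ≤ 1 := bp_le_one rc rc_nonneg rc_le_one A
  set U := UU w z ps r with hU
  have hw0 : (4 : ℝ) ≤ w := by exact_mod_cast hw4
  have hU1 : U ≤ V * (1 + δ') := by
    refine (UU_le hw2K (by omega) hr1 hrw).trans ?_
    apply mul_le_mul_of_nonneg_left _ hV0
    linarith
  have hU2 : V * (1 - δ') ≤ U := by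
    refine le_trans ?_ (UU_ge (r := r) (z := z) (ps := ps) hw4)
    apply mul_le_mul_of_nonneg_left _ hV0
    linarith
  have hδ'1 : δ' ≤ 1 / 40 := by linarith
  have hU0 : 0 < U := lt_of_lt_of_le (by nlinarith) hU2
  have hCC0 : 0 < CC s w z ps r := by
    unfold CC
    positivity
  have he31 : e3 < 1 := by linarith
  -- the singular series
  have hsing : ∀ a : Fin (s + 1) → ℕ, wt T (WZ z ps) b0 a ≠ 0 → ∃ σ : ℝ, Tendsto (SP a) atTop (𝓝 σ) ∧
      CC s w z ps r * (1 - e3) ≤ σ ∧ σ ≤ CC s w z ps r * Real.exp (2 * ((s : ℝ) + 1) * (1 / Z + GA z a)) := by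
    intro a ha
    have hcl := wt_class hT0 ha d.hb
    have hmono := wt_mono hT0 ha
    have hpos : ∀ i, 0 < a i := by
      intro i
      have h1 := (wt_supp hT0 ha i).1
      have h2 := TT_ge hT0.le (i : ℕ)
      have : (0 : ℝ) < a i := by linarith
      exact_mod_cast this
    obtain ⟨σ, h1, h2, h3⟩ := sing_limit a hmono hpos d.hps hz hZ (CC s w z ps r) hCC0.le (fac_class hcl)
    refine ⟨σ, h1, ?_, ?_⟩
    · refine le_trans (mul_le_mul_of_nonneg_left ?_ hCC0.le) h2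
      push_cast
      have e1 : ((s : ℝ) + 1 + 1) ^ 2 = ((s : ℝ) + 2) ^ 2 := by ring
      rw [e1]
      linarith
    · push_cast at h3
      exact h3
  choose! σ hσ1 hσ2 hσ3 using hsing
  have hσpos : ∀ a, wt T (WZ z ps) b0 a ≠ 0 → 0 < σ a := by
    intro a ha
    refine lt_of_lt_of_le ?_ (hσ2 a ha)
    apply mul_pos hCC0
    linarith
  -- the sums of the expected numbers
  have hElo := lower_E d (by omega : 2 ≤ x) σ (e3 := e3) (by linarith) hU0.le hσ2
  have hEup := upper_E d (by omega : 2 ≤ x) (by omega : 1 ≤ z) hY σ hU0.le hG0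
    (fun a ha => ⟨(hσpos a ha).le, hσ3 a ha⟩) hF
  rw [← hX0, ← hU] at hElo hEup
  set SE := ∑ a ∈ box s T, wt T (WZ z ps) b0 a * EX (σ a) a x with hSE
  set SN := ∑ a ∈ box s T, wt T (WZ z ps) b0 a * (cntN (PR x) a : ℝ) with hSN
  set H := HH s T (WZ z ps) with hHd
  set N := (Ioc R x).filter fun n => n.Prime ∧ n ≠ ps with hN
  set g : ℝ := ((N.filter (fun n => Fr A (n - r))).card : ℝ) with hg
  have hg0 : 0 ≤ g := Nat.cast_nonneg _
  have hHX : 0 < H * X0 := by positivity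
  have hhi1 : 0 < (1 + δ) ^ (s + 1) := by
    have := d.hδ0
    positivity
  have hNprop : ∀ n ∈ N, n.Prime ∧ z < n ∧ n ≤ x ∧ n ≠ ps ∧ r ≤ n := by
    intro n hn
    rw [hN, mem_filter, mem_Ioc] at hn
    exact ⟨hn.2.1, by omega, hn.1.2, hn.2.2, by omega⟩
  have hUV : U ≤ 2 := by nlinarith
  have hFU : F * (U * (X0 * H)) ≤ (1 + δ') * (V * (1 + δ')) * (H * X0) := by
    have e1 : F * U ≤ (1 + δ') * (V * (1 + δ')) := mul_le_mul hFδ hU1 hU0.le (by linarith)
    calc F * (U * (X0 * H)) = F * U * (H * X0) := by ring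
      _ ≤ _ := mul_le_mul_of_nonneg_right e1 hHX.le
  have hSEup : SE ≤ (1 + δ') * (V * (1 + δ')) * (H * X0) := hEup.trans hFU
  have hSE2 : SE ≤ 2 * (H * X0) := by
    refine hSEup.trans (mul_le_mul_of_nonneg_right ?_ hHX.le)
    nlinarith
  have hSElo : (1 - δ') * ((1 - δ') * (V * (1 - δ'))) * (H * X0) ≤ SE := by
    have e0 : 0 ≤ (1 - e3) * (U * (X0 * H)) := mul_nonneg (by linarith) (by positivity)
    have e1 := (mul_le_mul_of_nonneg_right hlo e0).trans hElo
    have e2 : (1 + δ) ^ (s + 1) * ((1 - δ') * ((1 - e3) * (U * (X0 * H)))) ≤ (1 + δ) ^ (s + 1) * SE := by linarith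
    have e3' := le_of_mul_le_mul_left e2 hhi1
    refine le_trans ?_ e3'
    have e4 : (1 - δ') * (V * (1 - δ')) ≤ (1 - e3) * U := by
      apply mul_le_mul (by linarith) hU2 (mul_nonneg hV0 (by linarith)) (by linarith)
    have e5 : 0 ≤ 1 - δ' := by linarith
    calc (1 - δ') * ((1 - δ') * (V * (1 - δ'))) * (H * X0) ≤ (1 - δ') * ((1 - e3) * U) * (H * X0) := by
          apply mul_le_mul_of_nonneg_right _ hHX.le
          exact mul_le_mul_of_nonneg_left e4 e5
      _ = _ := by ring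
  have hVK : VK K A = V + (-1) ^ K * ρ := rfl
  refine ⟨σ, fun a ha => ⟨hσpos a ha, hσ1 a ha, ?_⟩, ?_, hSE2⟩
  · -- pointwise bound
    refine (hσ3 a ha).trans ?_
    have e1 : CC s w z ps r ≤ 2 * (WZ z ps : ℝ) ^ (s + 1) := by
      unfold CC
      rw [← hU]
      have e2 : ((WZ z ps : ℝ) / (WZ z ps).totient) ^ (s + 1) ≤ (WZ z ps : ℝ) ^ (s + 1) := by
        apply pow_le_pow_left₀ (by positivity)
        exact div_le_self hW0.le hφ1
      calc ((WZ z ps : ℝ) / (WZ z ps).totient) ^ (s + 1) * U ≤ (WZ z ps : ℝ) ^ (s + 1) * 2 :=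
            mul_le_mul e2 hUV hU0.le (by positivity)
        _ = _ := by ring
    apply mul_le_mul e1 _ (Real.exp_pos _).le (by positivity)
    apply Real.exp_le_exp.mpr
    apply mul_le_mul_of_nonneg_left _ (by positivity)
    have e2 := GA_le (z := z) (Y := Y) (by linarith [d.hT] : (1 : ℝ) ≤ T) hY ha
    have e3 := G1_le a hG0
    have e4 : 1 / (Z : ℝ) ≤ 1 := by
      rw [div_le_one (by
        have : 0 < Z := by omega
        exact_mod_cast this)]
      have : 1 ≤ Z := by omega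
      exact_mod_cast this
    linarith
  · -- the main inequality
    set nn : ℝ := (N.card : ℝ) / X0 with hnn
    have hnn1 : 1 - δ' ≤ nn := by
      rw [hnn, le_div_iff₀ hX0p]
      exact hNlo
    have hnn2 : nn ≤ 1 + δ' := by
      rw [hnn, div_le_iff₀ hX0p]
      exact hNup
    have hNc : (N.card : ℝ) = nn * X0 := by
      rw [hnn]
      field_simp
    rcases Nat.even_or_odd K with hK | hK
    · have hs1 : (-1 : ℝ) ^ K = 1 := hK.neg_one_pow
      rw [hs1, one_mul] at hshift hVK ⊢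
      rw [one_mul, hVK] at hshift
      have hlow := lower_N d N hNprop
      rw [← hA, ← hg, ← hSN] at hlow
      have e1 : (1 - δ') * (g * H) ≤ SN := by
        have e2 := mul_le_mul_of_nonneg_right hlo (mul_nonneg hg0 hH.le)
        have e3 : (1 + δ) ^ (s + 1) * ((1 - δ') * (g * H)) ≤ (1 + δ) ^ (s + 1) * SN := by linarith
        exact le_of_mul_le_mul_left e3 hhi1
      have key := even_num (δ := δ') (V := V) (ρ := ρ) (κ := κ) (n := nn) (g := g / X0) (SN := SN / (H * X0))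
        (SE := SE / (H * X0)) (c := c) hδ' hδc hc1 hV0 hV1 hρ hρ1 hκ0 hκ hnn1 (by
          rw [le_div_iff₀ hX0p]
          calc nn * (V + ρ - κ) * X0 = nn * X0 * (V + ρ) - nn * X0 * κ := by ring
            _ ≤ g := by rw [← hNc]; exact hshift) (by
          rw [le_div_iff₀ hHX]
          refine le_trans (le_of_eq ?_) e1
          field_simp) (by
          rw [div_le_iff₀ hHX]
          exact hSEup)
      rw [← sub_div, le_div_iff₀ hHX] at key
      exact key
    · have hs1 : (-1 : ℝ) ^ K = -1 := hK.neg_one_pow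
      rw [hs1] at hshift hVK ⊢
      rw [hVK] at hshift
      have hupp := upper_N d N hNprop R (fun n h1 h2 h3 h4 => by
        rw [hN, mem_filter, mem_Ioc]
        exact ⟨⟨h2, h3⟩, h1, h4⟩)
      rw [← hA, ← hg, ← hSN] at hupp
      have hPRH : (g + ((PR R).card : ℝ)) * ((1 + δ) ^ (s + 1) * H) ≤ (g + δ' * X0) * ((1 + δ') * H) := by
        apply mul_le_mul (by linarith) (mul_le_mul_of_nonneg_right hhi hH.le) (mul_nonneg hhi1.le hH.le)
          (add_nonneg hg0 (mul_nonneg hδ'.le hX0p.le))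
      have hMH : ((z : ℝ) + 1) * ((1 + δ) ^ (s + 1) * MW s T (WZ z ps)) ≤ δ' * X0 * H := by
        have e1 : MW s T (WZ z ps) ≤ H * Real.log T ^ (s + 1) := by
          rw [hHd, HH_eq s T hW, div_mul_cancel₀ _ (pow_pos (by linarith : 0 < Real.log T) _).ne']
          have e2 : 1 ≤ ((WZ z ps : ℝ) / (WZ z ps).totient) ^ (s + 1) := by
            apply one_le_pow₀
            rw [one_le_div hφ]
            exact_mod_cast Nat.totient_le _
          calc MW s T (WZ z ps) = MW s T (WZ z ps) * 1 := (mul_one _).symm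
            _ ≤ _ := mul_le_mul_of_nonneg_left e2 hM.le
        have e2 : (1 + δ) ^ (s + 1) ≤ 2 := by linarith
        calc ((z : ℝ) + 1) * ((1 + δ) ^ (s + 1) * MW s T (WZ z ps)) ≤
            ((z : ℝ) + 1) * (2 * (H * Real.log T ^ (s + 1))) := by
              apply mul_le_mul_of_nonneg_left _ (by positivity)
              exact mul_le_mul e2 e1 hM.le (by norm_num)
          _ = ((z : ℝ) + 1) * (2 * Real.log T ^ (s + 1)) * H := by ring
          _ ≤ δ' * X0 * H := mul_le_mul_of_nonneg_right hsmall hH.le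
      have key := odd_num (δ := δ') (V := V) (ρ := ρ) (κ := κ) (n := nn) (g := g / X0) (SN := SN / (H * X0))
        (SE := SE / (H * X0)) (c := c) hδ' hδc hc1 hV0 hV1 hρ hκ0 hκ (by linarith) hnn2 (div_nonneg hg0 hX0p.le) (by
          rw [div_le_iff₀ hX0p]
          have e1 : nn * (V - ρ + κ) * X0 = nn * X0 * (V - ρ) + nn * X0 * κ := by ring
          rw [e1, ← hNc]
          linarith) (by
          rw [div_le_iff₀ hHX]
          refine (hupp.trans (add_le_add hPRH hMH)).trans (le_of_eq ?_)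
          field_simp) (by
          rw [le_div_iff₀ hHX]
          exact hSElo)
      rw [← sub_div, le_div_iff₀ hHX] at key
      linarith

end Pool.Agent.H537.MM
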