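import Mathlib
import Pool.Agent.H537.MM.FinM

/-! Small computations for the final theorem. -/

set_option autoImplicit false
set_option maxHeartbeats 4000000

open Finset Filter Topology

namespace Pool.Agent.H537.MM

open Pool.Agent.H378R2 Pool.Agent.H510R2.Maier Pool.Agent.N914.MR Pool.Agent.H537.FG

theorem exp_lin {t : ℝ} (h0 : 0 ≤ t) (h1 : t ≤ 1) : Real.exp t ≤ 1 + 2 * t := by
  have h := Real.exp_bound' h0 h1 (n := 2) (by norm_num)
  norm_num [Finset.sum_range_succ, Nat.factorial] at h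
  nlinarith

theorem delta_choice (s : ℕ) {δ' : ℝ} (h0 : 0 < δ') (h1 : δ' ≤ 1 / 40) :
    0 < δ' / (8 * ((s : ℝ) + 1)) ∧ δ' / (8 * ((s : ℝ) + 1)) ≤ 1 ∧
      (1 + δ' / (8 * ((s : ℝ) + 1))) ^ (s + 1) ≤ 1 + δ' / 4 ∧
      (1 - δ') * (1 + δ' / (8 * ((s : ℝ) + 1))) ^ (s + 1) ≤ (1 - δ' / (8 * ((s : ℝ) + 1))) ^ (s + 1) := by
  have hs0 : (0 : ℝ) ≤ s := Nat.cast_nonneg _
  set δ := δ' / (8 * ((s : ℝ) + 1)) with hδ
  have hδ0 : 0 < δ := by positivity
  have hδs : ((s : ℝ) + 1) * δ = δ' / 8 := by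
    rw [hδ]
    field_simp
  have hδ1 : δ ≤ 1 := by
    have : δ ≤ ((s : ℝ) + 1) * δ := by nlinarith
    linarith
  have e1 : (1 + δ) ^ (s + 1) ≤ 1 + δ' / 4 := by
    have h2 : (1 + δ) ^ (s + 1) ≤ Real.exp (((s + 1 : ℕ) : ℝ) * δ) := by
      rw [Real.exp_nat_mul]
      apply pow_le_pow_left₀ (by linarith)
      have := Real.add_one_le_exp δ
      linarith
    push_cast at h2
    rw [hδs] at h2
    have h3 := exp_lin (t := δ' / 8) (by linarith) (by linarith)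
    linarith
  refine ⟨hδ0, hδ1, e1, ?_⟩
  have e2 : 1 + ((s + 1 : ℕ) : ℝ) * (-δ) ≤ (1 + -δ) ^ (s + 1) := one_add_mul_le_pow (by linarith) (s + 1)
  have e3 : (1 : ℝ) + -δ = 1 - δ := by ring
  rw [e3] at e2
  push_cast at e2
  have e4 : (1 - δ') * (1 + δ) ^ (s + 1) ≤ (1 - δ') * (1 + δ' / 4) := mul_le_mul_of_nonneg_left e1 (by linarith)
  nlinarith

theorem WZ_cop {Z z ps : ℕ} (hps : GoodP Z ps) : (WZ z ps).Coprime ps := by
  rcases hps with h | h
  · rw [h]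
    exact Nat.coprime_one_right _
  · rw [Nat.coprime_comm, Nat.Prime.coprime_iff_not_dvd h.1, dvd_WZ h.1]
    tauto

theorem HH_ge {s : ℕ} {T : ℝ} (hT : 40 ≤ T) {W : ℕ} (hW : 0 < W) :
    (T / (20 * W * Real.log T)) ^ (s + 1) ≤ HH s T W := by
  have hl : 0 < Real.log T := Real.log_pos (by linarith)
  have hφ : (0 : ℝ) < W.totient := by exact_mod_cast Nat.totient_pos.mpr hW
  have hW0 : (0 : ℝ) < W := by exact_mod_cast hW
  unfold HH
  have h1 : (T / (20 * W * Real.log T)) ^ (s + 1) = (∏ _i : Fin (s + 1), T / (20 * W)) / Real.log T ^ (s + 1) := by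
    rw [prod_const, card_univ, Fintype.card_fin, ← div_pow, div_div]
  rw [h1]
  apply div_le_div_of_nonneg_right _ (pow_pos hl _).le
  apply Finset.prod_le_prod
  · intro i _
    positivity
  · intro i _
    have h2 := TT_ge (by linarith : 0 ≤ T) (i : ℕ)
    have h3 := MPhi_ge (TT T i) (hT.trans h2)
    have h4 : (W.totient : ℝ) ≤ W := by exact_mod_cast Nat.totient_le W
    rw [div_le_div_iff₀ (by positivity) hφ]
    have h5 : T / 20 ≤ MPhi (TT T i) := by linarith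
    have h6 : T * W.totient ≤ T * W := mul_le_mul_of_nonneg_left h4 (by linarith)
    have h7 : T / 20 * (20 * W) ≤ MPhi (TT T i) * (20 * W) := mul_le_mul_of_nonneg_right h5 (by positivity)
    linarith

/-- the Mertens bound for the tail -/
theorem G0_bound {Cm : ℝ} (hCm : 0 ≤ Cm) (hmert : ∀ a b : ℕ, 2 ≤ a → a ≤ b →
    |∑ p ∈ (Finset.Ioc a b).filter Nat.Prime, (1 : ℝ) / p - Real.log (Real.log b / Real.log a)| ≤ Cm / Real.log a)
    {z Y : ℕ} {q : ℝ} (hz : 3 ≤ z) (hY : Real.log Y ≤ q * Real.log z) :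
    ∑ p ∈ (Ioc z Y).filter Nat.Prime, 1 / (p : ℝ) ≤ |Real.log q| + Cm := by
  by_cases hzY : z ≤ Y
  · have h1 := (abs_le.mp (hmert z Y (by omega) hzY)).2
    have hz3 : (3 : ℝ) ≤ z := by exact_mod_cast hz
    have hlz : 1 ≤ Real.log z := by
      rw [Real.le_log_iff_exp_le (by linarith)]
      have := exp_one_lt_three'
      linarith
    have hlY : 0 < Real.log Y := by
      apply Real.log_pos
      exact_mod_cast (by omega : 1 < Y)
    have h2 : Real.log (Real.log Y / Real.log z) ≤ Real.log q := by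
      apply Real.log_le_log (by positivity)
      rw [div_le_iff₀ (by linarith)]
      exact hY
    have h3 : Cm / Real.log z ≤ Cm := div_le_self hCm hlz
    have h4 := le_abs_self (Real.log q)
    linarith
  · have : (Ioc z Y) = ∅ := by
      rw [Finset.Ioc_eq_empty]
      omega
    rw [this, filter_empty, sum_empty]
    positivity

theorem q_aux {K B1 L lY lx lw lz w x Yr : ℝ} {k : ℕ} (hK : K = k) (hB1 : 0 < B1) (hL : 1 ≤ L)
    (hY0 : 0 < Yr) (hYle : Yr ≤ L ^ 2) (hlY : lY = Real.log Yr) (hxlo : L ^ B1 ≤ x) (hlx : lx = Real.log x)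
    (hxw : x ≤ (w + 1) ^ (k + 1)) (hw : 4 ≤ w) (hlw : lw = Real.log w) (hwz : lw ≤ lz) :
    lY ≤ 4 * (K + 1) / B1 * lz := by
  have hL0 : 0 < L := by linarith
  have hK0 : 0 ≤ K := by rw [hK]; exact Nat.cast_nonneg _
  have h1 : lY ≤ 2 * Real.log L := by
    have h2 := Real.log_le_log hY0 hYle
    rw [Real.log_pow] at h2
    push_cast at h2
    rw [hlY]
    exact h2
  have hx0 : 0 < x := lt_of_lt_of_le (by positivity) hxlo
  have h2 : B1 * Real.log L ≤ lx := by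
    have h3 := Real.log_le_log (by positivity) hxlo
    rw [Real.log_rpow hL0] at h3
    rw [hlx]
    exact h3
  have h3 : lx ≤ (K + 1) * (2 * lw) := by
    have h5 := Real.log_le_log hx0 hxw
    rw [Real.log_pow] at h5
    push_cast at h5
    have h6 : Real.log (w + 1) ≤ 2 * Real.log w := by
      have h7 : w + 1 ≤ w ^ 2 := by nlinarith
      have h8 := Real.log_le_log (by positivity) h7
      rw [Real.log_pow] at h8
      push_cast at h8
      exact h8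
    rw [hlx, hK, hlw]
    exact h5.trans (mul_le_mul_of_nonneg_left h6 (by positivity))
  have h4 : B1 * Real.log L ≤ 2 * (K + 1) * lz := by
    have h5 : (K + 1) * (2 * lw) ≤ (K + 1) * (2 * lz) :=
      mul_le_mul_of_nonneg_left (by linarith) (by positivity)
    linarith
  refine h1.trans ?_
  rw [div_mul_eq_mul_div, le_div_iff₀ hB1]
  linarith

theorem logD_aux {s : ℕ} {T x δ lx : ℝ} (hT : 40 ≤ T) (hx : 3 ≤ x) (hlx : Real.log x ≤ lx)
    (h : ((s : ℝ) + 1) * Real.log 3 + lx + Real.log 2 ≤ δ * Real.log T) :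
    Real.log (3 ^ (s + 1) * T * x + 1) ≤ (1 + δ) * Real.log T := by
  have h3 : (1 : ℝ) ≤ 3 ^ (s + 1) := one_le_pow₀ (by norm_num)
  have h1 : 3 ^ (s + 1) * T * x + 1 ≤ 2 * (3 ^ (s + 1) * T * x) := by
    have : (1 : ℝ) ≤ 3 ^ (s + 1) * T * x := by
      have h4 : (1 : ℝ) ≤ 3 ^ (s + 1) * T := by nlinarith
      nlinarith
    linarith
  have hT0 : 0 < T := by linarith
  have hx0 : 0 < x := by linarith
  have h2 := Real.log_le_log (by positivity) h1
  rw [Real.log_mul (by norm_num) (by positivity), Real.log_mul (by positivity) hx0.ne',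
    Real.log_mul (by positivity) hT0.ne', Real.log_pow] at h2
  push_cast at h2
  linarith

theorem log3T_aux {s : ℕ} {T x δ : ℝ} (hT : 40 ≤ T) (hx : 3 ≤ x) (hδ : δ ≤ 1)
    (h : Real.log (3 ^ (s + 1) * T * x + 1) ≤ (1 + δ) * Real.log T) :
    0 ≤ Real.log (3 ^ (s + 1) * T) ∧ Real.log (3 ^ (s + 1) * T) ≤ 2 * Real.log T := by
  have h3 : (1 : ℝ) ≤ 3 ^ (s + 1) := one_le_pow₀ (by norm_num)
  have hl : 0 < Real.log T := Real.log_pos (by linarith)
  have h5 : (1 : ℝ) ≤ 3 ^ (s + 1) * T := by nlinarith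
  constructor
  · exact Real.log_nonneg h5
  · have h4 : Real.log (3 ^ (s + 1) * T) ≤ Real.log (3 ^ (s + 1) * T * x + 1) := by
      apply Real.log_le_log (by linarith)
      nlinarith
    nlinarith

theorem g2_aux {s : ℕ} {L ℓ Y δ' : ℝ} (hδ' : 0 < δ') (hL : 1 ≤ L) (hℓ : ℓ ≤ 2 * L) (hY : L ^ 2 / 2 ≤ Y)
    (h : 4 * ((s : ℝ) + 2) ^ 2 ≤ δ' / (64 * ((s : ℝ) + 1)) * L) :
    ((s : ℝ) + 2) ^ 2 * ℓ / Y ≤ δ' / (64 * ((s : ℝ) + 1)) := by
  have hL0 : 0 < L := by linarith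
  have hY0 : 0 < Y := lt_of_lt_of_le (by positivity) hY
  have h1 : ((s : ℝ) + 2) ^ 2 * ℓ / Y ≤ ((s : ℝ) + 2) ^ 2 * (2 * L) / (L ^ 2 / 2) := by
    gcongr
  refine h1.trans ?_
  rw [div_le_iff₀ (by positivity)]
  have h2 := mul_le_mul_of_nonneg_right h hL0.le
  have h3 : 0 < δ' / (64 * ((s : ℝ) + 1)) := by positivity
  nlinarith

theorem F_aux {s : ℕ} {δ δ' Zi g2 CF zi : ℝ} (hδ' : 0 < δ') (hδ'1 : δ' ≤ 1 / 40) (hδ : 0 < δ)
    (hhi : (1 + δ) ^ (s + 1) ≤ 1 + δ' / 4) (hZ : 2 * ((s : ℝ) + 1) * Zi ≤ δ' / 32) (hZ0 : 0 ≤ Zi) (hg0 : 0 ≤ g2)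
    (hg : g2 ≤ δ' / (64 * ((s : ℝ) + 1))) (hCF0 : 0 ≤ CF * zi) (hCF : CF * zi ≤ δ' / 16) :
    Real.exp (2 * ((s : ℝ) + 1) * (Zi + g2)) * ((1 + δ) ^ (s + 1) + CF * zi) ≤ 1 + δ' := by
  have h1 : 2 * ((s : ℝ) + 1) * (Zi + g2) ≤ δ' / 16 := by
    have h2 := mul_le_mul_of_nonneg_left hg (by positivity : (0 : ℝ) ≤ 2 * ((s : ℝ) + 1))
    have h3 : 2 * ((s : ℝ) + 1) * (δ' / (64 * ((s : ℝ) + 1))) = δ' / 32 := by
      field_simp
      norm_num
    rw [h3] at h2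
    rw [mul_add]
    linarith
  have h2 : 0 ≤ 2 * ((s : ℝ) + 1) * (Zi + g2) := by positivity
  have h3 := exp_lin h2 (by linarith)
  have h5 : Real.exp (2 * ((s : ℝ) + 1) * (Zi + g2)) ≤ 1 + δ' / 8 := by linarith
  have h6 : (1 + δ) ^ (s + 1) + CF * zi ≤ 1 + δ' / 2 := by linarith
  have h7 : (0 : ℝ) ≤ (1 + δ) ^ (s + 1) := by positivity
  calc _ ≤ (1 + δ' / 8) * (1 + δ' / 2) := mul_le_mul h5 h6 (by linarith) (by linarith)
    _ ≤ 1 + δ' := by nlinarith

/-- the number of the rows -/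
theorem card_aux {s : ℕ} {T L u lx W x H Q c ε E1 EM : ℝ} (hT : 40 ≤ T) (hL : L = Real.log T) (hu : 0 < u) (hx : 0 < x)
    (hlx0 : 0 < lx) (hlx : lx ≤ u / 4) (hW0 : 0 < W) (hW : W ≤ Real.exp (u / 4)) (hQ0 : 0 ≤ Q) (hc : 0 < c)
    (hE1 : 0 < E1) (hHge : (T / (20 * W * L)) ^ (s + 1) ≤ H) (hEM : EM = 2 * W ^ (s + 1) * E1 * x)
    (hcount : c / 2 * (H * (x / lx)) ≤ Q * (x + EM))
    (U8 : (20 * Real.exp (u / 4) * L) ^ (s + 1) * (u / 4) * (1 + 2 * Real.exp (u / 4) ^ (s + 1) * E1) ≤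
      c / 2 * Real.exp (ε * L)) : T ^ ((s : ℝ) + 1 - ε) ≤ Q := by
  have hT0 : 0 < T := by linarith
  have hL0 : 0 < L := by rw [hL]; exact Real.log_pos (by linarith)
  have h1 : c / 2 * (H / lx) ≤ Q * (1 + 2 * W ^ (s + 1) * E1) := by
    have h2 : c / 2 * (H / lx) * x ≤ Q * (1 + 2 * W ^ (s + 1) * E1) * x := by
      rw [hEM] at hcount
      calc c / 2 * (H / lx) * x = c / 2 * (H * (x / lx)) := by ring
        _ ≤ _ := hcount
        _ = _ := by ring
    exact le_of_mul_le_mul_right h2 hx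
  have h2 : c / 2 * (T / (20 * W * L)) ^ (s + 1) ≤ Q * ((u / 4) * (1 + 2 * W ^ (s + 1) * E1)) := by
    have h3 : c / 2 * (T / (20 * W * L)) ^ (s + 1) ≤ c / 2 * (H / lx) * lx := by
      have e1 : c / 2 * (H / lx) * lx = c / 2 * H := by
        field_simp
      rw [e1]
      exact mul_le_mul_of_nonneg_left hHge (by positivity)
    refine h3.trans ?_
    have h4 : 0 ≤ Q * (1 + 2 * W ^ (s + 1) * E1) := by positivity
    calc c / 2 * (H / lx) * lx ≤ Q * (1 + 2 * W ^ (s + 1) * E1) * lx := mul_le_mul_of_nonneg_right h1 hlx0.le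
      _ ≤ Q * (1 + 2 * W ^ (s + 1) * E1) * (u / 4) := mul_le_mul_of_nonneg_left hlx h4
      _ = _ := by ring
  have h3 : c / 2 * T ^ (s + 1) ≤ Q * (c / 2 * Real.exp (ε * L)) := by
    have e1 : T ^ (s + 1) ≤ (T / (20 * W * L)) ^ (s + 1) * (20 * Real.exp (u / 4) * L) ^ (s + 1) := by
      rw [← mul_pow]
      apply pow_le_pow_left₀ hT0.le
      rw [div_mul_eq_mul_div, le_div_iff₀ (by positivity)]
      apply mul_le_mul_of_nonneg_left _ hT0.le
      apply mul_le_mul_of_nonneg_right _ hL0.le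
      linarith
    have e2 : (0 : ℝ) ≤ (20 * Real.exp (u / 4) * L) ^ (s + 1) := by positivity
    calc c / 2 * T ^ (s + 1) ≤ c / 2 * ((T / (20 * W * L)) ^ (s + 1) * (20 * Real.exp (u / 4) * L) ^ (s + 1)) :=
          mul_le_mul_of_nonneg_left e1 (by positivity)
      _ = (c / 2 * (T / (20 * W * L)) ^ (s + 1)) * (20 * Real.exp (u / 4) * L) ^ (s + 1) := by ring
      _ ≤ (Q * ((u / 4) * (1 + 2 * W ^ (s + 1) * E1))) * (20 * Real.exp (u / 4) * L) ^ (s + 1) :=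
          mul_le_mul_of_nonneg_right h2 e2
      _ ≤ (Q * ((u / 4) * (1 + 2 * (Real.exp (u / 4)) ^ (s + 1) * E1))) * (20 * Real.exp (u / 4) * L) ^ (s + 1) := by
          gcongr
      _ = Q * ((20 * Real.exp (u / 4) * L) ^ (s + 1) * (u / 4) * (1 + 2 * (Real.exp (u / 4)) ^ (s + 1) * E1)) := by ring
      _ ≤ Q * (c / 2 * Real.exp (ε * L)) := mul_le_mul_of_nonneg_left U8 hQ0
  have h4 : T ^ (s + 1) ≤ Q * Real.exp (ε * L) := by
    have h5 : c / 2 * T ^ (s + 1) ≤ c / 2 * (Q * Real.exp (ε * L)) := by linarith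
    exact le_of_mul_le_mul_left h5 (by positivity)
  have h5 : T ^ ((s : ℝ) + 1 - ε) = T ^ (s + 1) / Real.exp (ε * L) := by
    rw [Real.rpow_sub hT0]
    congr 1
    · norm_cast
    · rw [Real.rpow_def_of_pos hT0, ← hL, mul_comm]
  rw [h5, div_le_iff₀ (Real.exp_pos _)]
  exact h4

/-- sizes of the numbers of primes -/
theorem primes_aux {R x ps : ℕ} {δ' X0 lx : ℝ} (hδ' : 0 < δ') (hX0 : X0 = x / lx) (hlx : 0 < lx) (hx : 0 < (x : ℝ))
    (hR : (R : ℝ) ≤ δ' / 4 * x)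
    (hpx : |(Nat.primeCounting x : ℝ) - x / lx| ≤ δ' / 4 * (x / lx))
    (hpR : |(Nat.primeCounting R : ℝ) - R / lx| ≤ δ' / 4 * (x / lx)) (h1 : 1 ≤ δ' / 4 * (x / lx)) :
    (1 - δ') * X0 ≤ (((Ioc R x).filter fun n => n.Prime ∧ n ≠ ps).card : ℝ) ∧
    (((Ioc R x).filter fun n => n.Prime ∧ n ≠ ps).card : ℝ) ≤ (1 + δ') * X0 ∧
    ((PR R).card : ℝ) ≤ δ' * X0 := by
  classical
  rw [← hX0] at hpx hpR h1
  have hX0p : 0 < X0 := by rw [hX0]; positivity
  have hRX : (R : ℝ) / lx ≤ δ' / 4 * X0 := by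
    rw [hX0, ← mul_div_assoc]
    exact div_le_div_of_nonneg_right hR hlx.le
  have hPRR : ((PR R).card : ℝ) ≤ δ' / 2 * X0 := by
    rw [card_PR]
    have := (abs_le.mp hpR).2
    linarith
  have hPRx1 : (1 - δ' / 4) * X0 ≤ ((PR x).card : ℝ) := by
    rw [card_PR]
    have := (abs_le.mp hpx).1
    linarith
  have hPRx2 : ((PR x).card : ℝ) ≤ (1 + δ' / 4) * X0 := by
    rw [card_PR]
    have := (abs_le.mp hpx).2
    linarith
  have hNle : (((Ioc R x).filter fun n => n.Prime ∧ n ≠ ps).card : ℝ) ≤ ((PR x).card : ℝ) := by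
    norm_cast
    apply card_le_card
    intro n hn
    rw [mem_filter, mem_Ioc] at hn
    unfold PR
    rw [mem_filter, mem_Icc]
    exact ⟨⟨by omega, hn.1.2⟩, hn.2.1⟩
  have hNge : ((PR x).card : ℝ) ≤ (((Ioc R x).filter fun n => n.Prime ∧ n ≠ ps).card : ℝ) + (PR R).card + 1 := by
    have h1 : PR x ⊆ ((Ioc R x).filter fun n => n.Prime ∧ n ≠ ps) ∪ (PR R) ∪ {ps} := by
      intro n hn
      unfold PR at hn
      rw [mem_filter, mem_Icc] at hn
      rw [mem_union, mem_union, mem_singleton, mem_filter, mem_Ioc]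
      by_cases h2 : n = ps
      · right; exact h2
      · left
        by_cases h3 : n ≤ R
        · right
          unfold PR
          rw [mem_filter, mem_Icc]
          exact ⟨⟨hn.1.1, h3⟩, hn.2⟩
        · left
          exact ⟨⟨by omega, hn.1.2⟩, hn.2, h2⟩
    have h2 := card_le_card h1
    have h3 := card_union_le (((Ioc R x).filter fun n => n.Prime ∧ n ≠ ps) ∪ (PR R)) {ps}
    have h4 := card_union_le ((Ioc R x).filter fun n => n.Prime ∧ n ≠ ps) (PR R)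
    rw [card_singleton] at h3
    have h5 : (PR x).card ≤ ((Ioc R x).filter fun n => n.Prime ∧ n ≠ ps).card + (PR R).card + 1 := by omega
    exact_mod_cast h5
  have hδX : 0 < δ' * X0 := by positivity
  refine ⟨by linarith, by linarith, by linarith⟩

end Pool.Agent.H537.MM
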