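import Mathlib
import Pool.Agent.H537.MM.Small

/-! The final theorem, one parity. -/

set_option autoImplicit false
set_option maxHeartbeats 4000000

open Finset Filter Topology

namespace Pool.Agent.H537.MM

open Pool.Agent.H378R2 Pool.Agent.H510R2.Maier Pool.Agent.N914.MR Pool.Agent.H537.FG

theorem one_parity (s K : ℕ) (B1 B2 ε : ℝ) (hB1 : (s : ℝ) + 1 < B1) (hB12 : B1 ≤ B2) (hε : 0 < ε) (hK2 : 2 ≤ K)
    (hK20 : 20 * B2 < K) (hK1 : 1 / (K : ℝ) + ((s : ℝ) + 1) / B1 < 1) :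
    ∃ η : ℝ, 0 < η ∧ ∀ᶠ T : ℕ in atTop, ∀ x : ℕ, Real.log T ^ B1 ≤ x → (x : ℝ) ≤ Real.log T ^ B2 →
      ∃ S : Finset (Fin (s + 1) → ℕ), (T : ℝ) ^ ((s : ℝ) + 1 - ε) ≤ S.card ∧ ∀ a ∈ S, StrictMono a ∧
        (∀ i, T < a i ∧ a i < 3 ^ (s + 1) * T) ∧ (∀ p, p.Prime → nuA a p < p) ∧
        ∃ σ : ℝ, 0 < σ ∧ Tendsto (SP a) atTop (𝓝 σ) ∧
          η * EX σ a x ≤ (-1) ^ K * ((cntN (PR x) a : ℝ) - EX σ a x) := by
  classical
  have hs0 : (0 : ℝ) ≤ s := Nat.cast_nonneg _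
  have hB10 : 0 < B1 := by linarith
  have hB20 : 0 < B2 := by linarith
  have hK0 : (0 : ℝ) < K := by linarith
  have hK2r : (2 : ℝ) ≤ K := by exact_mod_cast hK2
  obtain ⟨Cm, hCm, hmert⟩ := Pool.Agent.Helper923.HMertens.mertens_ratio
  obtain ⟨c0, hc0⟩ : ∃ c0 : ℝ, c0 = Real.log (1 + 1 / (2 * (K : ℝ))) / 2 := ⟨_, rfl⟩
  have hc0p : 0 < c0 := by
    rw [hc0]
    apply div_pos _ (by norm_num)
    apply Real.log_pos
    have : 0 < 1 / (2 * (K : ℝ)) := by positivity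
    linarith only [this]
  have hc01 : c0 ≤ 1 := by
    have h1 : Real.log (1 + 1 / (2 * (K : ℝ))) ≤ 1 / (2 * (K : ℝ)) := by
      have := Real.log_le_sub_one_of_pos (show 0 < 1 + 1 / (2 * (K : ℝ)) by positivity)
      linarith only [this]
    have h2 : 1 / (2 * (K : ℝ)) ≤ 1 := by
      rw [div_le_one (by positivity)]
      linarith only [hK2r]
    rw [hc0]
    linarith only [h1, h2]
  have hfac : (0 : ℝ) < ((K + 1).factorial : ℝ) := by exact_mod_cast Nat.factorial_pos _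
  have hfac1 : (1 : ℝ) ≤ ((K + 1).factorial : ℝ) := by exact_mod_cast Nat.factorial_pos _
  obtain ⟨c, hc⟩ : ∃ c : ℝ, c = (1 / 2) * ((1 / 2) * ((c0 / 2) ^ (K + 1) / ((K + 1).factorial : ℝ))) := ⟨_, rfl⟩
  have hcp : 0 < c := by rw [hc]; positivity
  have hc1 : c ≤ 1 := by
    have h1 : (c0 / 2) ^ (K + 1) ≤ 1 := pow_le_one₀ (by positivity) (by linarith only [hc01])
    have h2 : (c0 / 2) ^ (K + 1) / ((K + 1).factorial : ℝ) ≤ 1 := by
      rw [div_le_one hfac]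
      linarith only [h1, hfac1]
    rw [hc]
    linarith only [h2]
  obtain ⟨δ', hδ'⟩ : ∃ δ' : ℝ, δ' = c / 40 := ⟨_, rfl⟩
  have hδ'p : 0 < δ' := by rw [hδ']; positivity
  have hδ'1 : δ' ≤ 1 / 40 := by rw [hδ']; linarith only [hc1]
  obtain ⟨δ, hδ⟩ : ∃ δ : ℝ, δ = δ' / (8 * ((s : ℝ) + 1)) := ⟨_, rfl⟩
  obtain ⟨hδp, hδ1, hδhi, hδlo⟩ := delta_choice s hδ'p hδ'1
  rw [← hδ] at hδp hδ1 hδhi hδlo
  -- the bound for the exceptional prime
  obtain ⟨Z, hZ⟩ := exists_nat_gt (2 * (s + 1) + 1 + 2 * ((s : ℝ) + 2) ^ 2 / δ' + 64 * ((s : ℝ) + 1) / δ' + 2 / c0)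
  have y1 : 0 < 2 * ((s : ℝ) + 2) ^ 2 / δ' := by positivity
  have y2 : 0 < 64 * ((s : ℝ) + 1) / δ' := by positivity
  have y3 : 0 < 2 / c0 := by positivity
  have hZ1 : 2 * (s + 1) + 1 ≤ Z := by
    have : ((2 * (s + 1) + 1 : ℕ) : ℝ) ≤ Z := by
      push_cast
      linarith only [hZ, y1, y2, y3]
    exact_mod_cast this
  have hZ0 : (0 : ℝ) < Z := by
    have : 0 < Z := by omega
    exact_mod_cast this
  have hZ2 : ((s : ℝ) + 2) ^ 2 * (1 / Z) ≤ δ' / 2 := by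
    have h1 : 2 * ((s : ℝ) + 2) ^ 2 / δ' ≤ Z := by linarith only [hZ, y1, y2, y3, hs0]
    rw [div_le_iff₀ hδ'p] at h1
    rw [mul_one_div, div_le_iff₀ hZ0]
    linarith only [h1]
  have hZ3 : 2 * ((s : ℝ) + 1) * (1 / Z) ≤ δ' / 32 := by
    have h1 : 64 * ((s : ℝ) + 1) / δ' ≤ Z := by linarith only [hZ, y1, y2, y3, hs0]
    rw [div_le_iff₀ hδ'p] at h1
    rw [mul_one_div, div_le_iff₀ hZ0]
    linarith only [h1]
  have hZ4 : 1 / (Z : ℝ) ≤ c0 / 2 := by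
    have h1 : 2 / c0 ≤ Z := by linarith only [hZ, y1, y2, y3, hs0]
    rw [div_le_iff₀ hc0p] at h1
    rw [div_le_iff₀ hZ0]
    linarith only [h1]
  obtain ⟨q, hq⟩ : ∃ q : ℝ, q = 4 * ((K : ℝ) + 1) / B1 := ⟨_, rfl⟩
  obtain ⟨G0, hG0⟩ : ∃ G0 : ℝ, G0 = |Real.log q| + Cm := ⟨_, rfl⟩
  have hG0p : 0 ≤ G0 := by rw [hG0]; positivity
  obtain ⟨CF, hCF⟩ : ∃ CF : ℝ, CF = 2 * ((s : ℝ) + 1) * Real.exp (2 * ((s : ℝ) + 1) * G0) *
      (2 ^ (s + 1) * ((s : ℝ) + 2) ^ 2) := ⟨_, rfl⟩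
  have hCFp : 0 < CF := by rw [hCF]; positivity
  obtain ⟨E1, hE1⟩ : ∃ E1 : ℝ, E1 = Real.exp (2 * ((s : ℝ) + 1) * (1 + G0 + 1)) := ⟨_, rfl⟩
  have hE1p : 0 < E1 := by rw [hE1]; positivity
  obtain ⟨τ, hτ⟩ : ∃ τ : ℝ, τ = δ' / 4 := ⟨_, rfl⟩
  have hτp : 0 < τ := by rw [hτ]; positivity
  obtain ⟨S0, hS0⟩ : ∃ S0 : ℝ, S0 = 2 * K / δ' + 4 / δ' + 4 + 2 * K + 2 * ((K : ℝ) + 1) / c0 + 2 * Cm / c0 + 20 * Cm +
      160 / δ + 16 * CF / δ' + 2 * ((s : ℝ) + 2) ^ 2 / δ' + 2 * (s + 1) + 1 := ⟨_, rfl⟩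
  obtain ⟨u0, hu02, hcolM⟩ := colM_est Z (δ / 20) (by positivity)
  have hX1 := parx s K B1 τ (τ * c / 32) S0 0 (δ' / 4) hB1 hK2 hK1 hτp (by rw [hτ]; linarith only [hδ'1]) (by positivity) (by positivity)
  obtain ⟨x1, hx1⟩ := eventually_atTop.1 hX1
  have hU1 := paru s K B2 ε c δ (δ' / (64 * ((s : ℝ) + 1))) (4 * ((s : ℝ) + 2) ^ 2) E1 hB20 hK20 hε hcp hδp (by positivity) hE1p.le
  have hLt : Tendsto (fun T : ℕ => Real.log (T : ℝ)) atTop atTop :=
    Real.tendsto_log_atTop.comp tendsto_natCast_atTop_atTop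
  have hut : Tendsto (fun T : ℕ => Real.log (T : ℝ) ^ ((1 : ℝ) / 20)) atTop atTop :=
    (tendsto_rpow_atTop (by norm_num)).comp hLt
  have hxt : Tendsto (fun T : ℕ => Real.log (T : ℝ) ^ B1) atTop atTop := (tendsto_rpow_atTop hB10).comp hLt
  refine ⟨c / 4, by positivity, ?_⟩
  filter_upwards [hut.eventually hU1, hut.eventually_ge_atTop (max u0 4), hxt.eventually_ge_atTop (x1 : ℝ),
    hLt.eventually_ge_atTop 4, eventually_ge_atTop 40] with T hU huT hxT hLT hT40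
  intro x hxlo hxup
  obtain ⟨L, hL⟩ : ∃ L : ℝ, L = Real.log (T : ℝ) := ⟨_, rfl⟩
  rw [← hL] at hU huT hxT hLT hxlo hxup
  obtain ⟨u, hu⟩ : ∃ u : ℝ, u = L ^ ((1 : ℝ) / 20) := ⟨_, rfl⟩
  rw [← hu] at hU huT
  have hL0 : 0 < L := by linarith only [hLT]
  have hL1 : 1 ≤ L := by linarith only [hLT]
  have hTr : (40 : ℝ) ≤ T := by exact_mod_cast hT40
  have hT0 : (0 : ℝ) < T := by linarith only [hTr]
  have hu20 : u ^ 20 = L := by
    rw [hu, ← Real.rpow_natCast, ← Real.rpow_mul hL0.le]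
    norm_num
  have hexpL : Real.exp L = T := by rw [hL, Real.exp_log hT0]
  have huu0 : u0 ≤ u := (le_max_left _ _).trans huT
  have hu4 : 4 ≤ u := (le_max_right _ _).trans huT
  have hup : 0 < u := by linarith only [hu4]
  obtain ⟨U1, U2, U3, U4, U5, U6, U7, U8⟩ := hU
  have hu40 : u ^ 40 = L ^ 2 := by
    rw [← hu20]
    ring
  rw [hu40] at U5
  rw [hu20] at U2 U3 U4 U5 U6 U7 U8
  rw [hexpL] at U5 U6
  -- the facts on `x`
  have hxx1 : x1 ≤ x := by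
    have : (x1 : ℝ) ≤ x := hxT.trans hxlo
    exact_mod_cast this
  obtain ⟨q1, q2, q3, q4, q5, q6, q7, q8, q9, q10, q11, q12, q13, _, q14⟩ := hx1 x hxx1
  obtain ⟨w, hw⟩ : ∃ w : ℕ, w = wF 1 K x := ⟨_, rfl⟩
  obtain ⟨z, hz⟩ : ∃ z : ℕ, z = zF 1 K x := ⟨_, rfl⟩
  obtain ⟨R, hR⟩ : ∃ R : ℕ, R = ⌊τ * (x : ℝ)⌋₊ := ⟨_, rfl⟩
  have q13' := q13 L hL1 hxlo
  have hRle : (R : ℝ) ≤ τ * x := by rw [hR]; exact Nat.floor_le (by positivity)
  rw [← hw] at q1 q2 q3 q4 q5 q6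
  rw [← hz] at q3 q4 q5 q7 q10 q13'
  rw [← hR] at q10 q11 q12
  have hx3 : (3 : ℝ) ≤ x := by exact_mod_cast q14
  have hx0 : (0 : ℝ) < x := by linarith only [hx3]
  have hlx1 : 1 ≤ Real.log x := by
    rw [Real.le_log_iff_exp_le hx0]
    have := exp_one_lt_three'
    linarith only [this, hx3]
  have hlx0 : 0 < Real.log x := by linarith only [hlx1]
  have hlogx : Real.log x ≤ 20 * B2 * Real.log u := by
    have h1 := Real.log_le_log hx0 hxup
    rw [Real.log_rpow hL0] at h1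
    have h2 : Real.log L = 20 * Real.log u := by
      rw [← hu20, Real.log_pow]
      norm_num
    rw [h2] at h1
    linarith only [h1]
  -- sizes of `w`, `z`
  have p1 : 0 < 2 * (K : ℝ) / δ' := by positivity
  have p2 : 0 < 4 / δ' := by positivity
  have p3 : 0 < 2 * ((K : ℝ) + 1) / c0 := by positivity
  have p4 : 0 ≤ 2 * Cm / c0 := by positivity
  have p5 : 0 < 160 / δ := by positivity
  have p6 : 0 < 16 * CF / δ' := by positivity
  have hw1 : 2 * (K : ℝ) / δ' ≤ w := by linarith only [q1, hS0, p1, p2, p3, p4, p5, p6, y1, hCm, hs0, hK0]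
  have hw2 : 4 / δ' ≤ w := by linarith only [q1, hS0, p1, p2, p3, p4, p5, p6, y1, hCm, hs0, hK0]
  have hw4r : (4 : ℝ) ≤ w := by linarith only [q1, hS0, p1, p2, p3, p4, p5, p6, y1, hCm, hs0, hK0]
  have hw4 : 4 ≤ w := by exact_mod_cast hw4r
  have hw0 : (0 : ℝ) < w := by linarith only [hw4r]
  have hw2K : 2 * K ≤ w := by
    have : ((2 * K : ℕ) : ℝ) ≤ w := by
      push_cast
      linarith only [q1, hS0, p1, p2, p3, p4, p5, p6, y1, hCm, hs0, hK0]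
    exact_mod_cast this
  have hwc0 : 2 * ((K : ℝ) + 1) ≤ c0 * w := by
    have h1 : 2 * ((K : ℝ) + 1) / c0 ≤ w := by linarith only [q1, hS0, p1, p2, p3, p4, p5, p6, y1, hCm, hs0, hK0]
    rw [div_le_iff₀ hc0p] at h1
    linarith only [h1]
  have hlw4 : 4 ≤ Real.log w := by linarith only [q2, hS0, p1, p2, p3, p4, p5, p6, y1, hCm, hs0, hK0]
  have hlw0 : 0 < Real.log w := by linarith only [hlw4]
  have hlw1 : Cm / Real.log w ≤ c0 / 2 := by
    have h1 : 2 * Cm / c0 ≤ Real.log w := by linarith only [q2, hS0, p1, p2, p3, p4, p5, p6, y1, hCm, hs0, hK0]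
    rw [div_le_iff₀ hc0p] at h1
    rw [div_le_iff₀ hlw0]
    linarith only [h1]
  have hlw2 : Cm / Real.log w ≤ 1 / 20 := by
    have h1 : 20 * Cm ≤ Real.log w := by linarith only [q2, hS0, p1, p2, p3, p4, p5, p6, y1, hCm, hs0, hK0]
    rw [div_le_iff₀ hlw0]
    linarith only [h1]
  have hlwz : Real.log w ≤ Real.log z := by
    have : 0 ≤ 1 / (2 * (K : ℝ)) * Real.log w := by positivity
    linarith only [this, q3]
  have hz0 : (0 : ℝ) < z := by
    by_contra hcon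
    have h0 : (z : ℝ) = 0 := le_antisymm (not_lt.mp hcon) (Nat.cast_nonneg _)
    rw [h0, Real.log_zero] at hlwz
    linarith only [hlwz, hlw4]
  have hwzr : (w : ℝ) ≤ z := (Real.log_le_log_iff hw0 hz0).mp hlwz
  have hwz : w ≤ z := by exact_mod_cast hwzr
  have hz1 : 2 * (s + 1) + 1 ≤ z := by
    have : ((2 * (s + 1) + 1 : ℕ) : ℝ) ≤ z := by
      push_cast
      linarith only [hwzr, q1, hS0, p1, p2, p3, p4, p5, p6, y1, hCm, hs0, hK0]
    exact_mod_cast this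
  have hz160 : 160 / δ ≤ z := by linarith only [hwzr, q1, hS0, p1, p2, p3, p4, p5, p6, y1, hCm, hs0, hK0]
  have hzCF : CF * (1 / z) ≤ δ' / 16 := by
    have h1 : 16 * CF / δ' ≤ z := by linarith only [hwzr, q1, hS0, p1, p2, p3, p4, p5, p6, y1, hCm, hs0, hK0]
    rw [div_le_iff₀ hδ'p] at h1
    rw [mul_one_div, div_le_iff₀ hz0]
    linarith only [h1]
  have hzs : ((s : ℝ) + 2) ^ 2 * (1 / z) ≤ δ' / 2 := by
    have h1 : 2 * ((s : ℝ) + 2) ^ 2 / δ' ≤ z := by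
      linarith only [hwzr, q1, hS0, p1, p2, p3, p4, p5, p6, y1, hCm, hs0, hK0]
    rw [div_le_iff₀ hδ'p] at h1
    rw [mul_one_div, div_le_iff₀ hz0]
    linarith only [h1]
  have hzlog4 : (z : ℝ) * Real.log 4 ≤ u / 4 := by
    refine le_trans (mul_le_mul_of_nonneg_right ?_ (Real.log_nonneg (by norm_num))) U2
    refine q7.trans ?_
    calc (x : ℝ) ^ (1 / (K : ℝ)) ≤ (L ^ B2) ^ (1 / (K : ℝ)) := Real.rpow_le_rpow hx0.le hxup (by positivity)
      _ = L ^ (B2 / (K : ℝ)) := by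
          rw [← Real.rpow_mul hL0.le]
          congr 1
          ring
  obtain ⟨ps, hps, hcol⟩ := hcolM u huu0
  have hW := WZ_pos z ps
  have hW0 : (0 : ℝ) < WZ z ps := by exact_mod_cast hW
  have h4z : (4 : ℝ) ^ z ≤ Real.exp (u / 4) := by
    rw [← Real.log_le_iff_le_exp (by positivity), Real.log_pow]
    exact hzlog4
  have hWexp : (WZ z ps : ℝ) ≤ Real.exp (u / 4) := by
    have h1 : (WZ z ps : ℝ) ≤ 4 ^ z := by exact_mod_cast WZ_le z ps
    exact h1.trans h4z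
  have hlogW : Real.log (WZ z ps) ≤ u / 4 := by
    rw [Real.log_le_iff_le_exp hW0]
    exact hWexp
  obtain ⟨Y, hY⟩ : ∃ Y : ℕ, Y = ⌊L ^ 2⌋₊ := ⟨_, rfl⟩
  have hL16 : 16 ≤ L ^ 2 := by
    calc (16 : ℝ) = 4 ^ 2 := by norm_num
      _ ≤ L ^ 2 := pow_le_pow_left₀ (by norm_num) hLT 2
  have hYle : (Y : ℝ) ≤ L ^ 2 := by rw [hY]; exact Nat.floor_le (by positivity)
  have hYlt : L ^ 2 < (Y : ℝ) + 1 := by rw [hY]; exact Nat.lt_floor_add_one _
  have hY3 : 3 ≤ Y := by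
    have : (3 : ℝ) ≤ Y := by linarith only [hYlt, hL16]
    exact_mod_cast this
  have hYh : L ^ 2 / 2 ≤ Y := by linarith only [hYlt, hL16]
  have hY0 : (0 : ℝ) < Y := by linarith only [hYh, hL16]
  -- the residue classes
  have hAp : ∀ p ∈ AZ w z ps, p.Prime ∧ w < p := fun p hp => ⟨(mem_AZ.mp hp).2.1, (mem_AZ.mp hp).1.1⟩
  have hsum := sum_AZ (Z := Z) (K := K) hps hlw0 (hmert w z (by omega) hwz) q3 q4 (by
    rw [← hc0]
    linarith only [hlw1, hZ4]) hlw2 (by omega)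
  rw [← hc0] at hsum
  obtain ⟨hρ, hVh, hρ1⟩ := rho_lower hAp hc0p hsum.1 hsum.2 hwc0
  have hρ2 : 2 * c ≤ rho rc K (AZ w z ps) := by
    refine le_trans (le_of_eq ?_) hρ
    rw [hc]
    ring
  have hRx : R ≤ x := by
    have h2 : τ * x ≤ 1 * x := mul_le_mul_of_nonneg_right (by rw [hτ]; linarith only [hδ'1]) hx0.le
    have h3 : (R : ℝ) ≤ x := by linarith only [hRle, h2]
    exact_mod_cast h3
  obtain ⟨r, hr1, hr2, hr3⟩ := exists_shift w (AZ w z ps) hAp (hsum.2.trans (by norm_num)) K x R (by omega) q12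
    ((Ioc R x).filter fun n => n.Prime ∧ n ≠ ps) (filter_subset _ _)
  obtain ⟨b0, hb0⟩ := exists_b0 w z ps r
  -- logarithms of the multipliers
  have hlogD : Real.log (3 ^ (s + 1) * (T : ℝ) * x + 1) ≤ (1 + δ) * Real.log T :=
    logD_aux hTr hx3 hlogx (by rw [← hL]; exact U3)
  obtain ⟨hlog3T0, hlog3T⟩ := log3T_aux hTr hx3 hδ1 hlogD
  rw [← hL] at hlog3T
  have hg2 : ((s : ℝ) + 2) ^ 2 * Real.log (3 ^ (s + 1) * (T : ℝ)) / Y ≤ δ' / (64 * ((s : ℝ) + 1)) :=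
    g2_aux hδ'p hL1 hlog3T hYh U7
  have d : Dat s (T : ℝ) x z w ps r b0 Y Z δ := by
    refine ⟨hTr, hps, hδp, hδ1, ?_, ?_, ?_, hlogD, ?_, hb0⟩
    · push_cast
      refine le_trans ?_ U5
      have : (WZ z ps : ℝ) * Y ≤ Real.exp (u / 4) * L ^ 2 := mul_le_mul hWexp hYle (Nat.cast_nonneg _) (Real.exp_pos _).le
      linarith only [this]
    · linarith only [hWexp, U6]
    · have h1 : (z : ℝ) ≤ 4 ^ z := by exact_mod_cast (Nat.lt_pow_self (by norm_num : 1 < 4)).le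
      have h4 := Real.exp_pos (u / 4)
      have h3 : Real.exp (u / 4) * 1 ≤ Real.exp (u / 4) * L ^ 2 :=
        mul_le_mul_of_nonneg_left (by linarith only [hL16]) h4.le
      linarith only [h1, h4z, h3, h4, U5]
    · intro n hn hnz hnx hnps b hb i
      have hi1 : (i : ℕ) ≤ s := by omega
      have hTT0 : 0 < TT (T : ℝ) i := lt_of_lt_of_le hT0 (TT_ge hT0.le _)
      have hlogTT : Real.log (TT (T : ℝ) i) = (i : ℕ) * Real.log 3 + L := by
        unfold TT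
        rw [Real.log_mul (by positivity) hT0.ne', Real.log_pow, hL]
      have hl3 : 0 < Real.log 3 := Real.log_pos (by norm_num)
      have hir : ((i : ℕ) : ℝ) ≤ s := by exact_mod_cast hi1
      have hir0 : (0 : ℝ) ≤ ((i : ℕ) : ℝ) := Nat.cast_nonneg _
      have hnx' : (n : ℝ) ≤ x := by exact_mod_cast hnx
      have hn0 : (0 : ℝ) < n := by exact_mod_cast hn.pos
      refine hcol (TT T i) hTT0 ?_ ?_ (WZ z ps) (WZ_sq z ps) (WZ_cop hps) hlogW n hn ?_ hnps ?_ ?_ b hb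
      · rw [hu20, hlogTT]
        have : 0 ≤ ((i : ℕ) : ℝ) * Real.log 3 := by positivity
        linarith only [this]
      · rw [hu20, hlogTT]
        have : ((i : ℕ) : ℝ) * Real.log 3 ≤ s * Real.log 3 := mul_le_mul_of_nonneg_right hir hl3.le
        linarith only [this, U4]
      · intro h1
        have := ((dvd_WZ hn).mp h1).1
        omega
      · have h1 : Real.log n ≤ Real.log x := Real.log_le_log hn0 hnx'
        linarith only [h1, hlogx, U1]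
      · have h1 : (z : ℝ) < n := by exact_mod_cast hnz
        have h2 : 8 / (δ / 20) = 160 / δ := by
          field_simp
          norm_num
        rw [h2]
        linarith only [h1, hz160]
  -- `κ`
  obtain ⟨κ, hκd⟩ : ∃ κ : ℝ, κ = 4 * (((AZ w z ps).card : ℝ) + 1) ^ K / R := ⟨_, rfl⟩
  have hR0 : (0 : ℝ) < R := by
    have : 0 < R := by omega
    exact_mod_cast this
  have hκ0 : 0 ≤ κ := by rw [hκd]; positivity
  have hκ : κ ≤ c / 4 := by
    have h1 := card_AZ (z := z) (ps := ps) (by omega : 2 ≤ w)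
    have h2 : (((AZ w z ps).card : ℝ) + 1) ^ K ≤ τ * c / 32 * x :=
      (pow_le_pow_left₀ (by positivity) (by linarith only [h1]) K).trans q5
    rw [hκd, div_le_iff₀ hR0]
    have h3 : c * (τ * x) ≤ c * (2 * R) := mul_le_mul_of_nonneg_left q11 hcp.le
    linarith only [h2, h3]
  -- the number of the primes
  have hX0p : 0 < (x : ℝ) / Real.log x := by positivity
  obtain ⟨hN1, hN2, hN3⟩ := primes_aux (ps := ps) (X0 := (x : ℝ) / Real.log x) hδ'p rfl hlx0 hx0 (by rw [← hτ]; exact hRle)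
    (q8 x le_rfl) (q8 R hRx) q9
  have hG0b : ∑ p ∈ (Ioc z Y).filter Nat.Prime, 1 / (p : ℝ) ≤ G0 := by
    rw [hG0]
    apply G0_bound hCm hmert (by omega)
    rw [hq]
    exact q_aux (k := K) rfl hB10 hL1 hY0 hYle rfl hxlo rfl (by
      have h5 : x ≤ (w + 1) ^ (K + 1) := by omega
      exact_mod_cast h5) hw4r rfl hlwz
  have hFle : Real.exp (2 * ((s : ℝ) + 1) * (1 / Z + ((s : ℝ) + 2) ^ 2 * Real.log (3 ^ (s + 1) * (T : ℝ)) / Y)) *
        ((1 + δ) ^ (s + 1) + 2 * ((s : ℝ) + 1) * Real.exp (2 * ((s : ℝ) + 1) * G0) *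
          (2 ^ (s + 1) * ((s : ℝ) + 2) ^ 2 * (1 / z))) ≤ 1 + δ' := by
    have h4 : 2 * ((s : ℝ) + 1) * Real.exp (2 * ((s : ℝ) + 1) * G0) *
          (2 ^ (s + 1) * ((s : ℝ) + 2) ^ 2 * (1 / z)) = CF * (1 / z) := by
      rw [hCF]
      ring
    rw [h4]
    exact F_aux hδ'p hδ'1 hδp hδhi hZ3 (by positivity) (by positivity) hg2 (by positivity) hzCF
  obtain ⟨σ, hσ, hmain, hSE2⟩ := matrix_even_odd (K := K) (R := R) (c := c) (δ' := δ') (e3 := δ') (κ := κ) d q14 hz1 hZ1 hY3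
    hδ'p hδ'.le hc1 hδlo (by linarith only [hδhi, hδ'p]) hw2K hw4 (by
      rw [div_le_iff₀ hw0]
      rw [div_le_iff₀ hδ'p] at hw1
      linarith only [hw1]) (by
      rw [div_le_iff₀ hw0]
      rw [div_le_iff₀ hδ'p] at hw2
      linarith only [hw2]) hρ2 hρ1 hVh hr1 hr2 q10 (by omega) hκ0 hκ le_rfl (by
      rw [mul_add]
      linarith only [hzs, hZ2]) hG0b hFle le_rfl hN1 hN2 hN3 (by
      rw [hκd]
      exact hr3) (by
      rw [← hL]
      refine q13'.trans ?_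
      apply mul_le_mul_of_nonneg_right _ hX0p.le
      linarith only [hδ'p]) (by rw [← hL]; exact hL1)
  have hsg : |(-1 : ℝ) ^ K| = 1 := by rw [abs_pow, abs_neg, abs_one, one_pow]
  -- bounds for the expected numbers
  obtain ⟨EM, hEM⟩ : ∃ EM : ℝ, EM = 2 * ((WZ z ps : ℝ)) ^ (s + 1) * E1 * x := ⟨_, rfl⟩
  have hEM0 : 0 ≤ EM := by rw [hEM]; positivity
  have hEb : ∀ a, wt (T : ℝ) (WZ z ps) b0 a ≠ 0 → 0 ≤ EX (σ a) a x ∧ EX (σ a) a x ≤ EM := by
    intro a ha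
    obtain ⟨h1, h2, h3⟩ := hσ a ha
    obtain ⟨h4, h5⟩ := EX_bounds d (by omega : 2 ≤ x) ha h1.le
    have hlT : 1 ≤ Real.log (T : ℝ) := by rw [← hL]; exact hL1
    constructor
    · refine le_trans ?_ h4
      have := d.hδ0
      positivity
    · refine h5.trans ?_
      have e1 : ((x : ℝ) / Real.log x) / Real.log (T : ℝ) ^ (s + 1) ≤ x := by
        have e2 : (x : ℝ) / Real.log x ≤ x := div_le_self hx0.le hlx1
        have e3 : 1 ≤ Real.log (T : ℝ) ^ (s + 1) := one_le_pow₀ hlT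
        exact (div_le_self hX0p.le e3).trans e2
      have e2 : σ a ≤ 2 * ((WZ z ps : ℝ)) ^ (s + 1) * E1 := by
        refine h3.trans ?_
        apply mul_le_mul_of_nonneg_left _ (by positivity)
        rw [hE1]
        apply Real.exp_le_exp.mpr
        apply mul_le_mul_of_nonneg_left _ (by positivity)
        have e3 : δ' / (64 * ((s : ℝ) + 1)) ≤ 1 := by
          rw [div_le_one (by positivity)]
          linarith only [hδ'1, hs0]
        linarith only [e3, hg2]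
      rw [hEM]
      exact mul_le_mul e2 e1 (by positivity) (by positivity)
  have hcount := count_rows (s := s) (T := (T : ℝ)) (W := WZ z ps) (b0 := b0) (x := x)
    (fun a => EX (σ a) a x) hsg hcp (by positivity : 0 ≤ c / 4) le_rfl hEb hEM0 hmain hSE2
  refine ⟨(box s (T : ℝ)).filter (fun a => wt (T : ℝ) (WZ z ps) b0 a ≠ 0 ∧
      c / 4 * EX (σ a) a x ≤ (-1) ^ K * ((cntN (PR x) a : ℝ) - EX (σ a) a x)), ?_, ?_⟩
  · -- the number of the rows
    exact card_aux hTr hL hup hx0 hlx0 (hlogx.trans U1) hW0 hWexp (Nat.cast_nonneg _) hcp hE1p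
      (by rw [hL]; exact HH_ge hTr hW) hEM hcount U8
  · intro a ha
    obtain ⟨_, ha1, ha2⟩ := mem_filter.mp ha
    obtain ⟨h1, h2, _⟩ := hσ a ha1
    refine ⟨wt_mono hT0 ha1, fun i => ?_, fun p hp => ?_, σ a, h1, h2, ha2⟩
    · obtain ⟨h3, h4, _⟩ := wt_supp hT0 ha1 i
      have h5 := TT_ge hT0.le (i : ℕ)
      constructor
      · have : (T : ℝ) < a i := by linarith only [h3, h5]
        exact_mod_cast this
      · have h6 : 3 * TT (T : ℝ) i ≤ 3 ^ (s + 1) * T := by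
          unfold TT
          have h3 : (3 : ℝ) ^ ((i : ℕ) + 1) ≤ 3 ^ (s + 1) := pow_le_pow_right₀ (by norm_num) (by omega)
          calc 3 * (3 ^ (i : ℕ) * (T : ℝ)) = 3 ^ ((i : ℕ) + 1) * T := by ring
            _ ≤ _ := mul_le_mul_of_nonneg_right h3 hT0.le
        have : (a i : ℝ) < 3 ^ (s + 1) * T := by linarith only [h4, h6]
        exact_mod_cast this
    · exact adm_class (wt_class hT0 ha1 d.hb) hps (by omega) (by omega) (by omega) hp

end Pool.Agent.H537.MM
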